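import Pool.Agent.Lib.MP_86b630_nt.Avg81.Windows

set_option autoImplicit false

/-! Normality on average over the constant term. -/

namespace Pool.Agent.Lib.MP_86b630_nt.Avg81

open Finset Polynomial

lemma digit_indicator (v : ℕ) (w : Fin 2) :
    (if (Nat.digits 2 v).sum % 2 = (w : ℕ) then (1 : ℝ) else 0) =
      (1 + (-1) ^ (w : ℕ) * ((chi v : ℤ) : ℝ)) / 2 := by
  have h : (chi v : ℤ) = (-1) ^ ((Nat.digits 2 v).sum % 2) := by
    unfold chi
    exact neg_one_pow_eq_pow_mod_two _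
  rw [h]
  rcases Nat.mod_two_eq_zero_or_one (Nat.digits 2 v).sum with h0 | h0
  · rw [h0]
    fin_cases w <;> norm_num
  · rw [h0]
    fin_cases w <;> norm_num

/-- Word counts from correlations. -/
lemma word_count (k N : ℕ) (v : ℕ → ℕ → ℕ) (w : Fin k → Fin 2) (ε : ℝ) (hε : 0 ≤ ε)
    (h : ∀ S ∈ (range k).powerset.erase ∅,
      |∑ n ∈ range N, ((∏ i ∈ S, chi (v n i) : ℤ) : ℝ)| ≤ ε * N) :
    |(#{n ∈ range N | ∀ i : Fin k, (Nat.digits 2 (v n i)).sum % 2 = (w i : ℕ)} : ℝ) -
      N / 2 ^ k| ≤ ε * N := by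
  classical
  set σ : ℕ → ℝ := fun i => if hi : i < k then (-1) ^ (w ⟨i, hi⟩ : ℕ) else 1 with hσ
  have hσ1 : ∀ i, |σ i| = 1 := by
    intro i
    rw [hσ]
    simp only
    split_ifs <;> simp
  have h1 : (#{n ∈ range N | ∀ i : Fin k, (Nat.digits 2 (v n i)).sum % 2 = (w i : ℕ)} : ℝ) =
      ∑ n ∈ range N, ∏ i : Fin k, (1 + (-1) ^ (w i : ℕ) * ((chi (v n i) : ℤ) : ℝ)) / 2 := by
    rw [card_filter]
    push_cast
    apply sum_congr rfl
    intro n _
    rw [prod_congr rfl fun (i : Fin k) _ => (digit_indicator (v n i) (w i)).symm, prod_boole]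
    simp
  have h2 : ∀ n ∈ range N, ∏ i : Fin k, (1 + (-1) ^ (w i : ℕ) * ((chi (v n i) : ℤ) : ℝ)) / 2 =
      (∑ S ∈ (range k).powerset, (∏ i ∈ S, σ i) * ((∏ i ∈ S, chi (v n i) : ℤ) : ℝ)) / 2 ^ k := by
    intro n _
    have h3 : ∏ i : Fin k, (1 + (-1) ^ (w i : ℕ) * ((chi (v n i) : ℤ) : ℝ)) / 2 =
        ∏ i : Fin k, (1 + σ i * ((chi (v n i) : ℤ) : ℝ)) / 2 := by
      apply prod_congr rfl
      intro i _
      rw [hσ]
      simp only [i.2, dif_pos]
    rw [h3, Fin.prod_univ_eq_prod_range (fun i => (1 + σ i * ((chi (v n i) : ℤ) : ℝ)) / 2) k,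
      prod_div_distrib, prod_const, card_range, prod_one_add]
    congr 1
    apply sum_congr rfl
    intro S _
    rw [prod_mul_distrib]
    push_cast
    rfl
  rw [h1, sum_congr rfl h2, ← sum_div, sum_comm]
  have hempty : (∅ : Finset ℕ) ∈ (range k).powerset := empty_mem_powerset _
  rw [← add_sum_erase _ _ hempty]
  have h4 : ∑ n ∈ range N, (∏ i ∈ (∅ : Finset ℕ), σ i) *
      ((∏ i ∈ (∅ : Finset ℕ), chi (v n i) : ℤ) : ℝ) = N := by simp
  rw [h4, add_div, add_sub_cancel_left, abs_div, abs_of_pos (show (0 : ℝ) < 2 ^ k by positivity),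
    div_le_iff₀ (by positivity)]
  calc |∑ S ∈ (range k).powerset.erase ∅, ∑ n ∈ range N, (∏ i ∈ S, σ i) *
        ((∏ i ∈ S, chi (v n i) : ℤ) : ℝ)| ≤
        ∑ S ∈ (range k).powerset.erase ∅, |∑ n ∈ range N, (∏ i ∈ S, σ i) *
          ((∏ i ∈ S, chi (v n i) : ℤ) : ℝ)| := abs_sum_le_sum_abs _ _
    _ ≤ ∑ S ∈ (range k).powerset.erase ∅, ε * N := by
        apply sum_le_sum
        intro S hS
        rw [← mul_sum, abs_mul, abs_prod, prod_congr rfl fun i _ => hσ1 i, prod_const_one, one_mul]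
        exact h S hS
    _ ≤ ε * N * 2 ^ k := by
        rw [sum_const, nsmul_eq_mul, mul_comm]
        apply mul_le_mul_of_nonneg_left _ (by positivity)
        have h5 : ((range k).powerset.erase ∅).card ≤ 2 ^ k := by
          calc ((range k).powerset.erase ∅).card ≤ (range k).powerset.card := card_erase_le
            _ = 2 ^ k := by rw [card_powerset, card_range]
        exact_mod_cast h5

/-- Normality on average over the constant term, with a power saving. -/
theorem main (d k A : ℕ) (hd : 2 ≤ d) : ∃ η : ℝ, 0 < η ∧ η ≤ 1 ∧ ∃ K : ℕ, 1 ≤ K ∧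
    ∀ P : ℤ[X],
    P.natDegree = d → |P.leadingCoeff| ≤ A → ∀ M N : ℕ, K ≤ M → K ≤ N → ∀ X : ℤ,
      (∀ n : ℕ, n < N + k → 0 ≤ P.eval (n : ℤ) + X) →
      ({c : ℕ | c < M ∧ ∃ w : Fin k → Fin 2, N * ((min M N : ℕ) : ℝ) ^ (-η) <
        |(#{n ∈ range N | ∀ i : Fin k,
          (Nat.digits 2 (P.eval ((n + i : ℕ) : ℤ) + X + c).toNat).sum % 2 = (w i : ℕ)} : ℝ) -
            N / 2 ^ k|}.ncard : ℝ) ≤ M * ((min M N : ℕ) : ℝ) ^ (-η) := by
  classical
  obtain ⟨η₁, C₁, hη₁, hη₁1, hC₁, hsm⟩ := second_moment d k A hd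
  set η := η₁ / 4 with hη
  have hη0 : 0 < η := by positivity
  obtain ⟨K0, hK0⟩ := exists_nat_ge ((2 ^ k * C₁) ^ (1 / η))
  refine ⟨η, hη0, by rw [hη]; linarith, K0 + 1, by omega, ?_⟩
  intro P hdd hA M N hM hN X hX
  set L := min M N with hL
  have hLK : K0 + 1 ≤ L := le_min hM hN
  have hL1 : (1 : ℝ) ≤ L := by
    have : 1 ≤ L := by omega
    exact_mod_cast this
  have hL0 : (0 : ℝ) < L := by linarith
  have hLη : 2 ^ k * C₁ ≤ (L : ℝ) ^ η := by
    have h1 : (2 ^ k * C₁) ^ (1 / η) ≤ L := by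
      refine hK0.trans ?_
      have : K0 ≤ L := by omega
      exact_mod_cast this
    have h2 := Real.rpow_le_rpow (by positivity) h1 hη0.le
    rw [← Real.rpow_mul (by positivity), one_div, inv_mul_cancel₀ hη0.ne', Real.rpow_one] at h2
    exact h2
  have hN0 : (0 : ℝ) < N := by
    have : 0 < N := by omega
    exact_mod_cast this
  set ε : ℝ := (L : ℝ) ^ (-η) with hε
  have hε0 : 0 < ε := by positivity
  set bad : Finset ℕ → Finset ℕ := fun S => (range M).filter fun c =>
    ε * N < |∑ n ∈ range N, ((∏ i ∈ S, chi (uu P X n i + c) : ℤ) : ℝ)| with hbad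
  have hval : ∀ n i c : ℕ, n + i < N + k →
      (P.eval ((n + i : ℕ) : ℤ) + X + c).toNat = uu P X n i + c := by
    intro n i c h
    unfold uu
    have := hX (n + i) h
    omega
  have hsub : {c : ℕ | c < M ∧ ∃ w : Fin k → Fin 2, N * ε <
        |(#{n ∈ range N | ∀ i : Fin k,
          (Nat.digits 2 (P.eval ((n + i : ℕ) : ℤ) + X + c).toNat).sum % 2 = (w i : ℕ)} : ℝ) -
            N / 2 ^ k|} ⊆ (((range k).powerset.erase ∅).biUnion bad : Finset ℕ) := by
    rintro c ⟨hcM, w, hw⟩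
    rw [coe_biUnion, Set.mem_iUnion₂]
    by_contra hcon
    push Not at hcon
    apply absurd hw
    rw [not_lt]
    have h2 := word_count k N (fun n i => uu P X n i + c) w ε hε0.le (by
      intro S hS
      have h3 := hcon S hS
      rw [hbad, mem_coe, mem_filter] at h3
      push Not at h3
      exact h3 (mem_range.2 hcM))
    have h3 : {n ∈ range N | ∀ i : Fin k,
          (Nat.digits 2 (P.eval ((n + i : ℕ) : ℤ) + X + c).toNat).sum % 2 = (w i : ℕ)} =
        {n ∈ range N | ∀ i : Fin k, (Nat.digits 2 (uu P X n i + c)).sum % 2 = (w i : ℕ)} := by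
      apply filter_congr
      intro n hn
      rw [mem_range] at hn
      apply forall_congr'
      intro i
      rw [hval n i c (by have := i.2; omega)]
    rw [h3, mul_comm]
    exact h2
  have hcard : ∀ S ∈ (range k).powerset.erase ∅, ((bad S).card : ℝ) ≤ ε / 2 ^ k * M := by
    intro S hS
    have h2 := hsm P hdd hA S (mem_powerset.1 (mem_of_mem_erase hS))
      (nonempty_iff_ne_empty.2 (ne_of_mem_erase hS)) M N (by omega) (by omega) X hX
    have h3 : ((bad S).card : ℝ) * (ε * N) ^ 2 ≤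
        ∑ c ∈ range M, (∑ n ∈ range N, ((∏ i ∈ S, chi (uu P X n i + c) : ℤ) : ℝ)) ^ 2 := by
      calc ((bad S).card : ℝ) * (ε * N) ^ 2 = ∑ c ∈ bad S, (ε * N) ^ 2 := by
            rw [sum_const, nsmul_eq_mul]
        _ ≤ ∑ c ∈ bad S, (∑ n ∈ range N, ((∏ i ∈ S, chi (uu P X n i + c) : ℤ) : ℝ)) ^ 2 := by
            apply sum_le_sum
            intro c hc
            have h4 := (mem_filter.1 hc).2
            rw [← sq_abs (∑ n ∈ range N, ((∏ i ∈ S, chi (uu P X n i + c) : ℤ) : ℝ))]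
            exact pow_le_pow_left₀ (by positivity) h4.le 2
        _ ≤ _ := by
            apply sum_le_sum_of_subset_of_nonneg (filter_subset _ _)
            intro c _ _
            positivity
    have h5 : ((bad S).card : ℝ) * (ε * N) ^ 2 ≤ C₁ * M * N ^ 2 * (L : ℝ) ^ (-η₁) := h3.trans h2
    have h7 : (L : ℝ) ^ (-η₁) = ε ^ 4 := by
      rw [hε, ← Real.rpow_natCast, ← Real.rpow_mul hL0.le, hη]
      congr 1
      push_cast
      ring
    have h8 : C₁ * ε ≤ 1 / 2 ^ k := by
      rw [hε, Real.rpow_neg hL0.le, ← div_eq_mul_inv, div_le_div_iff₀ (by positivity)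
        (by positivity)]
      linarith
    have h6 : C₁ * M * (N : ℝ) ^ 2 * (L : ℝ) ^ (-η₁) ≤ ε / 2 ^ k * M * (ε * N) ^ 2 := by
      rw [h7]
      calc C₁ * M * (N : ℝ) ^ 2 * ε ^ 4 = (C₁ * ε) * (ε * M * (ε * N) ^ 2) := by ring
        _ ≤ 1 / 2 ^ k * (ε * M * (ε * N) ^ 2) := by
            apply mul_le_mul_of_nonneg_right h8 (by positivity)
        _ = ε / 2 ^ k * M * (ε * N) ^ 2 := by ring
    exact le_of_mul_le_mul_right (h5.trans h6) (by positivity)
  calc _ ≤ ((((range k).powerset.erase ∅).biUnion bad).card : ℝ) := by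
        have h2 := Set.ncard_le_ncard hsub (finite_toSet _)
        rw [Set.ncard_coe_finset] at h2
        exact_mod_cast h2
    _ ≤ ∑ S ∈ (range k).powerset.erase ∅, ((bad S).card : ℝ) := by
        exact_mod_cast card_biUnion_le
    _ ≤ ∑ S ∈ (range k).powerset.erase ∅, ε / 2 ^ k * M := sum_le_sum hcard
    _ ≤ M * ε := by
        rw [sum_const, nsmul_eq_mul]
        have h5 : (((range k).powerset.erase ∅).card : ℝ) ≤ 2 ^ k := by
          have : ((range k).powerset.erase ∅).card ≤ 2 ^ k := by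
            calc ((range k).powerset.erase ∅).card ≤ (range k).powerset.card := card_erase_le
              _ = 2 ^ k := by rw [card_powerset, card_range]
          exact_mod_cast this
        calc (((range k).powerset.erase ∅).card : ℝ) * (ε / 2 ^ k * M) ≤
              2 ^ k * (ε / 2 ^ k * M) := by
              apply mul_le_mul_of_nonneg_right h5 (by positivity)
          _ = M * ε := by
              field_simp

end Pool.Agent.Lib.MP_86b630_nt.Avg81
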