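import Pool.Agent.Lib.MP_86b630_nt.Avg81.Final

set_option autoImplicit false

/-! The maximal version. -/

namespace Pool.Agent.Lib.MP_86b630_nt.Avg81

open Finset Polynomial

/-- The number of `n < N` at which the word `w` starts, for the polynomial `P + X + c`. -/
noncomputable def ct (P : ℤ[X]) (X : ℤ) (c k : ℕ) (w : Fin k → Fin 2) (N : ℕ) : ℕ :=
  #{n ∈ range N | ∀ i : Fin k,
    (Nat.digits 2 (P.eval ((n + i : ℕ) : ℤ) + X + c).toNat).sum % 2 = (w i : ℕ)}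

lemma ct_lip (P : ℤ[X]) (X : ℤ) (c k : ℕ) (w : Fin k → Fin 2) (N N' : ℕ) (h : N ≤ N') :
    |((ct P X c k w N' : ℝ) - N' / 2 ^ k) - ((ct P X c k w N : ℝ) - N / 2 ^ k)| ≤ N' - N := by
  have h1 : ct P X c k w N ≤ ct P X c k w N' := by
    unfold ct
    exact card_le_card (filter_subset_filter _ (range_subset_range.2 h))
  have h2 : ct P X c k w N' ≤ ct P X c k w N + (N' - N) := by
    unfold ct
    calc _ ≤ #({n ∈ range N | ∀ i : Fin k,
          (Nat.digits 2 (P.eval ((n + i : ℕ) : ℤ) + X + c).toNat).sum % 2 = (w i : ℕ)} ∪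
            Ico N N') := by
          apply card_le_card
          intro n hn
          rw [mem_filter, mem_range] at hn
          rw [mem_union, mem_filter, mem_range, mem_Ico]
          by_cases h3 : n < N
          · exact Or.inl ⟨h3, hn.2⟩
          · exact Or.inr ⟨not_lt.1 h3, hn.1⟩
      _ ≤ _ := by
          refine (card_union_le _ _).trans ?_
          rw [Nat.card_Ico]
  have h1r : (ct P X c k w N : ℝ) ≤ ct P X c k w N' := by exact_mod_cast h1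
  have h2r : (ct P X c k w N' : ℝ) ≤ ct P X c k w N + (N' - N) := by
    have : (ct P X c k w N' : ℝ) ≤ ct P X c k w N + ((N' - N : ℕ) : ℝ) := by exact_mod_cast h2
    rwa [Nat.cast_sub h] at this
  have hN : (N : ℝ) ≤ N' := by exact_mod_cast h
  have h3 : ((N' : ℝ) - N) / 2 ^ k ≤ N' - N := by
    apply div_le_self (by linarith)
    exact one_le_pow₀ (by norm_num)
  have h4 : 0 ≤ ((N' : ℝ) - N) / 2 ^ k := div_nonneg (by linarith) (by positivity)
  have h5 : ((N' : ℝ) - N) / 2 ^ k = N' / 2 ^ k - N / 2 ^ k := by ring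
  rw [abs_le]
  constructor <;> linarith

theorem maximal (d k A : ℕ) (hd : 2 ≤ d) : ∃ η : ℝ, 0 < η ∧ ∃ K : ℕ, 1 ≤ K ∧ ∀ P : ℤ[X],
    P.natDegree = d → |P.leadingCoeff| ≤ A → ∀ X : ℤ, (∀ n : ℕ, 0 ≤ P.eval (n : ℤ) + X) →
      ∀ M N₀ : ℕ, K ≤ M → M ≤ N₀ →
      ({c : ℕ | c < M ∧ ∃ N : ℕ, N₀ ≤ N ∧ (N : ℝ) ≤ N₀ * Real.exp ((M : ℝ) ^ η) ∧
        ∃ w : Fin k → Fin 2, N * (M : ℝ) ^ (-η) <
          |(ct P X c k w N : ℝ) - N / 2 ^ k|}.ncard : ℝ) ≤ (M : ℝ) ^ (1 - η) := by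
  classical
  obtain ⟨η₀, hη₀, hη₀1, K0, hK0, hmain⟩ := main d k A hd
  set η := η₀ / 8 with hη
  have hη0 : 0 < η := by positivity
  have h8 : η₀ = 8 * η := by rw [hη]; ring
  obtain ⟨K1, hK1⟩ := exists_nat_ge ((4 : ℝ) ^ (1 / η))
  refine ⟨η, hη0, K0 + K1, by omega, ?_⟩
  intro P hdd hA X hX M N₀ hKM hMN
  have hM1 : (1 : ℝ) ≤ M := by
    have : 1 ≤ M := by omega
    exact_mod_cast this
  have hM0 : (0 : ℝ) < M := by linarith
  have h4 : (4 : ℝ) ≤ (M : ℝ) ^ η := by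
    have h1 : (4 : ℝ) ^ (1 / η) ≤ M := by
      refine hK1.trans ?_
      have : K1 ≤ M := by omega
      exact_mod_cast this
    have h2 := Real.rpow_le_rpow (by positivity) h1 hη0.le
    rw [← Real.rpow_mul (by positivity), one_div, inv_mul_cancel₀ hη0.ne', Real.rpow_one] at h2
    exact h2
  have hMN' : (M : ℝ) ≤ N₀ := by exact_mod_cast hMN
  have hN₀ : (0 : ℝ) < N₀ := hM0.trans_le hMN'
  set ε : ℝ := (M : ℝ) ^ (-(2 * η)) with hε
  have hε0 : 0 < ε := by positivity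
  have hε1 : ε ≤ 1 := Real.rpow_le_one_of_one_le_of_nonpos hM1 (by linarith)
  set q := Real.log (1 + ε) with hq
  have hq1 : ε / 2 ≤ q := by
    have h1 := Real.one_sub_inv_le_log_of_pos (show 0 < 1 + ε by linarith)
    have h2 : ε / 2 ≤ 1 - (1 + ε)⁻¹ := by
      rw [show 1 - (1 + ε)⁻¹ = ε / (1 + ε) by field_simp; ring]
      apply div_le_div_of_nonneg_left hε0.le (by linarith) (by linarith)
    linarith
  have hq0 : 0 < q := by linarith
  set a : ℕ → ℕ := fun j => ⌊(N₀ : ℝ) * (1 + ε) ^ j⌋₊ with ha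
  have haN : ∀ j, N₀ ≤ a j := by
    intro j
    apply Nat.le_floor
    have : (1 : ℝ) ≤ (1 + ε) ^ j := one_le_pow₀ (by linarith)
    nlinarith
  set J := ⌊(M : ℝ) ^ η / q⌋₊ with hJ
  set Bf : ℕ → Finset ℕ := fun j => (range M).filter fun c => ∃ w : Fin k → Fin 2,
    (a j : ℝ) * (M : ℝ) ^ (-η₀) < |(ct P X c k w (a j) : ℝ) - (a j : ℕ) / 2 ^ k| with hBf
  have hBc : ∀ j, ((Bf j).card : ℝ) ≤ M * (M : ℝ) ^ (-η₀) := by
    intro j
    have h1 := hmain P hdd hA M (a j) (by omega) (by have := haN j; omega) X (fun n _ => hX n)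
    rw [min_eq_left (hMN.trans (haN j))] at h1
    have h2 : {c : ℕ | c < M ∧ ∃ w : Fin k → Fin 2, (a j : ℝ) * (M : ℝ) ^ (-η₀) <
        |(#{n ∈ range (a j) | ∀ i : Fin k,
          (Nat.digits 2 (P.eval ((n + i : ℕ) : ℤ) + X + c).toNat).sum % 2 = (w i : ℕ)} : ℝ) -
            (a j : ℕ) / 2 ^ k|} = (Bf j : Set ℕ) := by
      ext c
      rw [hBf, Set.mem_ofPred_eq, mem_coe, mem_filter, mem_range]
      rfl
    rw [h2, Set.ncard_coe_finset] at h1
    exact h1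
  have hsub : {c : ℕ | c < M ∧ ∃ N : ℕ, N₀ ≤ N ∧ (N : ℝ) ≤ N₀ * Real.exp ((M : ℝ) ^ η) ∧
        ∃ w : Fin k → Fin 2, N * (M : ℝ) ^ (-η) <
          |(ct P X c k w N : ℝ) - N / 2 ^ k|} ⊆ ((range (J + 1)).biUnion Bf : Finset ℕ) := by
    rintro c ⟨hcM, N, hN1, hN2, w, hw⟩
    rw [coe_biUnion, Set.mem_iUnion₂]
    have hN1r : (N₀ : ℝ) ≤ N := by exact_mod_cast hN1
    have hN0 : (0 : ℝ) < N := hN₀.trans_le hN1r
    set x := Real.log (N / N₀) with hx
    have hx0 : 0 ≤ x := Real.log_nonneg (by rw [le_div_iff₀ hN₀]; linarith)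
    have hxM : x ≤ (M : ℝ) ^ η := by
      rw [hx, Real.log_le_iff_le_exp (by positivity), div_le_iff₀ hN₀, mul_comm]
      exact hN2
    set j := ⌊x / q⌋₊ with hj
    have hjJ : j ≤ J := by
      apply Nat.floor_le_floor
      exact div_le_div_of_nonneg_right hxM hq0.le
    have hj1 : (j : ℝ) * q ≤ x := by
      have := Nat.floor_le (show 0 ≤ x / q by positivity)
      rw [← le_div_iff₀ hq0]
      exact this
    have hj2 : x < ((j + 1 : ℕ) : ℝ) * q := by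
      have := Nat.lt_floor_add_one (x / q)
      rw [← div_lt_iff₀ hq0]
      push_cast
      exact this
    have hexp : ∀ i : ℕ, (1 + ε) ^ i = Real.exp (i * q) := by
      intro i
      rw [Real.exp_nat_mul, hq, Real.exp_log (by linarith)]
    have hexpx : Real.exp x = N / N₀ := Real.exp_log (by positivity)
    have h1 : (N₀ : ℝ) * (1 + ε) ^ j ≤ N := by
      have h2 := Real.exp_le_exp.2 hj1
      rw [hexpx, ← hexp, le_div_iff₀ hN₀] at h2
      linarith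
    have h2 : (N : ℝ) < N₀ * (1 + ε) ^ (j + 1) := by
      have h3 := Real.exp_lt_exp.2 hj2
      rw [hexpx, ← hexp, div_lt_iff₀ hN₀] at h3
      linarith
    have haj : (a j : ℝ) ≤ N₀ * (1 + ε) ^ j := Nat.floor_le (by positivity)
    have hajN : a j ≤ N := by exact_mod_cast haj.trans h1
    have hajNr : (a j : ℝ) ≤ N := by exact_mod_cast hajN
    have haj2 : (N₀ : ℝ) * (1 + ε) ^ j < a j + 1 := Nat.lt_floor_add_one _
    have hεN : 1 ≤ ε * N := by
      have h3 : ε * M ≤ ε * N := mul_le_mul_of_nonneg_left (hMN'.trans hN1r) hε0.le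
      have h4 : ε * M = (M : ℝ) ^ (1 - 2 * η) := by
        rw [hε, sub_eq_add_neg, Real.rpow_add hM0, Real.rpow_one, mul_comm]
      have h5 : (1 : ℝ) ≤ (M : ℝ) ^ (1 - 2 * η) :=
        Real.one_le_rpow hM1 (by rw [hη]; linarith)
      linarith
    have hdiff : (N : ℝ) - a j ≤ 3 * (ε * N) := by
      have h3 : (N : ℝ) < (a j + 1) * (1 + ε) := by
        rw [pow_succ, ← mul_assoc] at h2
        have := mul_lt_mul_of_pos_right haj2 (show (0 : ℝ) < 1 + ε by linarith)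
        linarith
      have h4 : ε * (a j : ℝ) ≤ ε * N := mul_le_mul_of_nonneg_left hajNr hε0.le
      nlinarith
    refine ⟨j, by rw [mem_coe, mem_range]; omega, ?_⟩
    rw [hBf, mem_coe, mem_filter, mem_range]
    refine ⟨hcM, w, ?_⟩
    by_contra hcon
    rw [not_lt] at hcon
    apply absurd hw
    rw [not_lt]
    have h3 := ct_lip P X c k w (a j) N hajN
    have h5 : |(ct P X c k w N : ℝ) - N / 2 ^ k| ≤
        |(ct P X c k w (a j) : ℝ) - (a j : ℕ) / 2 ^ k| + (N - a j) := by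
      have := abs_add_le (((ct P X c k w N : ℝ) - N / 2 ^ k) -
        ((ct P X c k w (a j) : ℝ) - (a j : ℕ) / 2 ^ k))
        ((ct P X c k w (a j) : ℝ) - (a j : ℕ) / 2 ^ k)
      rw [sub_add_cancel] at this
      linarith
    have h6 : (a j : ℝ) * (M : ℝ) ^ (-η₀) ≤ N * ε := by
      apply mul_le_mul hajNr _ (by positivity) (by positivity)
      exact Real.rpow_le_rpow_of_exponent_le hM1 (by rw [h8]; linarith)
    have h7 : ε = (M : ℝ) ^ (-η) * (M : ℝ) ^ (-η) := by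
      rw [hε, ← Real.rpow_add hM0]
      congr 1
      ring
    have h9 : 4 * ε ≤ (M : ℝ) ^ (-η) := by
      have h10 : 4 * (M : ℝ) ^ (-η) ≤ 1 := by
        rw [Real.rpow_neg hM0.le, ← div_eq_mul_inv, div_le_one (by positivity)]
        exact h4
      have h11 : (0 : ℝ) < (M : ℝ) ^ (-η) := by positivity
      rw [h7]
      nlinarith
    calc |(ct P X c k w N : ℝ) - N / 2 ^ k| ≤ N * ε + 3 * (ε * N) := by linarith
      _ = N * (4 * ε) := by ring
      _ ≤ N * (M : ℝ) ^ (-η) := mul_le_mul_of_nonneg_left h9 hN0.le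
  have hJ1 : ((J + 1 : ℕ) : ℝ) ≤ 3 * (M : ℝ) ^ (3 * η) := by
    have h1 : (J : ℝ) ≤ (M : ℝ) ^ η / q := Nat.floor_le (by positivity)
    have h2 : (M : ℝ) ^ η / q ≤ (M : ℝ) ^ η / (ε / 2) :=
      div_le_div_of_nonneg_left (by positivity) (by positivity) hq1
    have h3 : (M : ℝ) ^ η / (ε / 2) = 2 * (M : ℝ) ^ (3 * η) := by
      rw [hε, Real.rpow_neg hM0.le, show 3 * η = η + 2 * η by ring, Real.rpow_add hM0]
      field_simp
    have h5 : (1 : ℝ) ≤ (M : ℝ) ^ (3 * η) := Real.one_le_rpow hM1 (by positivity)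
    push_cast
    linarith
  calc _ ≤ (((range (J + 1)).biUnion Bf).card : ℝ) := by
        have h2 := Set.ncard_le_ncard hsub (finite_toSet _)
        rw [Set.ncard_coe_finset] at h2
        exact_mod_cast h2
    _ ≤ ∑ j ∈ range (J + 1), ((Bf j).card : ℝ) := by
        exact_mod_cast card_biUnion_le
    _ ≤ ∑ j ∈ range (J + 1), M * (M : ℝ) ^ (-η₀) := sum_le_sum fun j _ => hBc j
    _ = ((J + 1 : ℕ) : ℝ) * (M * (M : ℝ) ^ (-η₀)) := by
        rw [sum_const, card_range, nsmul_eq_mul]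
    _ ≤ 3 * (M : ℝ) ^ (3 * η) * (M * (M : ℝ) ^ (-η₀)) := by
        apply mul_le_mul_of_nonneg_right hJ1 (by positivity)
    _ ≤ (M : ℝ) ^ η * (M : ℝ) ^ (3 * η) * ((M : ℝ) ^ (1 : ℝ) * (M : ℝ) ^ (-η₀)) := by
        rw [Real.rpow_one]
        apply mul_le_mul_of_nonneg_right _ (by positivity)
        apply mul_le_mul_of_nonneg_right _ (by positivity)
        linarith
    _ = (M : ℝ) ^ (η + 3 * η + (1 + (-η₀))) := by
        rw [← Real.rpow_add hM0, ← Real.rpow_add hM0, ← Real.rpow_add hM0]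
    _ ≤ (M : ℝ) ^ (1 - η) := by
        apply Real.rpow_le_rpow_of_exponent_le hM1
        rw [h8]
        linarith

/-- For most constants the frequencies are right for infinitely many lengths. -/
theorem often (M k : ℕ) (P : ℤ[X]) (X : ℤ) (η : ℝ)
    (h : ∀ N₀ : ℕ, M ≤ N₀ →
      ({c : ℕ | c < M ∧ ∃ N : ℕ, N₀ ≤ N ∧ (N : ℝ) ≤ N₀ * Real.exp ((M : ℝ) ^ η) ∧
        ∃ w : Fin k → Fin 2, N * (M : ℝ) ^ (-η) <
          |(ct P X c k w N : ℝ) - N / 2 ^ k|}.ncard : ℝ) ≤ (M : ℝ) ^ (1 - η)) :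
    ({c : ℕ | c < M ∧ ∃ N₁ : ℕ, ∀ N₀ : ℕ, N₁ ≤ N₀ →
      ∃ N : ℕ, N₀ ≤ N ∧ (N : ℝ) ≤ N₀ * Real.exp ((M : ℝ) ^ η) ∧
        ∃ w : Fin k → Fin 2, N * (M : ℝ) ^ (-η) <
          |(ct P X c k w N : ℝ) - N / 2 ^ k|}.ncard : ℝ) ≤ (M : ℝ) ^ (1 - η) := by
  classical
  set Bd : Set ℕ := {c : ℕ | c < M ∧ ∃ N₁ : ℕ, ∀ N₀ : ℕ, N₁ ≤ N₀ →
      ∃ N : ℕ, N₀ ≤ N ∧ (N : ℝ) ≤ N₀ * Real.exp ((M : ℝ) ^ η) ∧
        ∃ w : Fin k → Fin 2, N * (M : ℝ) ^ (-η) <
          |(ct P X c k w N : ℝ) - N / 2 ^ k|} with hBd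
  have h1 : ∀ c ∈ Bd, ∃ N₁ : ℕ, ∀ N₀ : ℕ, N₁ ≤ N₀ →
      ∃ N : ℕ, N₀ ≤ N ∧ (N : ℝ) ≤ N₀ * Real.exp ((M : ℝ) ^ η) ∧
        ∃ w : Fin k → Fin 2, N * (M : ℝ) ^ (-η) <
          |(ct P X c k w N : ℝ) - N / 2 ^ k| := fun c hc => hc.2
  choose! f hf using h1
  refine le_trans ?_ (h (M + (range M).sup f) (by omega))
  have h2 : Bd.ncard ≤ {c : ℕ | c < M ∧ ∃ N : ℕ, M + (range M).sup f ≤ N ∧
      (N : ℝ) ≤ (M + (range M).sup f : ℕ) * Real.exp ((M : ℝ) ^ η) ∧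
        ∃ w : Fin k → Fin 2, N * (M : ℝ) ^ (-η) <
          |(ct P X c k w N : ℝ) - N / 2 ^ k|}.ncard := by
    apply Set.ncard_le_ncard
    · intro c hc
      refine ⟨hc.1, hf c hc _ ?_⟩
      have := le_sup (f := f) (mem_range.2 hc.1)
      omega
    · exact (Set.finite_lt_nat M).subset fun c hc => hc.1
  exact_mod_cast h2

end Pool.Agent.Lib.MP_86b630_nt.Avg81
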