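import Pool.Agent.Lib.MP_86b630_nt.Avg81.Pattern

set_option autoImplicit false

/-! Many digit windows for most pairs. -/

namespace Pool.Agent.Lib.MP_86b630_nt.Avg81

open Finset Polynomial

/-- The vector of a pair. -/
noncomputable def VV (d : ℕ) (P : ℤ[X]) (X : ℤ) (w : ℕ × ℕ) : Fin d ⊕ Fin d → ℤ :=
  Sum.elim (Dv d P X (w.1 : ℤ)) (Dv d P X (w.2 : ℤ))

lemma single_sum (P : ℤ[X]) (d : ℕ) (hd : P.natDegree = d) (X : ℤ) (ζ : Fin d → ℤ) (J m : ℕ) :
    ‖∑ n ∈ range (2 ^ m), E (((∑ l, ζ l * Dv d P X (n : ℤ) l : ℤ) : ℝ) / 2 ^ J)‖ =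
      ‖∑ n ∈ range (2 ^ m), E (((∑ l, C (ζ l) * hasseDeriv (l : ℕ) P).eval (n : ℤ) : ℤ) /
        2 ^ J)‖ := by
  have h1 : ∀ n ∈ range (2 ^ m), E (((∑ l, ζ l * Dv d P X (n : ℤ) l : ℤ) : ℝ) / 2 ^ J) =
      E (((∑ l, C (ζ l) * hasseDeriv (l : ℕ) P).eval (n : ℤ) : ℤ) / 2 ^ J) *
        E (((∑ l : Fin d, ζ l * (if (l : ℕ) = 0 then X else 0) : ℤ) : ℝ) / 2 ^ J) := by
    intro n _
    rw [← E_add, ← add_div]
    congr 2
    rw [← Int.cast_add]
    congr 1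
    rw [eval_finsetSum, ← sum_add_distrib]
    apply sum_congr rfl
    intro l _
    rw [eval_mul, eval_C]
    unfold Dv
    ring
  rw [sum_congr rfl h1, ← sum_mul, norm_mul, E_norm, mul_one]

lemma single_bound (P : ℤ[X]) (d : ℕ) (hd : P.natDegree = d) (hd2 : 2 ≤ d) (H v A : ℕ)
    (hA : |P.leadingCoeff| ≤ A) (hv : d * H * 2 ^ d * A < 2 ^ v) (X : ℤ) (ζ h : Fin d → ℤ)
    (h0 : h ≠ 0) (hH : ∀ l, |h l| ≤ H) (hdv : ∀ l, (2 : ℤ) ^ v ∣ ζ l - h l) (J m : ℕ)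
    (hJm : J ≤ m) :
    ‖∑ n ∈ range (2 ^ m), E (((∑ l, ζ l * Dv d P X (n : ℤ) l : ℤ) : ℝ) / 2 ^ J)‖ ≤
      ((d - 1 : ℕ) : ℝ) * 2 ^ m / 2 ^ ((J / 2 - v) / (d - 1)) := by
  rw [single_sum P d hd X ζ J m]
  apply complete _ (d - 1) (by omega) _ v
    (not_dvd P d hd (by omega) H v A hA hv ζ h h0 hH hdv) J m hJm
  refine (natDegree_derivative_le _).trans ?_
  apply Nat.sub_le_sub_right
  apply natDegree_sum_le_of_forall_le
  intro l _
  refine (natDegree_C_mul_le _ _).trans ?_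
  refine (natDegree_hasseDeriv_le _ _).trans ?_
  omega

lemma single_triv (d : ℕ) (P : ℤ[X]) (X : ℤ) (ζ : Fin d → ℤ) (J m : ℕ) :
    ‖∑ n ∈ range (2 ^ m), E (((∑ l, ζ l * Dv d P X (n : ℤ) l : ℤ) : ℝ) / 2 ^ J)‖ ≤ 2 ^ m := by
  calc ‖∑ n ∈ range (2 ^ m), E (((∑ l, ζ l * Dv d P X (n : ℤ) l : ℤ) : ℝ) / 2 ^ J)‖ ≤
        ∑ n ∈ range (2 ^ m), ‖E (((∑ l, ζ l * Dv d P X (n : ℤ) l : ℤ) : ℝ) / 2 ^ J)‖ :=
        norm_sum_le _ _
    _ = 2 ^ m := by simp [E_norm]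

lemma pair_bound (P : ℤ[X]) (d : ℕ) (hd : P.natDegree = d) (hd2 : 2 ≤ d) (H v A : ℕ)
    (hA : |P.leadingCoeff| ≤ A) (hv : d * H * 2 ^ d * A < 2 ^ v) (X : ℤ) (J m : ℕ) (hJm : J ≤ m)
    (ζ : Fin d ⊕ Fin d → ℤ) (hζ : Good H v ζ) :
    ‖∑ w ∈ range (2 ^ m) ×ˢ range (2 ^ m),
      E (((∑ l, ζ l * VV d P X w l : ℤ) : ℝ) / 2 ^ J)‖ ≤
      ((d - 1 : ℕ) : ℝ) * 2 ^ m / 2 ^ ((J / 2 - v) / (d - 1)) * 2 ^ m := by
  have h1 : ∑ w ∈ range (2 ^ m) ×ˢ range (2 ^ m),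
      E (((∑ l, ζ l * VV d P X w l : ℤ) : ℝ) / 2 ^ J) =
      (∑ n ∈ range (2 ^ m), E (((∑ l, ζ (Sum.inl l) * Dv d P X (n : ℤ) l : ℤ) : ℝ) / 2 ^ J)) *
      (∑ n ∈ range (2 ^ m), E (((∑ l, ζ (Sum.inr l) * Dv d P X (n : ℤ) l : ℤ) : ℝ) / 2 ^ J)) := by
    rw [sum_mul_sum, sum_product]
    apply sum_congr rfl
    intro n _
    apply sum_congr rfl
    intro n' _
    rw [← E_add, ← add_div, ← Int.cast_add, Fintype.sum_sum_type]
    rfl
  rw [h1, norm_mul]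
  obtain ⟨h, hh, hne, hdv⟩ := hζ
  have hH : ∀ l, |h l| ≤ H := by
    intro l
    unfold Fr at hh
    rw [Fintype.mem_piFinset] at hh
    have := mem_Icc.1 (hh l)
    exact abs_le.2 this
  have hpos : (0 : ℝ) ≤ ((d - 1 : ℕ) : ℝ) * 2 ^ m / 2 ^ ((J / 2 - v) / (d - 1)) := by positivity
  by_cases hl : (fun l => h (Sum.inl l)) = 0
  · have hr : (fun l => h (Sum.inr l)) ≠ 0 := by
      intro hr
      apply hne
      funext x
      rcases x with x | x
      · exact congrFun hl x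
      · exact congrFun hr x
    have h2 := single_bound P d hd hd2 H v A hA hv X (fun l => ζ (Sum.inr l))
      (fun l => h (Sum.inr l)) hr (fun l => hH _) (fun l => hdv _) J m hJm
    have h3 := single_triv d P X (fun l => ζ (Sum.inl l)) J m
    calc _ ≤ 2 ^ m * (((d - 1 : ℕ) : ℝ) * 2 ^ m / 2 ^ ((J / 2 - v) / (d - 1))) :=
          mul_le_mul h3 h2 (norm_nonneg _) (by positivity)
      _ = _ := by ring
  · have h2 := single_bound P d hd hd2 H v A hA hv X (fun l => ζ (Sum.inl l))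
      (fun l => h (Sum.inl l)) hl (fun l => hH _) (fun l => hdv _) J m hJm
    have h3 := single_triv d P X (fun l => ζ (Sum.inr l)) J m
    exact mul_le_mul h2 h3 (norm_nonneg _) hpos

/-- The digit windows at `j` of `P(n + i) + X`, `i < k`, are `α + β i`. -/
def Wd (P : ℤ[X]) (X : ℤ) (b k α β j : ℕ) (n : ℤ) : Prop :=
  ∀ i : ℕ, i < k → ((P.eval (n + i) + X) / 2 ^ j) % 2 ^ b = ((α + β * i : ℕ) : ℤ)

lemma Wd_periodic (P : ℤ[X]) (X : ℤ) (b k α β j m : ℕ) (hm : j + b ≤ m) (n v : ℤ) :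
    Wd P X b k α β j (n + 2 ^ m * v) ↔ Wd P X b k α β j n := by
  have key : ∀ i : ℕ, ((P.eval (n + 2 ^ m * v + i) + X) / 2 ^ j) % 2 ^ b =
      ((P.eval (n + i) + X) / 2 ^ j) % 2 ^ b := by
    intro i
    obtain ⟨w, hw⟩ := sub_dvd_eval_sub (n + 2 ^ m * v + i) (n + i) P
    obtain ⟨f, hf⟩ := Nat.exists_eq_add_of_le hm
    have h1 : P.eval (n + 2 ^ m * v + i) + X =
        (P.eval (n + i) + X) + 2 ^ j * (2 ^ b * (2 ^ f * v * w)) := by
      have h2 : P.eval (n + 2 ^ m * v + i) = P.eval (n + i) + (2 ^ m * v) * w := by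
        rw [show n + 2 ^ m * v + (i : ℤ) - (n + i) = 2 ^ m * v by ring] at hw
        linarith
      rw [h2, hf, pow_add, pow_add]
      ring
    rw [h1, Int.add_mul_ediv_left _ _ (by positivity), Int.add_mul_emod_self_left]
  constructor
  · intro h i hi
    rw [← key i]
    exact h i hi
  · intro h i hi
    rw [key i]
    exact h i hi

open Classical in
/-- The number of good windows of a pair. -/
noncomputable def cnt (P : ℤ[X]) (X : ℤ) (b k α β : ℕ) (l : List ℕ) (n n' : ℤ) : ℕ :=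
  (l.filter fun j => Wd P X b k α β j n ∧ Wd P X b k 0 0 j n').length

lemma cnt_periodic (P : ℤ[X]) (X : ℤ) (b k α β : ℕ) (l : List ℕ) (m : ℕ)
    (hl : ∀ a ∈ l, a + b ≤ m) (n n' v v' : ℤ) :
    cnt P X b k α β l (n + 2 ^ m * v) (n' + 2 ^ m * v') = cnt P X b k α β l n n' := by
  classical
  unfold cnt
  congr 1
  apply List.filter_congr
  intro j hj
  rw [Wd_periodic P X b k α β j m (hl j hj), Wd_periodic P X b k 0 0 j m (hl j hj)]

/-- The positions of the windows. -/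
def lst (g b : ℕ) : ℕ → List ℕ
  | 0 => []
  | T + 1 => (g * (T + 1) - b) :: lst g b T

lemma lst_le (g b : ℕ) (hbg : b ≤ g) : ∀ T, ∀ a ∈ lst g b T, a + b ≤ g * T := by
  intro T
  induction T with
  | zero => intro a ha; simp [lst] at ha
  | succ T ih =>
    intro a ha
    unfold lst at ha
    rw [List.mem_cons] at ha
    rw [mul_add, mul_one]
    rcases ha with rfl | ha
    · rw [mul_add, mul_one]
      omega
    · have := ih a ha
      omega

lemma lst_pairwise (g b : ℕ) (hbg : b ≤ g) : ∀ T, (lst g b T).Pairwise fun a c => c + b ≤ a := by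
  intro T
  induction T with
  | zero => exact List.Pairwise.nil
  | succ T ih =>
    unfold lst
    rw [List.pairwise_cons]
    refine ⟨fun c hc => ?_, ih⟩
    have := lst_le g b hbg T c hc
    rw [mul_add, mul_one]
    omega

lemma positions (d k A b : ℕ) (hd2 : 2 ≤ d) (ρ : ℝ) (hρ0 : 0 ≤ ρ) (hρ1 : ρ < 1) :
    ∃ g : ℕ, 1 ≤ g ∧ b ≤ g ∧ ∃ C θ : ℝ, 0 ≤ C ∧ 0 < θ ∧ θ < 1 ∧ ∀ P : ℤ[X], P.natDegree = d →
      |P.leadingCoeff| ≤ A → ∀ (X : ℤ) (α β : ℕ), (∀ i, i < k → α + β * i < 2 ^ b) →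
      ∀ T m : ℕ, g * T ≤ m →
        ∑ n ∈ range (2 ^ m), ∑ n' ∈ range (2 ^ m), ρ ^ cnt P X b k α β (lst g b T) n n' ≤
          θ ^ T * (2 ^ m) ^ 2 * C := by
  classical
  set c : ℝ := 4 * (dl d b k) ^ 2 with hc
  have hc0 : 0 < c := by
    have := dl_pos d b k
    positivity
  obtain ⟨H, Λ, θ, hΛ, hθ0, hθ1, htrig⟩ := trig_min (ι := Fin d ⊕ Fin d) c ρ hc0 hρ0 hρ1
  obtain ⟨v, hv⟩ : ∃ v : ℕ, d * H * 2 ^ d * A < 2 ^ v := ⟨_, Nat.lt_two_pow_self⟩
  obtain ⟨g1, hg1⟩ : ∃ g1 : ℕ, 2 * Λ / θ < 2 ^ g1 := pow_unbounded_of_one_lt _ (by norm_num)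
  obtain ⟨g2, hg2⟩ : ∃ g2 : ℕ, 8 * 2 ^ b * (A * (k + 1) ^ d) ≤ 2 ^ g2 :=
    ⟨_, Nat.lt_two_pow_self.le⟩
  set D := d - 1 with hD
  have hD1 : 1 ≤ D := by omega
  set g' := g1 + g2 + v + b + 1 with hg'
  set g := 2 * D * g' with hg
  have hgg' : g' ≤ g := by
    rw [hg]
    calc g' = 1 * g' := (one_mul _).symm
      _ ≤ 2 * D * g' := Nat.mul_le_mul_right _ (by omega)
  set C : ℝ := D * 2 ^ v with hC
  have hC0 : 0 ≤ C := by positivity
  refine ⟨g, by omega, by omega, 1 + C, θ, by positivity, hθ0, hθ1, ?_⟩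
  intro P hdd hA X α β hαβ T m hTm
  obtain ⟨a, ψ, a0, ha0, haθ, haΛ, hψ, hψρ⟩ := htrig (Sum.elim (yy d b α β) (yy d b 0 0))
  set Ω : Finset (ℕ × ℕ) := range (2 ^ m) ×ˢ range (2 ^ m) with hΩ
  have hψ0 : ∀ x, 0 ≤ ψ x := by
    intro x
    refine le_trans ?_ (hψρ x)
    split_ifs
    · exact hρ0
    · norm_num
  have hΩc : (Ω.card : ℝ) = (2 ^ m) ^ 2 := by
    rw [hΩ, card_product, card_range]
    push_cast
    ring
  have hdec := decay H g v m Λ θ a0 C hΛ.le hθ0 hC0 (by omega) a ψ hψ hψ0 ha0 haθ haΛ Ω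
    (VV d P X) (fun J => (D : ℝ) * 2 ^ m / 2 ^ ((J / 2 - v) / D) * 2 ^ m)
    (fun J hJ ζ hζ => pair_bound P d hdd hd2 H v A hA hv X J m hJ ζ hζ)
    (fun J => by positivity) (by
      intro T
      rw [hΩc]
      have h1 : g * T / 2 = D * (g' * T) := by
        rw [hg, show 2 * D * g' * T = 2 * (D * (g' * T)) by ring]
        exact Nat.mul_div_cancel_left _ (by norm_num)
      simp only [h1]
      have h2 : g' * T ≤ (D * (g' * T) - v) / D + v := by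
        have h3 : D * (g' * T - v) ≤ D * (g' * T) - v := by
          rw [Nat.mul_sub]
          apply Nat.sub_le_sub_left
          calc v = 1 * v := (one_mul _).symm
            _ ≤ D * v := Nat.mul_le_mul_right _ hD1
        have h4 : g' * T - v ≤ (D * (g' * T) - v) / D :=
          (Nat.le_div_iff_mul_le (by omega)).2 (by rw [mul_comm]; exact h3)
        omega
      set f := (D * (g' * T) - v) / D with hf
      have h3 : (2 : ℝ) ^ (g' * T) ≤ 2 ^ f * 2 ^ v := by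
        rw [← pow_add]
        exact pow_le_pow_right₀ (by norm_num) h2
      have h4 : (2 * Λ / θ) ^ T ≤ 2 ^ (g' * T) := by
        rw [pow_mul]
        apply pow_le_pow_left₀ (by positivity)
        refine hg1.le.trans ?_
        exact pow_le_pow_right₀ (by norm_num) (by omega)
      have h5 : Λ ^ T = (θ / 2) ^ T * (2 * Λ / θ) ^ T := by
        rw [← mul_pow]
        congr 1
        field_simp
      rw [h5, hC]
      have h6 : (2 * Λ / θ) ^ T ≤ 2 ^ f * 2 ^ v := h4.trans h3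
      have h7 : (0 : ℝ) < 2 ^ f := by positivity
      calc (θ / 2) ^ T * (2 * Λ / θ) ^ T * ((D : ℝ) * 2 ^ m / 2 ^ f * 2 ^ m) ≤
            (θ / 2) ^ T * (2 ^ f * 2 ^ v) * ((D : ℝ) * 2 ^ m / 2 ^ f * 2 ^ m) := by
            gcongr
        _ = D * 2 ^ v * (θ / 2) ^ T * (2 ^ m) ^ 2 := by
            field_simp) T hTm
  -- compare with the count
  have hcmp : ∀ T, ∀ w : ℕ × ℕ,
      ρ ^ cnt P X b k α β (lst g b T) (w.1 : ℤ) (w.2 : ℤ) ≤ Psi ψ (VV d P X) g T w := by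
    intro T w
    induction T with
    | zero => simp [lst, cnt, Psi]
    | succ T ih =>
      have h2 : ρ ^ cnt P X b k α β (lst g b (T + 1)) (w.1 : ℤ) (w.2 : ℤ) =
          ρ ^ cnt P X b k α β (lst g b T) (w.1 : ℤ) (w.2 : ℤ) *
            (if Wd P X b k α β (g * (T + 1) - b) (w.1 : ℤ) ∧
            Wd P X b k 0 0 (g * (T + 1) - b) (w.2 : ℤ) then ρ else 1) := by
        unfold cnt
        rw [lst, List.filter_cons]
        by_cases h : Wd P X b k α β (g * (T + 1) - b) (w.1 : ℤ) ∧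
            Wd P X b k 0 0 (g * (T + 1) - b) (w.2 : ℤ)
        · simp only [h, and_self, decide_true, if_true]
          rw [List.length_cons, pow_succ]
        · simp only [h, decide_false, if_false]
          simp
      rw [h2]
      have hgT : g' ≤ g * (T + 1) := by
        calc g' ≤ g * 1 := by rw [mul_one]; exact hgg'
          _ ≤ g * (T + 1) := Nat.mul_le_mul_left _ (by omega)
      have hJ2 : 8 * 2 ^ b * (A * (k + 1) ^ d) ≤ 2 ^ (g * (T + 1)) :=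
        hg2.trans (Nat.pow_le_pow_right (by norm_num) (by omega))
      have h3 : (if Wd P X b k α β (g * (T + 1) - b) (w.1 : ℤ) ∧
            Wd P X b k 0 0 (g * (T + 1) - b) (w.2 : ℤ) then ρ else 1) ≤
          ψ (fun l => (VV d P X w l : ℝ) / 2 ^ (g * (T + 1))) := by
        refine le_trans ?_ (hψρ _)
        by_cases hb : ∀ l : Fin d ⊕ Fin d, 1 - c ≤ Real.cos (Real.pi *
            ((VV d P X w l : ℝ) / 2 ^ (g * (T + 1)) -
              (Sum.elim (yy d b α β) (yy d b 0 0) : Fin d ⊕ Fin d → ℝ) l)) ^ 2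
        · have hW1 : Wd P X b k α β (g * (T + 1) - b) (w.1 : ℤ) := by
            intro i hi
            exact pattern P d hdd hd2 b k A hA (g * (T + 1)) (by omega) hJ2 _ X α β
              (fun l => hb (Sum.inl l)) i hi (hαβ i hi)
          have hW2 : Wd P X b k 0 0 (g * (T + 1) - b) (w.2 : ℤ) := by
            intro i hi
            exact pattern P d hdd hd2 b k A hA (g * (T + 1)) (by omega) hJ2 _ X 0 0
              (fun l => hb (Sum.inr l)) i hi (by simp)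
          rw [if_pos ⟨hW1, hW2⟩, if_pos hb]
        · rw [if_neg hb]
          split_ifs
          · exact hρ1.le
          · exact le_rfl
      have h4 : (0 : ℝ) ≤ ρ ^ cnt P X b k α β (lst g b T) (w.1 : ℤ) (w.2 : ℤ) := by positivity
      have h5 : (0 : ℝ) ≤ (if Wd P X b k α β (g * (T + 1) - b) (w.1 : ℤ) ∧
            Wd P X b k 0 0 (g * (T + 1) - b) (w.2 : ℤ) then ρ else 1) := by
        split_ifs
        · exact hρ0
        · norm_num
      exact mul_le_mul ih h3 h5 (h4.trans ih)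
  calc ∑ n ∈ range (2 ^ m), ∑ n' ∈ range (2 ^ m), ρ ^ cnt P X b k α β (lst g b T) n n' =
        ∑ w ∈ Ω, ρ ^ cnt P X b k α β (lst g b T) (w.1 : ℤ) (w.2 : ℤ) := by
        rw [hΩ, sum_product]
    _ ≤ ∑ w ∈ Ω, Psi ψ (VV d P X) g T w := sum_le_sum fun w _ => hcmp T w
    _ ≤ θ ^ T * Ω.card * (1 + C * (1 - 1 / 2 ^ T)) := hdec
    _ ≤ θ ^ T * (2 ^ m) ^ 2 * (1 + C) := by
        rw [hΩc]
        apply mul_le_mul_of_nonneg_left _ (by positivity)
        have h1 : (0 : ℝ) ≤ 1 / 2 ^ T := by positivity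
        nlinarith

end Pool.Agent.Lib.MP_86b630_nt.Avg81
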