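import Pool.Agent.Lib.MP_86b630_nt.Avg81.Recur

set_option autoImplicit false

/-! Digit windows of polynomial values. -/

namespace Pool.Agent.Lib.MP_86b630_nt.Avg81

open Finset Polynomial

/-- The Taylor coefficients of `P + X` at `n`. -/
noncomputable def Dv (d : ℕ) (P : ℤ[X]) (X : ℤ) (n : ℤ) (l : Fin d) : ℤ :=
  (hasseDeriv (l : ℕ) P).eval n + if (l : ℕ) = 0 then X else 0

/-- A nontrivial combination of the first Hasse derivatives has a derivative that is not divisible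
by a large power of two. -/
lemma not_dvd (P : ℤ[X]) (d : ℕ) (hd : P.natDegree = d) (h2 : 1 ≤ d) (H v A : ℕ)
    (hA : |P.leadingCoeff| ≤ A) (hv : d * H * 2 ^ d * A < 2 ^ v) (ζ h : Fin d → ℤ) (h0 : h ≠ 0)
    (hH : ∀ l, |h l| ≤ H) (hdv : ∀ l, (2 : ℤ) ^ v ∣ ζ l - h l) :
    ¬ C ((2 : ℤ) ^ v) ∣ derivative (∑ l, C (ζ l) * hasseDeriv (l : ℕ) P) := by
  classical
  obtain ⟨l1, hl1⟩ : ∃ l, h l ≠ 0 := by
    by_contra hc
    push Not at hc
    exact h0 (_root_.funext hc)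
  obtain ⟨l0, hl0, hmin⟩ : ∃ l0 : Fin d, h l0 ≠ 0 ∧ ∀ l, h l ≠ 0 → l0 ≤ l := by
    have hne : (univ.filter fun l => h l ≠ 0).Nonempty := ⟨l1, by simp [hl1]⟩
    refine ⟨(univ.filter fun l => h l ≠ 0).min' hne, ?_, ?_⟩
    · have := min'_mem _ hne
      exact (mem_filter.1 this).2
    · intro l hl
      exact min'_le _ _ (by simp [hl])
  have hlt : (l0 : ℕ) < d := l0.2
  have hP0 : P ≠ 0 := by
    intro hP
    rw [hP, natDegree_zero] at hd
    omega
  intro hdvd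
  rw [C_dvd_iff_dvd_coeff] at hdvd
  have h3 := hdvd (d - l0 - 1)
  rw [coeff_derivative, show d - (l0 : ℕ) - 1 + 1 = d - l0 by omega, finsetSum_coeff] at h3
  have hcast : (((d - l0 - 1 : ℕ) : ℤ) + 1) = ((d - l0 : ℕ) : ℤ) := by
    have : d - (l0 : ℕ) - 1 + 1 = d - l0 := by omega
    exact_mod_cast this
  rw [hcast] at h3
  have h4 : (2 : ℤ) ^ v ∣ (∑ l, (ζ l - h l) * (hasseDeriv (l : ℕ) P).coeff (d - l0)) *
      ((d - l0 : ℕ) : ℤ) := by
    apply Dvd.dvd.mul_right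
    apply dvd_sum
    intro l _
    exact (hdv l).mul_right _
  have h5 : (∑ l, h l * (hasseDeriv (l : ℕ) P).coeff (d - l0)) =
      h l0 * ((d.choose l0 : ℕ) * P.leadingCoeff) := by
    rw [sum_eq_single l0]
    · rw [hasseDeriv_coeff, show d - (l0 : ℕ) + l0 = d by omega, leadingCoeff, hd]
    · intro l _ hl
      rw [hasseDeriv_coeff]
      by_cases hhl : h l = 0
      · rw [hhl, zero_mul]
      · have h1 : l0 < l := lt_of_le_of_ne (hmin l hhl) (Ne.symm hl)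
        have h2 : (l0 : ℕ) < l := h1
        rw [coeff_eq_zero_of_natDegree_lt (show P.natDegree < d - l0 + l by omega)]
        simp
    · intro hl
      exact absurd (mem_univ _) hl
  have h6 : (2 : ℤ) ^ v ∣ h l0 * ((d.choose l0 : ℕ) * P.leadingCoeff) * ((d - l0 : ℕ) : ℤ) := by
    have h7 : h l0 * ((d.choose l0 : ℕ) * P.leadingCoeff) * ((d - l0 : ℕ) : ℤ) =
        (∑ l, (C (ζ l) * hasseDeriv (l : ℕ) P).coeff (d - l0)) * ((d - l0 : ℕ) : ℤ) -
        (∑ l, (ζ l - h l) * (hasseDeriv (l : ℕ) P).coeff (d - l0)) * ((d - l0 : ℕ) : ℤ) := by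
      rw [← h5, ← sub_mul, ← sum_sub_distrib]
      congr 1
      apply sum_congr rfl
      intro l _
      rw [coeff_C_mul]
      ring
    rw [h7]
    exact dvd_sub h3 h4
  have h7 : h l0 * ((d.choose l0 : ℕ) * P.leadingCoeff) * ((d - l0 : ℕ) : ℤ) ≠ 0 := by
    have h1 : ((d.choose l0 : ℕ) : ℤ) ≠ 0 := by
      have := Nat.choose_pos hlt.le
      exact_mod_cast this.ne'
    have h8 : ((d - l0 : ℕ) : ℤ) ≠ 0 := by
      have : d - (l0 : ℕ) ≠ 0 := by omega
      exact_mod_cast this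
    exact mul_ne_zero (mul_ne_zero hl0 (mul_ne_zero h1 (leadingCoeff_ne_zero.2 hP0))) h8
  have h8 := Int.le_of_dvd (abs_pos.2 h7) ((dvd_abs _ _).2 h6)
  rw [abs_mul, abs_mul, abs_mul, Nat.abs_cast, Nat.abs_cast] at h8
  have h9 : |h l0| * (((d.choose l0 : ℕ) : ℤ) * |P.leadingCoeff|) * ((d - l0 : ℕ) : ℤ) ≤
      (H : ℤ) * ((2 : ℤ) ^ d * A) * d := by
    have h10 : ((d.choose l0 : ℕ) : ℤ) ≤ 2 ^ d := by
      exact_mod_cast Nat.choose_le_two_pow d l0
    have h11 : ((d - l0 : ℕ) : ℤ) ≤ d := by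
      exact_mod_cast Nat.sub_le d l0
    gcongr
    exact hH l0
  have h10 : ((d * H * 2 ^ d * A : ℕ) : ℤ) < 2 ^ v := by exact_mod_cast hv
  have h11 : (H : ℤ) * ((2 : ℤ) ^ d * A) * d = ((d * H * 2 ^ d * A : ℕ) : ℤ) := by
    push_cast
    ring
  rw [h11] at h9
  exact absurd (h8.trans h9) (not_le.2 h10)

lemma near_int (δ t : ℝ) (hδ : 0 < δ) (h : 1 - 4 * δ ^ 2 ≤ Real.cos (Real.pi * t) ^ 2) :
    |t - round t| ≤ δ := by
  set f := t - round t with hf
  have hf1 : |f| ≤ 1 / 2 := abs_sub_round t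
  have h1 : Real.cos (Real.pi * t) ^ 2 = Real.cos (Real.pi * f) ^ 2 := by
    have h2 : Real.pi * t = Real.pi * f + (round t : ℤ) * Real.pi := by
      rw [hf]
      ring
    rw [h2, Real.cos_add_int_mul_pi, mul_pow]
    have h3 : ((-1 : ℝ) ^ (round t : ℤ)) ^ 2 = 1 := by
      rw [← zpow_natCast, ← zpow_mul, mul_comm, zpow_mul]
      norm_num
    rw [h3, one_mul]
  rw [h1] at h
  have h4 : Real.sin (Real.pi * f) ^ 2 ≤ (2 * δ) ^ 2 := by
    have := Real.sin_sq_add_cos_sq (Real.pi * f)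
    nlinarith
  have h5 : |Real.sin (Real.pi * f)| ≤ 2 * δ := by
    have := sq_le_sq.1 h4
    rwa [abs_of_pos (show 0 < 2 * δ by positivity)] at this
  have h6 : 2 / Real.pi * |Real.pi * f| ≤ |Real.sin (Real.pi * f)| := by
    apply Real.mul_abs_le_abs_sin
    rw [abs_mul, abs_of_pos Real.pi_pos]
    nlinarith [Real.pi_pos]
  rw [abs_mul, abs_of_pos Real.pi_pos] at h6
  have h7 : 2 / Real.pi * (Real.pi * |f|) = 2 * |f| := by
    field_simp
  rw [h7] at h6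
  linarith

/-- The target point. -/
noncomputable def yy (d b α β : ℕ) (l : Fin d) : ℝ :=
  if (l : ℕ) = 0 then (α + 1 / 2) / 2 ^ b else if (l : ℕ) = 1 then β / 2 ^ b else 0

/-- The width of the box. -/
noncomputable def dl (d b k : ℕ) : ℝ := 1 / (8 * 2 ^ b * (d + 1) * ((k : ℝ) + 1) ^ d)

lemma dl_pos (d b k : ℕ) : 0 < dl d b k := by
  unfold dl
  positivity

/-- Near the target point the digit window is prescribed. -/
lemma pattern (P : ℤ[X]) (d : ℕ) (hdd : P.natDegree = d) (hd : 2 ≤ d) (b k A : ℕ)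
    (hA : |P.leadingCoeff| ≤ A) (J : ℕ) (hbJ : b ≤ J)
    (hJ' : 8 * 2 ^ b * (A * (k + 1) ^ d) ≤ 2 ^ J) (n X : ℤ) (α β : ℕ)
    (hbox : ∀ l, 1 - 4 * (dl d b k) ^ 2 ≤
      Real.cos (Real.pi * ((Dv d P X n l : ℝ) / 2 ^ J - yy d b α β l)) ^ 2) (i : ℕ) (hi : i < k)
    (hlt : α + β * i < 2 ^ b) :
    ((P.eval (n + i) + X) / 2 ^ (J - b)) % 2 ^ b = ((α + β * i : ℕ) : ℤ) := by
  classical
  set B : ℝ := ((k : ℝ) + 1) ^ d with hB
  have hB1 : 1 ≤ B := one_le_pow₀ (by linarith [Nat.cast_nonneg (α := ℝ) k])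
  set δ : ℝ := 1 / (8 * 2 ^ b * (d + 1) * B) with hδ
  have hδdl : dl d b k = δ := rfl
  rw [hδdl] at hbox
  have hδ0 : 0 < δ := by positivity
  have hA' : |(P.leadingCoeff : ℝ)| ≤ A := by
    rw [← Int.cast_abs]
    exact_mod_cast hA
  have hJ : 8 * 2 ^ b * (|(P.leadingCoeff : ℝ)| * B) ≤ 2 ^ J := by
    calc 8 * 2 ^ b * (|(P.leadingCoeff : ℝ)| * B) ≤ 8 * 2 ^ b * (A * B) := by gcongr
      _ ≤ 2 ^ J := by
        rw [hB]
        exact_mod_cast hJ'
  set e : Fin d → ℝ := fun l => (((Dv d P X n l : ℝ) / 2 ^ J) - yy d b α β l) -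
    round (((Dv d P X n l : ℝ) / 2 ^ J) - yy d b α β l) with he
  have he1 : ∀ l, |e l| ≤ δ := fun l => near_int δ _ hδ0 (hbox l)
  have h2J : (0 : ℝ) < 2 ^ J := by positivity
  have h2b : (0 : ℝ) < 2 ^ b := by positivity
  -- Taylor expansion
  have hT : P.eval (n + i) = ∑ l ∈ range (d + 1), (hasseDeriv l P).eval n * (i : ℤ) ^ l := by
    have h1 : (taylor n P).eval (i : ℤ) = P.eval ((i : ℤ) + n) := taylor_eval _ _ _
    rw [add_comm, ← h1, eval_eq_sum_range, natDegree_taylor, hdd]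
    apply sum_congr rfl
    intro l _
    rw [taylor_coeff]
  have hlast : (hasseDeriv d P).eval n = P.leadingCoeff := by
    have h1 := taylor_coeff n P d
    rw [← h1]
    have h2 := leadingCoeff_taylor n P
    rw [leadingCoeff, natDegree_taylor, hdd] at h2
    exact h2
  have hval : (((P.eval (n + i) + X : ℤ)) : ℝ) / 2 ^ J =
      ∑ l : Fin d, ((Dv d P X n l : ℝ) / 2 ^ J) * (i : ℝ) ^ (l : ℕ) + P.leadingCoeff * (i : ℝ) ^ d / 2 ^ J := by
    rw [hT, sum_range_succ, hlast, ← Fin.sum_univ_eq_sum_range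
      (fun l => (hasseDeriv l P).eval n * (i : ℤ) ^ l) d]
    have h1 : ∑ l : Fin d, ((Dv d P X n l : ℝ) / 2 ^ J) * (i : ℝ) ^ (l : ℕ) =
        (∑ l : Fin d, (((hasseDeriv (l : ℕ) P).eval n : ℤ) : ℝ) * (i : ℝ) ^ (l : ℕ)) / 2 ^ J +
          ∑ l : Fin d, (if (l : ℕ) = 0 then (X : ℝ) / 2 ^ J else 0) := by
      rw [sum_div, ← sum_add_distrib]
      apply sum_congr rfl
      intro l _
      unfold Dv
      push_cast
      split_ifs with h
      · rw [h]; ring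
      · ring
    have h2 : ∑ l : Fin d, (if (l : ℕ) = 0 then (X : ℝ) / 2 ^ J else 0) = X / 2 ^ J := by
      rw [sum_eq_single (⟨0, by omega⟩ : Fin d)]
      · simp
      · intro l _ hl
        rw [if_neg]
        intro h0
        apply hl
        ext
        exact h0
      · intro h0
        exact absurd (mem_univ _) h0
    rw [h1, h2]
    push_cast
    ring
  have hy : ∑ l : Fin d, yy d b α β l * (i : ℝ) ^ (l : ℕ) = (α + 1 / 2 + β * i) / 2 ^ b := by
    have h1 : ∀ l : Fin d, yy d b α β l * (i : ℝ) ^ (l : ℕ) =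
        (if l = (⟨0, by omega⟩ : Fin d) then ((α : ℝ) + 1 / 2) / 2 ^ b else 0) +
          (if l = (⟨1, by omega⟩ : Fin d) then (β : ℝ) * i / 2 ^ b else 0) := by
      intro l
      unfold yy
      by_cases h0 : (l : ℕ) = 0
      · have h2 : l = (⟨0, by omega⟩ : Fin d) := Fin.ext h0
        have h3 : l ≠ (⟨1, by omega⟩ : Fin d) := by
          rw [h2]
          simp
        rw [if_pos h0, if_pos h2, if_neg h3, h0]
        ring
      · have h2 : l ≠ (⟨0, by omega⟩ : Fin d) := by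
          intro h
          apply h0
          rw [h]
        by_cases h1 : (l : ℕ) = 1
        · have h3 : l = (⟨1, by omega⟩ : Fin d) := Fin.ext h1
          rw [if_neg h0, if_pos h1, if_neg h2, if_pos h3, h1]
          ring
        · have h3 : l ≠ (⟨1, by omega⟩ : Fin d) := by
            intro h
            apply h1
            rw [h]
          rw [if_neg h0, if_neg h1, if_neg h2, if_neg h3]
          ring
    rw [sum_congr rfl fun l _ => h1 l, sum_add_distrib, sum_ite_eq' univ, sum_ite_eq' univ]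
    simp only [mem_univ, if_true]
    ring
  set Z : ℤ := ∑ l : Fin d, round (((Dv d P X n l : ℝ) / 2 ^ J) - yy d b α β l) * (i : ℤ) ^ (l : ℕ) with hZ
  have hsplit : ∑ l : Fin d, ((Dv d P X n l : ℝ) / 2 ^ J) * (i : ℝ) ^ (l : ℕ) =
      (α + 1 / 2 + β * i) / 2 ^ b + Z + ∑ l : Fin d, e l * (i : ℝ) ^ (l : ℕ) := by
    rw [← hy, hZ]
    push_cast
    rw [← sum_add_distrib, ← sum_add_distrib]
    apply sum_congr rfl
    intro l _
    rw [he]
    ring
  have hi1 : ∀ l : ℕ, l ≤ d → (i : ℝ) ^ l ≤ B := by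
    intro l hl
    have h1 : (i : ℝ) ≤ (k : ℝ) + 1 := by
      have : (i : ℝ) < k := by exact_mod_cast hi
      linarith
    calc (i : ℝ) ^ l ≤ ((k : ℝ) + 1) ^ l := pow_le_pow_left₀ (Nat.cast_nonneg _) h1 _
      _ ≤ ((k : ℝ) + 1) ^ d := pow_le_pow_right₀ (by linarith [Nat.cast_nonneg (α := ℝ) k]) hl
  have herr : |∑ l : Fin d, e l * (i : ℝ) ^ (l : ℕ)| ≤ 1 / (8 * 2 ^ b) := by
    calc |∑ l : Fin d, e l * (i : ℝ) ^ (l : ℕ)| ≤ ∑ l : Fin d, |e l * (i : ℝ) ^ (l : ℕ)| :=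
          abs_sum_le_sum_abs _ _
      _ ≤ ∑ l : Fin d, δ * B := by
          apply sum_le_sum
          intro l _
          rw [abs_mul, abs_of_nonneg (show (0 : ℝ) ≤ (i : ℝ) ^ (l : ℕ) by positivity)]
          exact mul_le_mul (he1 l) (hi1 _ l.2.le) (by positivity) hδ0.le
      _ = d * (δ * B) := by rw [sum_const, card_univ, Fintype.card_fin, nsmul_eq_mul]
      _ = (d : ℝ) / (d + 1) * (1 / (8 * 2 ^ b)) := by
          rw [hδ]
          have : B ≠ 0 := by positivity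
          have h3 : (d : ℝ) + 1 ≠ 0 := by positivity
          field_simp
      _ ≤ 1 * (1 / (8 * 2 ^ b)) := by
          apply mul_le_mul_of_nonneg_right _ (by positivity)
          rw [div_le_one (by positivity)]
          linarith
      _ = 1 / (8 * 2 ^ b) := one_mul _
  have hlc : |(P.leadingCoeff : ℝ) * (i : ℝ) ^ d / 2 ^ J| ≤ 1 / (8 * 2 ^ b) := by
    rw [abs_div, abs_mul, abs_of_pos h2J, abs_of_nonneg (show (0 : ℝ) ≤ (i : ℝ) ^ d by positivity),
      div_le_div_iff₀ h2J (by positivity), one_mul]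
    calc |(P.leadingCoeff : ℝ)| * (i : ℝ) ^ d * (8 * 2 ^ b) ≤
          |(P.leadingCoeff : ℝ)| * B * (8 * 2 ^ b) := by
          gcongr
          exact hi1 d le_rfl
      _ = 8 * 2 ^ b * (|(P.leadingCoeff : ℝ)| * B) := by ring
      _ ≤ 2 ^ J := hJ
  set R : ℝ := ∑ l : Fin d, e l * (i : ℝ) ^ (l : ℕ) +
    P.leadingCoeff * (i : ℝ) ^ d / 2 ^ J with hR
  have hRb : |R * 2 ^ b| ≤ 1 / 4 := by
    have h1 : |R| ≤ 1 / (8 * 2 ^ b) + 1 / (8 * 2 ^ b) := (abs_add_le _ _).trans (add_le_add herr hlc)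
    rw [abs_mul, abs_of_pos h2b]
    calc |R| * 2 ^ b ≤ (1 / (8 * 2 ^ b) + 1 / (8 * 2 ^ b)) * 2 ^ b := by gcongr
      _ = 1 / 4 := by field_simp; norm_num
  have hpow : (2 : ℝ) ^ J = 2 ^ (J - b) * 2 ^ b := by
    rw [← pow_add]
    congr 1
    omega
  have h2Jb : (0 : ℝ) < 2 ^ (J - b) := by positivity
  set A : ℤ := P.eval (n + i) + X with hA
  have hAr : (A : ℝ) = 2 ^ (J - b) * ((α + β * i : ℕ) + 2 ^ b * Z + 1 / 2 + R * 2 ^ b) := by
    have h1 : (A : ℝ) / 2 ^ J = (α + 1 / 2 + β * i) / 2 ^ b + Z + R := by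
      rw [hval, hsplit, hR]
      ring
    rw [div_eq_iff h2J.ne', hpow] at h1
    rw [h1]
    push_cast
    field_simp
    ring
  have hRb' := abs_le.1 hRb
  have h1 : ((((α + β * i : ℕ) : ℤ) + 2 ^ b * Z) * 2 ^ (J - b) : ℤ) ≤ A := by
    have h2 : (((((α + β * i : ℕ) : ℤ) + 2 ^ b * Z) * 2 ^ (J - b) : ℤ) : ℝ) ≤ A := by
      rw [hAr]
      push_cast
      rw [mul_comm]
      apply mul_le_mul_of_nonneg_left _ h2Jb.le
      linarith [hRb'.1]
    exact_mod_cast h2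
  have h2 : A < (((α + β * i : ℕ) : ℤ) + 2 ^ b * Z + 1) * 2 ^ (J - b) := by
    have h3 : (A : ℝ) < (((((α + β * i : ℕ) : ℤ) + 2 ^ b * Z + 1) * 2 ^ (J - b) : ℤ) : ℝ) := by
      rw [hAr]
      push_cast
      rw [mul_comm]
      apply mul_lt_mul_of_pos_right _ h2Jb
      linarith [hRb'.2]
    exact_mod_cast h3
  have h2z : (0 : ℤ) < 2 ^ (J - b) := by positivity
  have h3 : A / 2 ^ (J - b) = ((α + β * i : ℕ) : ℤ) + 2 ^ b * Z := by
    apply le_antisymm
    · exact Int.lt_add_one_iff.1 (Int.ediv_lt_of_lt_mul h2z h2)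
    · exact (Int.le_ediv_iff_mul_le h2z).2 h1
  rw [h3, Int.add_mul_emod_self_left]
  apply Int.emod_eq_of_lt (by positivity)
  exact_mod_cast hlt

end Pool.Agent.Lib.MP_86b630_nt.Avg81
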