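import Pool.Agent.Lib.MP_86b630_nt.Avg81.Trig

set_option autoImplicit false

/-! The product of many trigonometric factors at different scales has small mean. -/

namespace Pool.Agent.Lib.MP_86b630_nt.Avg81

open Finset

variable {ι ω : Type*} [Fintype ι] [DecidableEq ι]

/-- Frequencies close to a small nonzero one, modulo `2 ^ v`. -/
def Good (H v : ℕ) (ζ : ι → ℤ) : Prop :=
  ∃ h ∈ Fr ι H, h ≠ 0 ∧ ∀ l, (2 : ℤ) ^ v ∣ ζ l - h l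

/-- The product of the first `T` factors. -/
noncomputable def Psi (ψ : (ι → ℝ) → ℝ) (V : ω → ι → ℤ) (g : ℕ) : ℕ → ω → ℝ
  | 0, _ => 1
  | T + 1, w => Psi ψ V g T w * ψ (fun l => (V w l : ℝ) / 2 ^ (g * (T + 1)))

lemma expand (H : ℕ) (a : (ι → ℤ) → ℂ) (ψ : (ι → ℝ) → ℝ)
    (hψ : ∀ x, ((ψ x : ℝ) : ℂ) = ∑ h ∈ Fr ι H, a h * E (∑ l, h l * x l))
    (Ω : Finset ω) (V : ω → ι → ℤ) (F : ω → ℝ) (ζ : ι → ℤ) (J J' : ℕ) (hJ : J' ≤ J) :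
    ∑ w ∈ Ω, ((F w * ψ (fun l => (V w l : ℝ) / 2 ^ J') : ℝ) : ℂ) *
        E (((∑ l, ζ l * V w l : ℤ) : ℝ) / 2 ^ J) =
      ∑ h ∈ Fr ι H, a h * ∑ w ∈ Ω, ((F w : ℝ) : ℂ) *
        E (((∑ l, (ζ l + 2 ^ (J - J') * h l) * V w l : ℤ) : ℝ) / 2 ^ J) := by
  have h1 : ∀ w ∈ Ω, ((F w * ψ (fun l => (V w l : ℝ) / 2 ^ J') : ℝ) : ℂ) *
        E (((∑ l, ζ l * V w l : ℤ) : ℝ) / 2 ^ J) =
      ∑ h ∈ Fr ι H, a h * (((F w : ℝ) : ℂ) *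
        E (((∑ l, (ζ l + 2 ^ (J - J') * h l) * V w l : ℤ) : ℝ) / 2 ^ J)) := by
    intro w _
    rw [Complex.ofReal_mul, hψ, mul_sum, sum_mul]
    apply sum_congr rfl
    intro h _
    have h2 : E (((∑ l, (ζ l + 2 ^ (J - J') * h l) * V w l : ℤ) : ℝ) / 2 ^ J) =
        E (∑ l, h l * ((V w l : ℝ) / 2 ^ J')) * E (((∑ l, ζ l * V w l : ℤ) : ℝ) / 2 ^ J) := by
      rw [← E_add]
      congr 1
      have h3 : (2 : ℝ) ^ J = 2 ^ (J - J') * 2 ^ J' := by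
        rw [← pow_add]
        congr 1
        omega
      push_cast
      rw [sum_div, sum_div, ← sum_add_distrib]
      apply sum_congr rfl
      intro l _
      rw [h3]
      field_simp
      ring
    rw [h2]
    ring
  rw [sum_congr rfl h1, sum_comm]
  apply sum_congr rfl
  intro h _
  rw [mul_sum]

/-- Twisted means are small. -/
lemma claim1 (H g v m : ℕ) (Λ : ℝ) (hΛ : 0 ≤ Λ) (hvg : v ≤ g) (a : (ι → ℤ) → ℂ)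
    (ψ : (ι → ℝ) → ℝ) (hψ : ∀ x, ((ψ x : ℝ) : ℂ) = ∑ h ∈ Fr ι H, a h * E (∑ l, h l * x l))
    (ha : ∑ h ∈ Fr ι H, ‖a h‖ ≤ Λ) (Ω : Finset ω) (V : ω → ι → ℤ) (β : ℕ → ℝ)
    (hW : ∀ J ≤ m, ∀ ζ, Good H v ζ → ‖∑ w ∈ Ω, E (((∑ l, ζ l * V w l : ℤ) : ℝ) / 2 ^ J)‖ ≤ β J) :
    ∀ T J : ℕ, g * T + v ≤ J → J ≤ m → ∀ ζ, Good H v ζ →
      ‖∑ w ∈ Ω, ((Psi ψ V g T w : ℝ) : ℂ) * E (((∑ l, ζ l * V w l : ℤ) : ℝ) / 2 ^ J)‖ ≤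
        Λ ^ T * β J := by
  intro T
  induction T with
  | zero =>
    intro J _ hJ ζ hζ
    simpa [Psi] using hW J hJ ζ hζ
  | succ T ih =>
    intro J hgJ hJ ζ hζ
    have hβ : 0 ≤ β J := (norm_nonneg _).trans (hW J hJ ζ hζ)
    have h1 := expand H a ψ hψ Ω V (Psi ψ V g T) ζ J (g * (T + 1)) (by omega)
    have h2 : ∀ h ∈ Fr ι H, ‖∑ w ∈ Ω, ((Psi ψ V g T w : ℝ) : ℂ) *
        E (((∑ l, (ζ l + 2 ^ (J - g * (T + 1)) * h l) * V w l : ℤ) : ℝ) / 2 ^ J)‖ ≤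
          Λ ^ T * β J := by
      intro h _
      apply ih J (by rw [mul_add] at hgJ; omega) hJ
      obtain ⟨h0, hh0, hne, hdv⟩ := hζ
      refine ⟨h0, hh0, hne, fun l => ?_⟩
      have h3 : (2 : ℤ) ^ v ∣ 2 ^ (J - g * (T + 1)) * h l :=
        (pow_dvd_pow 2 (by omega)).mul_right _
      have h4 := dvd_add (hdv l) h3
      rw [show ζ l + 2 ^ (J - g * (T + 1)) * h l - h0 l =
        ζ l - h0 l + 2 ^ (J - g * (T + 1)) * h l by ring]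
      exact h4
    have h5 : ∑ w ∈ Ω, ((Psi ψ V g (T + 1) w : ℝ) : ℂ) *
        E (((∑ l, ζ l * V w l : ℤ) : ℝ) / 2 ^ J) =
      ∑ h ∈ Fr ι H, a h * ∑ w ∈ Ω, ((Psi ψ V g T w : ℝ) : ℂ) *
        E (((∑ l, (ζ l + 2 ^ (J - g * (T + 1)) * h l) * V w l : ℤ) : ℝ) / 2 ^ J) := h1
    rw [h5]
    calc ‖∑ h ∈ Fr ι H, a h * ∑ w ∈ Ω, ((Psi ψ V g T w : ℝ) : ℂ) *
          E (((∑ l, (ζ l + 2 ^ (J - g * (T + 1)) * h l) * V w l : ℤ) : ℝ) / 2 ^ J)‖ ≤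
          ∑ h ∈ Fr ι H, ‖a h * ∑ w ∈ Ω, ((Psi ψ V g T w : ℝ) : ℂ) *
            E (((∑ l, (ζ l + 2 ^ (J - g * (T + 1)) * h l) * V w l : ℤ) : ℝ) / 2 ^ J)‖ :=
          norm_sum_le _ _
      _ ≤ ∑ h ∈ Fr ι H, ‖a h‖ * (Λ ^ T * β J) := by
          apply sum_le_sum
          intro h hh
          rw [norm_mul]
          exact mul_le_mul_of_nonneg_left (h2 h hh) (norm_nonneg _)
      _ = (∑ h ∈ Fr ι H, ‖a h‖) * (Λ ^ T * β J) := by rw [sum_mul]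
      _ ≤ Λ * (Λ ^ T * β J) := mul_le_mul_of_nonneg_right ha (by positivity)
      _ = Λ ^ (T + 1) * β J := by rw [pow_succ]; ring

/-- The mean of the product. -/
lemma claim2 (H g v m : ℕ) (Λ θ a0 : ℝ) (hΛ : 0 ≤ Λ) (hvg : v ≤ g) (a : (ι → ℤ) → ℂ)
    (ψ : (ι → ℝ) → ℝ) (hψ : ∀ x, ((ψ x : ℝ) : ℂ) = ∑ h ∈ Fr ι H, a h * E (∑ l, h l * x l))
    (hψ0 : ∀ x, 0 ≤ ψ x) (ha0 : a 0 = a0) (haθ : a0 ≤ θ)
    (ha : ∑ h ∈ Fr ι H, ‖a h‖ ≤ Λ) (Ω : Finset ω) (V : ω → ι → ℤ) (β : ℕ → ℝ)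
    (hW : ∀ J ≤ m, ∀ ζ, Good H v ζ → ‖∑ w ∈ Ω, E (((∑ l, ζ l * V w l : ℤ) : ℝ) / 2 ^ J)‖ ≤ β J)
    (hβ : ∀ J, 0 ≤ β J) (T : ℕ) (hT : g * (T + 1) ≤ m) :
    ∑ w ∈ Ω, Psi ψ V g (T + 1) w ≤ θ * ∑ w ∈ Ω, Psi ψ V g T w + Λ ^ (T + 1) * β (g * (T + 1)) := by
  have hP0 : ∀ T w, 0 ≤ Psi ψ V g T w := by
    intro T
    induction T with
    | zero => intro w; simp [Psi]
    | succ T ih => intro w; exact mul_nonneg (ih w) (hψ0 _)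
  have h1 := expand H a ψ hψ Ω V (Psi ψ V g T) 0 (g * (T + 1)) (g * (T + 1)) le_rfl
  have h2 : ((∑ w ∈ Ω, Psi ψ V g (T + 1) w : ℝ) : ℂ) =
      ∑ h ∈ Fr ι H, a h * ∑ w ∈ Ω, ((Psi ψ V g T w : ℝ) : ℂ) *
        E (((∑ l, h l * V w l : ℤ) : ℝ) / 2 ^ (g * (T + 1))) := by
    have h3 : ((∑ w ∈ Ω, Psi ψ V g (T + 1) w : ℝ) : ℂ) = ∑ w ∈ Ω,
        ((Psi ψ V g T w * ψ (fun l => (V w l : ℝ) / 2 ^ (g * (T + 1))) : ℝ) : ℂ) *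
        E (((∑ l, (0 : ι → ℤ) l * V w l : ℤ) : ℝ) / 2 ^ (g * (T + 1))) := by
      rw [Complex.ofReal_sum]
      apply sum_congr rfl
      intro w _
      simp [E_zero, Psi]
    rw [h3, h1]
    apply sum_congr rfl
    intro h _
    simp
  rw [← add_sum_erase _ _ (zero_mem_Fr H)] at h2
  have h4 : a 0 * ∑ w ∈ Ω, ((Psi ψ V g T w : ℝ) : ℂ) *
        E (((∑ l, (0 : ι → ℤ) l * V w l : ℤ) : ℝ) / 2 ^ (g * (T + 1))) =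
      ((a0 * ∑ w ∈ Ω, Psi ψ V g T w : ℝ) : ℂ) := by
    rw [ha0]
    simp [E_zero]
  rw [h4] at h2
  have h5 : ‖∑ h ∈ (Fr ι H).erase 0, a h * ∑ w ∈ Ω, ((Psi ψ V g T w : ℝ) : ℂ) *
        E (((∑ l, h l * V w l : ℤ) : ℝ) / 2 ^ (g * (T + 1)))‖ ≤
      Λ ^ (T + 1) * β (g * (T + 1)) := by
    calc ‖∑ h ∈ (Fr ι H).erase 0, a h * ∑ w ∈ Ω, ((Psi ψ V g T w : ℝ) : ℂ) *
          E (((∑ l, h l * V w l : ℤ) : ℝ) / 2 ^ (g * (T + 1)))‖ ≤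
          ∑ h ∈ (Fr ι H).erase 0, ‖a h * ∑ w ∈ Ω, ((Psi ψ V g T w : ℝ) : ℂ) *
            E (((∑ l, h l * V w l : ℤ) : ℝ) / 2 ^ (g * (T + 1)))‖ := norm_sum_le _ _
      _ ≤ ∑ h ∈ (Fr ι H).erase 0, ‖a h‖ * (Λ ^ T * β (g * (T + 1))) := by
          apply sum_le_sum
          intro h hh
          rw [norm_mul]
          apply mul_le_mul_of_nonneg_left _ (norm_nonneg _)
          apply claim1 H g v m Λ hΛ hvg a ψ hψ ha Ω V β hW T (g * (T + 1)) _ hT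
          · exact ⟨h, mem_of_mem_erase hh, ne_of_mem_erase hh, fun l => by simp⟩
          · rw [mul_add]
            omega
      _ ≤ ∑ h ∈ Fr ι H, ‖a h‖ * (Λ ^ T * β (g * (T + 1))) := by
          apply sum_le_sum_of_subset_of_nonneg (erase_subset _ _)
          intro h _ _
          have := hβ (g * (T + 1))
          positivity
      _ = (∑ h ∈ Fr ι H, ‖a h‖) * (Λ ^ T * β (g * (T + 1))) := by rw [sum_mul]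
      _ ≤ Λ * (Λ ^ T * β (g * (T + 1))) := by
          have := hβ (g * (T + 1))
          exact mul_le_mul_of_nonneg_right ha (by positivity)
      _ = Λ ^ (T + 1) * β (g * (T + 1)) := by rw [pow_succ]; ring
  have h6 := congrArg Complex.re h2
  rw [Complex.ofReal_re, Complex.add_re, Complex.ofReal_re] at h6
  have h7 := (Complex.re_le_norm _).trans h5
  have h8 : 0 ≤ ∑ w ∈ Ω, Psi ψ V g T w := sum_nonneg fun w _ => hP0 T w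
  rw [h6]
  have h9 : a0 * ∑ w ∈ Ω, Psi ψ V g T w ≤ θ * ∑ w ∈ Ω, Psi ψ V g T w :=
    mul_le_mul_of_nonneg_right haθ h8
  linarith

/-- Exponential decay of the mean of the product. -/
lemma decay (H g v m : ℕ) (Λ θ a0 C : ℝ) (hΛ : 0 ≤ Λ) (hθ : 0 < θ) (hC : 0 ≤ C) (hvg : v ≤ g)
    (a : (ι → ℤ) → ℂ)
    (ψ : (ι → ℝ) → ℝ) (hψ : ∀ x, ((ψ x : ℝ) : ℂ) = ∑ h ∈ Fr ι H, a h * E (∑ l, h l * x l))
    (hψ0 : ∀ x, 0 ≤ ψ x) (ha0 : a 0 = a0) (haθ : a0 ≤ θ)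
    (ha : ∑ h ∈ Fr ι H, ‖a h‖ ≤ Λ) (Ω : Finset ω) (V : ω → ι → ℤ) (β : ℕ → ℝ)
    (hW : ∀ J ≤ m, ∀ ζ, Good H v ζ → ‖∑ w ∈ Ω, E (((∑ l, ζ l * V w l : ℤ) : ℝ) / 2 ^ J)‖ ≤ β J)
    (hβ : ∀ J, 0 ≤ β J)
    (hβ' : ∀ T, Λ ^ T * β (g * T) ≤ C * (θ / 2) ^ T * Ω.card) :
    ∀ T : ℕ, g * T ≤ m → ∑ w ∈ Ω, Psi ψ V g T w ≤ θ ^ T * Ω.card * (1 + C * (1 - 1 / 2 ^ T)) := by
  intro T
  induction T with
  | zero =>
    intro _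
    simp [Psi]
  | succ T ih =>
    intro hT
    have h1 := ih (by rw [mul_add] at hT; omega)
    have h2 := claim2 H g v m Λ θ a0 hΛ hvg a ψ hψ hψ0 ha0 haθ ha Ω V β hW hβ T hT
    have h3 := hβ' (T + 1)
    calc ∑ w ∈ Ω, Psi ψ V g (T + 1) w ≤
          θ * ∑ w ∈ Ω, Psi ψ V g T w + Λ ^ (T + 1) * β (g * (T + 1)) := h2
      _ ≤ θ * (θ ^ T * Ω.card * (1 + C * (1 - 1 / 2 ^ T))) + C * (θ / 2) ^ (T + 1) * Ω.card :=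
          add_le_add (mul_le_mul_of_nonneg_left h1 hθ.le) h3
      _ = θ ^ (T + 1) * Ω.card * (1 + C * (1 - 1 / 2 ^ (T + 1))) := by
          rw [div_pow, pow_succ, pow_succ]
          field_simp
          ring

end Pool.Agent.Lib.MP_86b630_nt.Avg81
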