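import Mathlib

set_option autoImplicit false

/-! Roots of integer polynomials modulo powers of two and complete exponential sums. -/

namespace Pool.Agent.Lib.MP_86b630_nt.Avg81

open Finset Polynomial Filter

lemma pow_dvd_aux : ∀ (e' e : ℕ) (a b : ℤ), e' ≤ e → (2 : ℤ) ^ e ∣ a * b → ¬ (2 : ℤ) ^ e' ∣ a →
    (2 : ℤ) ^ (e - e') ∣ b := by
  intro e'
  induction e' with
  | zero =>
    intro e a b _ _ h
    simp at h
  | succ e' ih =>
    intro e a b he h hn
    obtain ⟨e1, rfl⟩ : ∃ e1, e = e1 + 1 := ⟨e - 1, by omega⟩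
    by_cases h2 : (2 : ℤ) ∣ a
    · obtain ⟨a', rfl⟩ := h2
      have h3 : (2 : ℤ) ^ e1 ∣ a' * b := by
        rw [pow_succ'] at h
        have : (2 : ℤ) * 2 ^ e1 ∣ 2 * (a' * b) := by
          rw [← mul_assoc]
          exact h
        exact (mul_dvd_mul_iff_left (by norm_num)).1 this
      have h4 : ¬ (2 : ℤ) ^ e' ∣ a' := by
        intro h5
        apply hn
        rw [pow_succ']
        exact mul_dvd_mul_left 2 h5
      have h6 := ih e1 a' b (by omega) h3 h4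
      rw [show e1 + 1 - (e' + 1) = e1 - e' by omega]
      exact h6
    · have h3 : (2 : ℤ) ^ (e1 + 1) ∣ b :=
        (Int.prime_two).pow_dvd_of_dvd_mul_left (e1 + 1) h2 h
      exact (pow_dvd_pow 2 (by omega)).trans h3

/-- The integers where `2 ^ e` divides `q` lie in few classes modulo `2 ^ e'`. -/
lemma roots_content : ∀ (D : ℕ) (q : ℤ[X]), q.natDegree ≤ D → ∀ v e' e : ℕ,
    ¬ C ((2 : ℤ) ^ v) ∣ q → v + D * e' ≤ e →
    ∃ R : Finset ℤ, R.card ≤ D ∧ ∀ n : ℤ, (2 : ℤ) ^ e ∣ q.eval n → ∃ r ∈ R, (2 : ℤ) ^ e' ∣ n - r := by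
  intro D
  induction D with
  | zero =>
    intro q hq v e' e hv he
    refine ⟨∅, by simp, fun n hn => ?_⟩
    exfalso
    apply hv
    rw [eq_C_of_natDegree_le_zero hq] at hn ⊢
    rw [eval_C] at hn
    exact map_dvd C ((pow_dvd_pow 2 (by omega)).trans hn)
  | succ D ih =>
    intro q hq v e' e hv he
    by_cases h : ∃ n0 : ℤ, (2 : ℤ) ^ e ∣ q.eval n0
    · obtain ⟨n0, hn0⟩ := h
      set p : ℤ[X] := q - C (q.eval n0) with hp
      have hp0 : p.IsRoot n0 := by simp [hp]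
      have hfac : (X - C n0) * (p /ₘ (X - C n0)) = p := mul_divByMonic_eq_iff_isRoot.2 hp0
      have hdegp : p.natDegree ≤ D + 1 := by
        rw [hp, natDegree_sub_C]
        exact hq
      have hdeg1 : (p /ₘ (X - C n0)).natDegree ≤ D := by
        rw [natDegree_divByMonic _ (monic_X_sub_C n0), natDegree_X_sub_C]
        omega
      have hDe : (D + 1) * e' = D * e' + e' := by ring
      have hv1 : ¬ C ((2 : ℤ) ^ v) ∣ p /ₘ (X - C n0) := by
        intro h1
        apply hv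
        have h2 : C ((2 : ℤ) ^ v) ∣ p := by
          rw [← hfac]
          exact h1.mul_left _
        have h3 : C ((2 : ℤ) ^ v) ∣ C (q.eval n0) :=
          map_dvd C ((pow_dvd_pow 2 (by omega)).trans hn0)
        have h4 := dvd_add h2 h3
        rw [hp, sub_add_cancel] at h4
        exact h4
      have hee : v + D * e' ≤ e - e' := by omega
      obtain ⟨R, hR, hR'⟩ := ih _ hdeg1 v e' (e - e') hv1 hee
      refine ⟨insert n0 R, (card_insert_le _ _).trans (by omega), fun n hn => ?_⟩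
      by_cases h2 : (2 : ℤ) ^ e' ∣ n - n0
      · exact ⟨n0, by simp, h2⟩
      · have h3 : (2 : ℤ) ^ e ∣ (n - n0) * (p /ₘ (X - C n0)).eval n := by
          have h4 := congrArg (eval n) hfac
          rw [eval_mul, eval_sub, eval_X, eval_C, hp, eval_sub, eval_C] at h4
          rw [← hp] at h4
          rw [h4]
          exact dvd_sub hn hn0
        obtain ⟨r, hr, hr'⟩ := hR' n (pow_dvd_aux e' e _ _ (by omega) h3 h2)
        exact ⟨r, by simp [hr], hr'⟩
    · push Not at h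
      exact ⟨∅, by simp, fun n hn => absurd hn (h n)⟩

/-- `exp (2 π i t)`. -/
noncomputable def E (t : ℝ) : ℂ := Complex.exp (2 * Real.pi * t * Complex.I)

lemma E_add (s t : ℝ) : E (s + t) = E s * E t := by
  unfold E
  rw [← Complex.exp_add]
  congr 1
  push_cast
  ring

lemma E_zero : E 0 = 1 := by simp [E]

lemma E_norm (t : ℝ) : ‖E t‖ = 1 := by
  unfold E
  rw [show (2 * Real.pi * t * Complex.I : ℂ) = ((2 * Real.pi * t : ℝ) : ℂ) * Complex.I by
    push_cast; ring]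
  exact Complex.norm_exp_ofReal_mul_I _

lemma E_int (z : ℤ) : E z = 1 := by
  unfold E
  rw [Complex.exp_eq_one_iff]
  exact ⟨z, by push_cast; ring⟩

lemma E_add_int (t : ℝ) (z : ℤ) : E (t + z) = E t := by rw [E_add, E_int, mul_one]

lemma E_eq_one_iff (t : ℝ) : E t = 1 ↔ ∃ z : ℤ, t = z := by
  constructor
  · intro h
    unfold E at h
    rw [Complex.exp_eq_one_iff] at h
    obtain ⟨n, hn⟩ := h
    refine ⟨n, ?_⟩
    have h1 : (2 * Real.pi * Complex.I : ℂ) ≠ 0 := by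
      simp [Real.pi_ne_zero]
    have h2 : (2 * Real.pi * Complex.I : ℂ) * (t : ℂ) = (2 * Real.pi * Complex.I : ℂ) * (n : ℂ) := by
      rw [show (2 * Real.pi * Complex.I : ℂ) * (t : ℂ) = 2 * Real.pi * t * Complex.I by ring, hn]
      ring
    have h3 := mul_left_cancel₀ h1 h2
    exact_mod_cast h3
  · rintro ⟨z, rfl⟩
    exact E_int z

lemma E_nat_mul (t : ℝ) (n : ℕ) : E (t * n) = E t ^ n := by
  unfold E
  rw [← Complex.exp_nat_mul]
  congr 1
  push_cast
  ring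

/-- The full sum of an additive character. -/
lemma full_sum (e : ℕ) (c : ℤ) :
    ‖∑ v ∈ range (2 ^ e), E (c * v / 2 ^ e)‖ ≤ if (2 : ℤ) ^ e ∣ c then (2 : ℝ) ^ e else 0 := by
  split_ifs with h
  · calc ‖∑ v ∈ range (2 ^ e), E (c * v / 2 ^ e)‖ ≤ ∑ v ∈ range (2 ^ e), ‖E (c * v / 2 ^ e)‖ :=
        norm_sum_le _ _
      _ = 2 ^ e := by simp [E_norm]
  · have h0 : (2 : ℝ) ^ e ≠ 0 := by positivity
    have h1 : ∀ v ∈ range (2 ^ e), E (c * v / 2 ^ e) = E ((c : ℝ) / 2 ^ e) ^ v := by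
      intro v _
      rw [← E_nat_mul]
      congr 1
      ring
    have h2 : E ((c : ℝ) / 2 ^ e) ≠ 1 := by
      intro h3
      rw [E_eq_one_iff] at h3
      obtain ⟨z, hz⟩ := h3
      apply h
      refine ⟨z, ?_⟩
      rw [div_eq_iff h0] at hz
      have : (c : ℝ) = ((2 ^ e * z : ℤ) : ℝ) := by
        rw [hz]
        push_cast
        ring
      exact_mod_cast this
    have h3 : E ((c : ℝ) / 2 ^ e) ^ (2 ^ e) = 1 := by
      rw [← E_nat_mul]
      push_cast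
      rw [div_mul_cancel₀ _ h0]
      exact E_int c
    rw [sum_congr rfl h1, geom_sum_eq h2, h3]
    simp

/-- Elements of `[0, 2 ^ s)` in one class modulo `2 ^ f`. -/
lemma class_count (s f : ℕ) (hf : f ≤ s) (A : Finset ℕ) (hA : A ⊆ range (2 ^ s))
    (h : ∀ u ∈ A, ∀ u' ∈ A, (2 : ℤ) ^ f ∣ (u : ℤ) - u') : A.card ≤ 2 ^ (s - f) := by
  have hpos : 0 < 2 ^ f := by positivity
  have h1 : A.card ≤ (range (2 ^ (s - f))).card := by
    apply card_le_card_of_injOn (fun u => u / 2 ^ f)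
    · intro u hu
      have h2 := mem_range.1 (hA hu)
      simp only [coe_range, Set.mem_Iio]
      apply Nat.div_lt_of_lt_mul
      rw [← pow_add, show f + (s - f) = s by omega]
      exact h2
    · intro u hu u' hu' huu
      have h2 := h u hu u' hu'
      have h3 : u % 2 ^ f = u' % 2 ^ f := by
        have h4 : (u' : ℤ) ≡ u [ZMOD (2 ^ f : ℕ)] := by
          rw [Int.modEq_iff_dvd]
          push_cast
          exact h2
        exact (Int.natCast_modEq_iff.1 h4).symm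
      have h5 := Nat.mod_add_div u (2 ^ f)
      have h6 := Nat.mod_add_div u' (2 ^ f)
      simp only at huu
      rw [← h5, ← h6, h3, huu]
  simpa using h1

lemma sum_blocks {α : Type*} [AddCommMonoid α] (A B : ℕ) (f : ℕ → α) :
    ∑ z ∈ range (A * B), f z = ∑ q ∈ range B, ∑ r ∈ range A, f (r + A * q) := by
  induction B with
  | zero => simp
  | succ B ih =>
    rw [mul_add, mul_one, sum_range_succ, ← ih, sum_range_add]
    congr 1
    apply sum_congr rfl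
    intro x _
    rw [add_comm]

/-- Complete exponential sums modulo powers of two. -/
lemma complete (f : ℤ[X]) (D : ℕ) (hD : 1 ≤ D) (hf : (derivative f).natDegree ≤ D) (v : ℕ)
    (hv : ¬ C ((2 : ℤ) ^ v) ∣ derivative f) (J m : ℕ) (hJm : J ≤ m) :
    ‖∑ n ∈ range (2 ^ m), E ((f.eval (n : ℤ) : ℤ) / 2 ^ J)‖ ≤ D * 2 ^ m / 2 ^ ((J / 2 - v) / D) := by
  set q := derivative f with hq
  set e := J / 2 with he
  set e' := (e - v) / D with he'
  have hD1 : (1 : ℝ) ≤ D := by exact_mod_cast hD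
  have htriv : ‖∑ n ∈ range (2 ^ m), E ((f.eval (n : ℤ) : ℤ) / 2 ^ J)‖ ≤ 2 ^ m := by
    calc ‖∑ n ∈ range (2 ^ m), E ((f.eval (n : ℤ) : ℤ) / 2 ^ J)‖ ≤
          ∑ n ∈ range (2 ^ m), ‖E ((f.eval (n : ℤ) : ℤ) / 2 ^ J)‖ := norm_sum_le _ _
      _ = 2 ^ m := by simp [E_norm]
  by_cases hev : e < v
  · have h0 : e' = 0 := by
      rw [he', show e - v = 0 by omega]
      simp
    rw [h0, pow_zero, div_one]
    refine htriv.trans ?_
    nlinarith [show (0 : ℝ) < 2 ^ m by positivity]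
  have hve : v + D * e' ≤ e := by
    have : D * e' ≤ e - v := Nat.mul_div_le _ _
    omega
  set s := J - e with hs
  have hJs : J = s + e := by omega
  have hsf : e' ≤ s := by
    have : e' ≤ D * e' := Nat.le_mul_of_pos_left _ (by omega)
    omega
  obtain ⟨R, hR, hR'⟩ := roots_content D q hf v e' e hv hve
  have h0 : (2 : ℝ) ^ J ≠ 0 := by positivity
  -- reduction to one period
  have hper : ∑ n ∈ range (2 ^ m), E ((f.eval (n : ℤ) : ℤ) / 2 ^ J) =
      (2 ^ (m - J) : ℕ) * ∑ n ∈ range (2 ^ J), E ((f.eval (n : ℤ) : ℤ) / 2 ^ J) := by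
    have h1 : (2 : ℕ) ^ m = 2 ^ J * 2 ^ (m - J) := by
      rw [← pow_add]
      congr 1
      omega
    rw [h1, sum_blocks]
    have h2 : ∀ w ∈ range (2 ^ (m - J)), ∑ r ∈ range (2 ^ J),
        E ((f.eval ((r + 2 ^ J * w : ℕ) : ℤ) : ℤ) / 2 ^ J) =
          ∑ n ∈ range (2 ^ J), E ((f.eval (n : ℤ) : ℤ) / 2 ^ J) := by
      intro w _
      apply sum_congr rfl
      intro r _
      obtain ⟨t, ht⟩ := sub_dvd_eval_sub (((r + 2 ^ J * w : ℕ)) : ℤ) (r : ℤ) f
      have h3 : f.eval ((r + 2 ^ J * w : ℕ) : ℤ) = f.eval (r : ℤ) + 2 ^ J * (w * t) := by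
        have h4 : (((r + 2 ^ J * w : ℕ)) : ℤ) - (r : ℤ) = 2 ^ J * w := by
          push_cast
          ring
        rw [h4] at ht
        linarith
      rw [h3, ← E_add_int ((f.eval (r : ℤ) : ℤ) / 2 ^ J) (w * t)]
      congr 1
      push_cast
      field_simp
    rw [sum_congr rfl h2, sum_const, card_range, nsmul_eq_mul]
  have hT : ∀ v2 ∈ range (2 ^ e), ∀ u ∈ range (2 ^ s),
      E ((f.eval ((u + 2 ^ s * v2 : ℕ) : ℤ) : ℤ) / 2 ^ J) =
        E ((f.eval (u : ℤ) : ℤ) / 2 ^ J) * E ((q.eval (u : ℤ) : ℤ) * v2 / 2 ^ e) := by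
    intro v2 _ u _
    obtain ⟨k, hk⟩ := f.binomExpansion (u : ℤ) (2 ^ s * (v2 : ℤ))
    have h1 : ((u + 2 ^ s * v2 : ℕ) : ℤ) = (u : ℤ) + 2 ^ s * (v2 : ℤ) := by
      push_cast
      ring
    rw [h1, hk, ← hq, ← E_add,
      ← E_add_int (((f.eval (u : ℤ) : ℤ) : ℝ) / 2 ^ J + ((q.eval (u : ℤ) : ℤ) : ℝ) * v2 / 2 ^ e)
        (k * v2 ^ 2 * 2 ^ (2 * s - J))]
    congr 1
    have h2 : (2 : ℝ) ^ J = 2 ^ s * 2 ^ e := by rw [← pow_add, ← hJs]
    have h3 : (2 : ℝ) ^ (2 * s) = 2 ^ J * 2 ^ (2 * s - J) := by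
      rw [← pow_add]
      congr 1
      omega
    have h4 : (2 : ℝ) ^ (2 * s) = 2 ^ s * 2 ^ s := by
      rw [← pow_add]
      congr 1
      ring
    have h6 : (2 : ℝ) ^ e ≠ 0 := by positivity
    have h7 : (2 : ℝ) ^ s ≠ 0 := by positivity
    push_cast
    have h8 : (k : ℝ) * (2 ^ s * (v2 : ℝ)) ^ 2 / 2 ^ J = k * v2 ^ 2 * 2 ^ (2 * s - J) := by
      rw [mul_pow, show ((2 : ℝ) ^ s) ^ 2 = 2 ^ s * 2 ^ s by ring, ← h4, h3]
      field_simp
    have h9 : ((q.eval (u : ℤ) : ℤ) : ℝ) * (2 ^ s * (v2 : ℝ)) / 2 ^ J =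
        (q.eval (u : ℤ) : ℤ) * v2 / 2 ^ e := by
      rw [h2]
      field_simp
    rw [add_div, add_div, h8, h9]
  have hsum : ∑ n ∈ range (2 ^ J), E ((f.eval (n : ℤ) : ℤ) / 2 ^ J) =
      ∑ u ∈ range (2 ^ s), E ((f.eval (u : ℤ) : ℤ) / 2 ^ J) *
        ∑ v2 ∈ range (2 ^ e), E ((q.eval (u : ℤ) : ℤ) * v2 / 2 ^ e) := by
    have h1 : (2 : ℕ) ^ J = 2 ^ s * 2 ^ e := by rw [← pow_add, ← hJs]
    rw [h1, sum_blocks, sum_comm]
    apply sum_congr rfl
    intro u hu
    rw [mul_sum]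
    apply sum_congr rfl
    intro v2 hv2
    exact hT v2 hv2 u hu
  set A := (range (2 ^ s)).filter fun u : ℕ => (2 : ℤ) ^ e ∣ q.eval (u : ℤ) with hA
  have hcard : (A.card : ℝ) ≤ D * 2 ^ (s - e') := by
    have h1 : A ⊆ R.biUnion fun r => A.filter fun u : ℕ => (2 : ℤ) ^ e' ∣ (u : ℤ) - r := by
      intro u hu
      obtain ⟨r, hr, hr'⟩ := hR' _ (mem_filter.1 hu).2
      exact mem_biUnion.2 ⟨r, hr, mem_filter.2 ⟨hu, hr'⟩⟩
    have h2 : A.card ≤ R.card * 2 ^ (s - e') := by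
      refine (card_le_card h1).trans (card_biUnion_le_card_mul _ _ _ fun r _ => ?_)
      refine class_count s e' hsf _ ((filter_subset _ _).trans (filter_subset _ _)) ?_
      intro u hu u' hu'
      have h3 := (mem_filter.1 hu).2
      have h4 := (mem_filter.1 hu').2
      have h5 := dvd_sub h3 h4
      rwa [show (u : ℤ) - r - ((u' : ℤ) - r) = (u : ℤ) - u' by ring] at h5
    have h3 : A.card ≤ D * 2 ^ (s - e') := h2.trans (Nat.mul_le_mul_right _ hR)
    exact_mod_cast h3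
  have h2 : ‖∑ n ∈ range (2 ^ J), E ((f.eval (n : ℤ) : ℤ) / 2 ^ J)‖ ≤ A.card * 2 ^ e := by
    rw [hsum]
    calc ‖∑ u ∈ range (2 ^ s), E ((f.eval (u : ℤ) : ℤ) / 2 ^ J) *
          ∑ v2 ∈ range (2 ^ e), E ((q.eval (u : ℤ) : ℤ) * v2 / 2 ^ e)‖ ≤
          ∑ u ∈ range (2 ^ s), ‖E ((f.eval (u : ℤ) : ℤ) / 2 ^ J) *
            ∑ v2 ∈ range (2 ^ e), E ((q.eval (u : ℤ) : ℤ) * v2 / 2 ^ e)‖ := norm_sum_le _ _
      _ ≤ ∑ u ∈ range (2 ^ s), if (2 : ℤ) ^ e ∣ q.eval (u : ℤ) then (2 : ℝ) ^ e else 0 := by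
          apply sum_le_sum
          intro u _
          rw [norm_mul, E_norm, one_mul]
          exact full_sum e _
      _ = A.card * 2 ^ e := by rw [← sum_filter, sum_const, nsmul_eq_mul]
  rw [hper, norm_mul]
  have h3 : ‖((2 ^ (m - J) : ℕ) : ℂ)‖ = (2 : ℝ) ^ (m - J) := by
    rw [Complex.norm_natCast]
    push_cast
    rfl
  rw [h3]
  calc (2 : ℝ) ^ (m - J) * ‖∑ n ∈ range (2 ^ J), E ((f.eval (n : ℤ) : ℤ) / 2 ^ J)‖ ≤
        2 ^ (m - J) * ((D * 2 ^ (s - e')) * 2 ^ e) := by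
        apply mul_le_mul_of_nonneg_left (h2.trans _) (by positivity)
        apply mul_le_mul_of_nonneg_right hcard (by positivity)
    _ = D * 2 ^ m / 2 ^ e' := by
        rw [eq_div_iff (by positivity)]
        have h4 : (2 : ℝ) ^ m = 2 ^ (m - J) * (2 ^ (s - e') * 2 ^ e' * 2 ^ e) := by
          rw [← pow_add, ← pow_add, ← pow_add]
          congr 1
          omega
        rw [h4]
        ring

end Pool.Agent.Lib.MP_86b630_nt.Avg81
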