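import Pool.Agent.Lib.MP_86b630_nt.Avg81.Maximal

set_option autoImplicit false

/-! Most scales are good for most constants. -/

namespace Pool.Agent.Lib.MP_86b630_nt.Avg81

open Finset Polynomial

theorem scales (d k A : ℕ) (hd : 2 ≤ d) : ∃ η : ℝ, 0 < η ∧ ∃ K : ℕ, 1 ≤ K ∧ ∀ P : ℤ[X],
    P.natDegree = d → |P.leadingCoeff| ≤ A → (∀ n : ℕ, 0 ≤ P.eval (n : ℤ)) →
      ∀ M : ℕ, K ≤ M →
      (∀ N₀ : ℕ, M ≤ N₀ → ∃ E : Finset ℕ, (E.card : ℝ) ≤ (M : ℝ) ^ (1 - η) ∧
        ∀ c < M, c ∉ E → ∀ N : ℕ, N₀ ≤ N → (N : ℝ) ≤ N₀ * Real.exp ((M : ℝ) ^ η) →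
          ∀ w : Fin k → Fin 2,
            |(ct P 0 c k w N : ℝ) - N / 2 ^ k| ≤ N * (M : ℝ) ^ (-η)) ∧
      (∃ E : Finset ℕ, (E.card : ℝ) ≤ (M : ℝ) ^ (1 - η) ∧
        ∀ c < M, c ∉ E → ∀ J₀ : ℕ, ∃ J : ℕ, J₀ ≤ J ∧
          ({j : ℕ | j < J ∧ ∃ N : ℕ, 2 ^ j ≤ N ∧ N ≤ 2 ^ (j + 1) ∧ ∃ w : Fin k → Fin 2,
            N * (M : ℝ) ^ (-η) < |(ct P 0 c k w N : ℝ) - N / 2 ^ k|}.ncard : ℝ) ≤
              J * (M : ℝ) ^ (-η)) := by
  classical
  obtain ⟨η₀, hη₀, K0, hK0, hmax⟩ := maximal d k A hd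
  set η := η₀ / 4 with hη
  have hη0 : 0 < η := by positivity
  have h4 : η₀ = 4 * η := by rw [hη]; ring
  obtain ⟨K1, hK1⟩ := exists_nat_ge ((2 : ℝ) ^ (1 / η))
  refine ⟨η, hη0, K0 + K1, by omega, ?_⟩
  intro P hdd hA hP M hKM
  have hM1 : (1 : ℝ) ≤ M := by
    have : 1 ≤ M := by omega
    exact_mod_cast this
  have hM0 : (0 : ℝ) < M := by linarith
  have h2 : (2 : ℝ) ≤ (M : ℝ) ^ η := by
    have h1 : (2 : ℝ) ^ (1 / η) ≤ M := by
      refine hK1.trans ?_
      have : K1 ≤ M := by omega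
      exact_mod_cast this
    have h2 := Real.rpow_le_rpow (by positivity) h1 hη0.le
    rw [← Real.rpow_mul (by positivity), one_div, inv_mul_cancel₀ hη0.ne', Real.rpow_one] at h2
    exact h2
  have hmono : (M : ℝ) ^ (-η₀) ≤ (M : ℝ) ^ (-η) :=
    Real.rpow_le_rpow_of_exponent_le hM1 (by rw [h4]; linarith)
  -- bad sets
  set Bf : ℕ → Finset ℕ := fun N₀ => (range M).filter fun c => ∃ N : ℕ, N₀ ≤ N ∧
    (N : ℝ) ≤ N₀ * Real.exp ((M : ℝ) ^ η₀) ∧ ∃ w : Fin k → Fin 2, N * (M : ℝ) ^ (-η₀) <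
      |(ct P 0 c k w N : ℝ) - N / 2 ^ k| with hBf
  have hBc : ∀ N₀ : ℕ, M ≤ N₀ → ((Bf N₀).card : ℝ) ≤ (M : ℝ) ^ (1 - η₀) := by
    intro N₀ hN₀
    have h1 := hmax P hdd hA 0 (fun n => by rw [add_zero]; exact hP n) M N₀ (by omega) hN₀
    have h2 : {c : ℕ | c < M ∧ ∃ N : ℕ, N₀ ≤ N ∧ (N : ℝ) ≤ N₀ * Real.exp ((M : ℝ) ^ η₀) ∧
        ∃ w : Fin k → Fin 2, N * (M : ℝ) ^ (-η₀) <
          |(ct P 0 c k w N : ℝ) - N / 2 ^ k|} = (Bf N₀ : Set ℕ) := by
      ext c
      rw [hBf, Set.mem_ofPred_eq, mem_coe, mem_filter, mem_range]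
    rw [h2, Set.ncard_coe_finset] at h1
    exact h1
  constructor
  · intro N₀ hN₀
    refine ⟨Bf N₀, (hBc N₀ hN₀).trans ?_, ?_⟩
    · exact Real.rpow_le_rpow_of_exponent_le hM1 (by rw [h4]; linarith)
    · intro c hc hcB N hN1 hN2 w
      by_contra hcon
      rw [not_le] at hcon
      apply hcB
      rw [hBf, mem_filter, mem_range]
      refine ⟨hc, N, hN1, ?_, w, ?_⟩
      · refine hN2.trans ?_
        apply mul_le_mul_of_nonneg_left _ (Nat.cast_nonneg _)
        apply Real.exp_le_exp.2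
        exact Real.rpow_le_rpow_of_exponent_le hM1 (by rw [h4]; linarith)
      · refine lt_of_le_of_lt ?_ hcon
        exact mul_le_mul_of_nonneg_left hmono (Nat.cast_nonneg _)
  · -- bad scales of a constant
    set Sc : ℕ → ℕ → Finset ℕ := fun c J => (range J).filter fun j => ∃ N : ℕ, 2 ^ j ≤ N ∧
      N ≤ 2 ^ (j + 1) ∧ ∃ w : Fin k → Fin 2,
        N * (M : ℝ) ^ (-η) < |(ct P 0 c k w N : ℝ) - N / 2 ^ k| with hSc
    have hScB : ∀ c < M, ∀ J, ∀ j ∈ Sc c J, c ∈ Bf (2 ^ j) := by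
      intro c hc J j hj
      rw [hSc, mem_filter] at hj
      obtain ⟨-, N, hN1, hN2, w, hw⟩ := hj
      rw [hBf, mem_filter, mem_range]
      refine ⟨hc, N, hN1, ?_, w, ?_⟩
      · have h3 : (2 : ℝ) ≤ Real.exp ((M : ℝ) ^ η₀) := by
          have h4 := Real.add_one_le_exp ((M : ℝ) ^ η₀)
          have h5 : (1 : ℝ) ≤ (M : ℝ) ^ η₀ := Real.one_le_rpow hM1 hη₀.le
          linarith
        have h4 : (N : ℝ) ≤ 2 ^ (j + 1) := by exact_mod_cast hN2
        calc (N : ℝ) ≤ 2 ^ (j + 1) := h4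
          _ = 2 ^ j * 2 := pow_succ _ _
          _ ≤ (2 ^ j : ℕ) * Real.exp ((M : ℝ) ^ η₀) := by
              push_cast
              apply mul_le_mul_of_nonneg_left h3 (by positivity)
      · refine lt_of_le_of_lt ?_ hw
        exact mul_le_mul_of_nonneg_left hmono (Nat.cast_nonneg _)
    set E : Finset ℕ := (range M).filter fun c => ∃ J₀ : ℕ, ∀ J : ℕ, J₀ ≤ J →
      J * (M : ℝ) ^ (-η) < ((Sc c J).card : ℝ) with hE
    have hcardSc : ∀ c J, ({j : ℕ | j < J ∧ ∃ N : ℕ, 2 ^ j ≤ N ∧ N ≤ 2 ^ (j + 1) ∧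
        ∃ w : Fin k → Fin 2,
            N * (M : ℝ) ^ (-η) < |(ct P 0 c k w N : ℝ) - N / 2 ^ k|}.ncard : ℝ) =
        ((Sc c J).card : ℝ) := by
      intro c J
      have h2 : {j : ℕ | j < J ∧ ∃ N : ℕ, 2 ^ j ≤ N ∧ N ≤ 2 ^ (j + 1) ∧
        ∃ w : Fin k → Fin 2, N * (M : ℝ) ^ (-η) <
          |(ct P 0 c k w N : ℝ) - N / 2 ^ k|} = (Sc c J : Set ℕ) := by
        ext j
        rw [hSc, Set.mem_ofPred_eq, mem_coe, mem_filter, mem_range]
      rw [h2, Set.ncard_coe_finset]
    refine ⟨E, ?_, ?_⟩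
    · have h1 : ∀ c ∈ E, ∃ J₀ : ℕ, ∀ J : ℕ, J₀ ≤ J →
          J * (M : ℝ) ^ (-η) < ((Sc c J).card : ℝ) := by
        intro c hc
        rw [hE, mem_filter] at hc
        exact hc.2
      choose! f hf using h1
      obtain ⟨J1, hJ1⟩ := exists_nat_ge ((M : ℝ) * (M : ℝ) ^ η₀)
      set J := (range M).sup f + J1 + 1 with hJ
      have hJ0 : (0 : ℝ) < J := by
        have : 0 < J := by omega
        exact_mod_cast this
      have hJr : (M : ℝ) * (M : ℝ) ^ η₀ ≤ J := by
        refine hJ1.trans ?_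
        have : J1 ≤ J := by omega
        exact_mod_cast this
      have h3 : ∀ c ∈ E, J * (M : ℝ) ^ (-η) ≤ ((Sc c J).card : ℝ) := by
        intro c hc
        apply (hf c hc J _).le
        rw [hE, mem_filter] at hc
        have := le_sup (f := f) hc.1
        omega
      have h5 : (E.card : ℝ) * (J * (M : ℝ) ^ (-η)) ≤ ∑ c ∈ range M, ((Sc c J).card : ℝ) := by
        calc (E.card : ℝ) * (J * (M : ℝ) ^ (-η)) = ∑ c ∈ E, J * (M : ℝ) ^ (-η) := by
              rw [sum_const, nsmul_eq_mul]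
          _ ≤ ∑ c ∈ E, ((Sc c J).card : ℝ) := sum_le_sum h3
          _ ≤ ∑ c ∈ range M, ((Sc c J).card : ℝ) := by
              apply sum_le_sum_of_subset_of_nonneg (filter_subset _ _)
              intro _ _ _
              exact Nat.cast_nonneg _
      have h6 : ∑ c ∈ range M, ((Sc c J).card : ℝ) ≤ ∑ j ∈ range J, ((Bf (2 ^ j)).card : ℝ) := by
        have h7 : ∀ c ∈ range M, ((Sc c J).card : ℝ) ≤
            ∑ j ∈ range J, (if c ∈ Bf (2 ^ j) then (1 : ℝ) else 0) := by
          intro c hc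
          have h8 : Sc c J ⊆ (range J).filter fun j => c ∈ Bf (2 ^ j) := by
            intro j hj
            rw [mem_filter]
            refine ⟨?_, hScB c (mem_range.1 hc) J j hj⟩
            rw [hSc, mem_filter] at hj
            exact hj.1
          calc ((Sc c J).card : ℝ) ≤ (((range J).filter fun j => c ∈ Bf (2 ^ j)).card : ℝ) := by
                exact_mod_cast card_le_card h8
            _ = _ := by
                rw [card_filter]
                push_cast
                rfl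
        refine (sum_le_sum h7).trans ?_
        rw [sum_comm]
        apply sum_le_sum
        intro j _
        have h8 : ∑ c ∈ range M, (if c ∈ Bf (2 ^ j) then (1 : ℝ) else 0) =
            (((range M).filter fun c => c ∈ Bf (2 ^ j)).card : ℝ) := by
          rw [card_filter]
          push_cast
          rfl
        rw [h8]
        exact_mod_cast card_le_card (by
          intro c hc
          rw [mem_filter] at hc
          exact hc.2)
      have h7 : ∑ j ∈ range J, ((Bf (2 ^ j)).card : ℝ) ≤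
          ∑ j ∈ range J, ((if j < M then (M : ℝ) else 0) + (M : ℝ) ^ (1 - η₀)) := by
        apply sum_le_sum
        intro j _
        have h9 : (0 : ℝ) ≤ (M : ℝ) ^ (1 - η₀) := by positivity
        by_cases hj : j < M
        · rw [if_pos hj]
          have h8 : (Bf (2 ^ j)).card ≤ M := by
            calc (Bf (2 ^ j)).card ≤ (range M).card := card_le_card (filter_subset _ _)
              _ = M := card_range M
          have : ((Bf (2 ^ j)).card : ℝ) ≤ M := by exact_mod_cast h8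
          linarith
        · rw [if_neg hj, zero_add]
          apply hBc
          exact (not_lt.1 hj).trans Nat.lt_two_pow_self.le
      have h8 : ∑ j ∈ range J, ((if j < M then (M : ℝ) else 0) + (M : ℝ) ^ (1 - η₀)) ≤
          M * M + J * (M : ℝ) ^ (1 - η₀) := by
        rw [sum_add_distrib, sum_const, card_range, nsmul_eq_mul]
        have h9 : ∑ j ∈ range J, (if j < M then (M : ℝ) else 0) ≤ M * M := by
          rw [← sum_filter, sum_const, nsmul_eq_mul]
          apply mul_le_mul_of_nonneg_right _ hM0.le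
          have h10 : ((range J).filter fun j => j < M).card ≤ M := by
            calc ((range J).filter fun j => j < M).card ≤ (range M).card := by
                  apply card_le_card
                  intro j hj
                  rw [mem_filter] at hj
                  exact mem_range.2 hj.2
              _ = M := card_range M
          exact_mod_cast h10
        linarith
      have h9 : (M : ℝ) * M ≤ J * (M : ℝ) ^ (1 - η₀) := by
        calc (M : ℝ) * M = M * (M : ℝ) ^ η₀ * (M : ℝ) ^ (1 - η₀) := by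
              rw [mul_assoc, ← Real.rpow_add hM0]
              congr 1
              rw [show η₀ + (1 - η₀) = 1 by ring, Real.rpow_one]
          _ ≤ J * (M : ℝ) ^ (1 - η₀) := mul_le_mul_of_nonneg_right hJr (by positivity)
      have h10 : (E.card : ℝ) * (J * (M : ℝ) ^ (-η)) ≤
          (M : ℝ) ^ (1 - η) * (J * (M : ℝ) ^ (-η)) := by
        calc (E.card : ℝ) * (J * (M : ℝ) ^ (-η)) ≤ 2 * (J * (M : ℝ) ^ (1 - η₀)) := by linarith
          _ ≤ (M : ℝ) ^ η * (J * (M : ℝ) ^ (1 - η₀)) := by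
              apply mul_le_mul_of_nonneg_right h2 (by positivity)
          _ = J * (M : ℝ) ^ (η + (1 - η₀)) := by
              rw [Real.rpow_add hM0]
              ring
          _ ≤ J * (M : ℝ) ^ ((1 - η) + (-η)) := by
              apply mul_le_mul_of_nonneg_left _ hJ0.le
              apply Real.rpow_le_rpow_of_exponent_le hM1
              rw [h4]
              linarith
          _ = (M : ℝ) ^ (1 - η) * (J * (M : ℝ) ^ (-η)) := by
              rw [Real.rpow_add hM0]
              ring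
      exact le_of_mul_le_mul_right h10 (by positivity)
    · intro c hc hcE J₀
      by_contra hcon
      push Not at hcon
      apply hcE
      rw [hE, mem_filter, mem_range]
      refine ⟨hc, J₀, fun J hJ => ?_⟩
      have := hcon J hJ
      rw [hcardSc] at this
      exact this

end Pool.Agent.Lib.MP_86b630_nt.Avg81
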