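import Pool.Agent.Lib.MP_86b630_nt.Avg81.Maximal

set_option autoImplicit false

/-! Normality after a slowly growing change of the constant term. -/

namespace Pool.Agent.Lib.MP_86b630_nt.Avg81

open Finset Polynomial Filter Topology

lemma good_block (P : ℤ[X]) (hd : 2 ≤ P.natDegree) (hP : ∀ n : ℕ, 0 ≤ P.eval (n : ℤ)) (r : ℕ) :
    ∃ M j₀ : ℕ, ∀ j : ℕ, j₀ ≤ j → ∃ c : ℕ, c < M ∧ ∀ k ≤ r, ∀ N : ℕ, 2 ^ j ≤ N →
      N ≤ 2 ^ (j + 1) → ∀ w : Fin k → Fin 2,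
        |(ct P 0 c k w N : ℝ) - N / 2 ^ k| ≤ N * (1 / (r + 1)) := by
  classical
  have h1 : ∀ k : ℕ, ∃ η : ℝ, 0 < η ∧ ∃ K : ℕ, 1 ≤ K ∧ ∀ M N₀ : ℕ, K ≤ M → M ≤ N₀ →
      ({c : ℕ | c < M ∧ ∃ N : ℕ, N₀ ≤ N ∧ (N : ℝ) ≤ N₀ * Real.exp ((M : ℝ) ^ η) ∧
        ∃ w : Fin k → Fin 2, N * (M : ℝ) ^ (-η) <
          |(ct P 0 c k w N : ℝ) - N / 2 ^ k|}.ncard : ℝ) ≤ (M : ℝ) ^ (1 - η) := by
    intro k
    obtain ⟨η, hη, K, hK, h2⟩ := maximal P.natDegree k P.leadingCoeff.natAbs hd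
    refine ⟨η, hη, K, hK, h2 P rfl ?_ 0 ?_⟩
    · rw [Int.natCast_natAbs]
    · intro n
      rw [add_zero]
      exact hP n
  choose η hη K hK hmax using h1
  have h2 : ∀ᶠ M : ℕ in atTop, ∀ k ∈ range (r + 1), K k ≤ M ∧
      (M : ℝ) ^ (-(η k)) ≤ 1 / (2 * (r + 1)) := by
    rw [Filter.eventually_all_finset]
    intro k _
    have h3 : Tendsto (fun M : ℕ => (M : ℝ) ^ (-(η k))) atTop (𝓝 0) :=
      (tendsto_rpow_neg_atTop (hη k)).comp tendsto_natCast_atTop_atTop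
    exact (eventually_ge_atTop (K k)).and
      (h3.eventually_le_const (show (0 : ℝ) < 1 / (2 * (r + 1)) by positivity))
  obtain ⟨M, hM, hM1⟩ := (h2.and (eventually_ge_atTop 1)).exists
  have hM1r : (1 : ℝ) ≤ M := by exact_mod_cast hM1
  have hM0 : (0 : ℝ) < M := by linarith
  refine ⟨M, M, fun j hj => ?_⟩
  have hMj : M ≤ 2 ^ j := (hj.trans Nat.lt_two_pow_self.le)
  set Bd : ℕ → Set ℕ := fun k =>
    {c : ℕ | c < M ∧ ∃ N : ℕ, 2 ^ j ≤ N ∧ (N : ℝ) ≤ (2 ^ j : ℕ) * Real.exp ((M : ℝ) ^ (η k)) ∧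
        ∃ w : Fin k → Fin 2, N * (M : ℝ) ^ (-(η k)) <
          |(ct P 0 c k w N : ℝ) - N / 2 ^ k|} with hBd
  set Bf : ℕ → Finset ℕ := fun k => (range M).filter fun c => c ∈ Bd k with hBf
  have hBc : ∀ k ∈ range (r + 1), ((Bf k).card : ℝ) ≤ M * (1 / (2 * (r + 1))) := by
    intro k hk
    have h3 := hmax k M (2 ^ j) (hM k hk).1 hMj
    have h4 : Bd k = (Bf k : Set ℕ) := by
      ext c
      rw [hBf, mem_coe, mem_filter, mem_range]
      constructor
      · intro hc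
        exact ⟨hc.1, hc⟩
      · intro hc
        exact hc.2
    have h5 : ((Bd k).ncard : ℝ) ≤ (M : ℝ) ^ (1 - η k) := h3
    rw [h4, Set.ncard_coe_finset] at h5
    refine h5.trans ?_
    rw [sub_eq_add_neg, Real.rpow_add hM0, Real.rpow_one]
    exact mul_le_mul_of_nonneg_left (hM k hk).2 hM0.le
  have hcard : (((range (r + 1)).biUnion Bf).card : ℝ) < M := by
    calc (((range (r + 1)).biUnion Bf).card : ℝ) ≤ ∑ k ∈ range (r + 1), ((Bf k).card : ℝ) := by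
          exact_mod_cast card_biUnion_le
      _ ≤ ∑ k ∈ range (r + 1), (M : ℝ) * (1 / (2 * (r + 1))) := sum_le_sum hBc
      _ = M / 2 := by
          rw [sum_const, card_range, nsmul_eq_mul]
          push_cast
          field_simp
      _ < M := by linarith
  obtain ⟨c, hcM, hc⟩ : ∃ c ∈ range M, c ∉ (range (r + 1)).biUnion Bf := by
    by_contra hcon
    push Not at hcon
    have h3 : M ≤ ((range (r + 1)).biUnion Bf).card := by
      calc M = (range M).card := (card_range M).symm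
        _ ≤ _ := card_le_card hcon
    have h4 : (M : ℝ) ≤ ((range (r + 1)).biUnion Bf).card := by exact_mod_cast h3
    linarith
  rw [mem_range] at hcM
  refine ⟨c, hcM, fun k hk N hN1 hN2 w => ?_⟩
  by_contra hcon
  rw [not_le] at hcon
  apply hc
  rw [mem_biUnion]
  refine ⟨k, by rw [mem_range]; omega, ?_⟩
  rw [hBf, mem_filter, mem_range]
  refine ⟨hcM, hcM, N, hN1, ?_, w, ?_⟩
  · have h3 : (2 : ℝ) ≤ Real.exp ((M : ℝ) ^ (η k)) := by
      have h4 := Real.add_one_le_exp ((M : ℝ) ^ (η k))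
      have h5 : (1 : ℝ) ≤ (M : ℝ) ^ (η k) := Real.one_le_rpow hM1r (hη k).le
      linarith
    have h4 : (N : ℝ) ≤ 2 ^ (j + 1) := by exact_mod_cast hN2
    calc (N : ℝ) ≤ 2 ^ (j + 1) := h4
      _ = 2 ^ j * 2 := pow_succ _ _
      _ ≤ (2 ^ j : ℕ) * Real.exp ((M : ℝ) ^ (η k)) := by
          push_cast
          apply mul_le_mul_of_nonneg_left h3 (by positivity)
  · refine lt_of_le_of_lt ?_ hcon
    apply mul_le_mul_of_nonneg_left _ (Nat.cast_nonneg _)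
    refine (hM k (by rw [mem_range]; omega)).2.trans ?_
    apply one_div_le_one_div_of_le (by positivity)
    have : (0 : ℝ) ≤ r := Nat.cast_nonneg r
    linarith

lemma good_choice (P : ℤ[X]) (hd : 2 ≤ P.natDegree) (hP : ∀ n : ℕ, 0 ≤ P.eval (n : ℤ))
    (h : ℕ → ℕ) (hh : Tendsto h atTop atTop) : ∃ c : ℕ → ℕ, (∀ j, c j ≤ h j) ∧ ∀ r : ℕ,
      ∀ᶠ j in atTop, ∀ k ≤ r, ∀ N : ℕ, 2 ^ j ≤ N → N ≤ 2 ^ (j + 1) → ∀ w : Fin k → Fin 2,
        |(ct P 0 (c j) k w N : ℝ) - N / 2 ^ k| ≤ N * (1 / (r + 1)) := by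
  classical
  choose M j₀ hg using good_block P hd hP
  choose! cc hcc hcg using hg
  set Q : ℕ → ℕ → Prop := fun j r => j₀ r ≤ j ∧ M r ≤ h j with hQ
  set rr : ℕ → ℕ := fun j => Nat.findGreatest (Q j) j with hrr
  refine ⟨fun j => if Q j (rr j) then cc (rr j) j else 0, fun j => ?_, fun r => ?_⟩
  · simp only
    split_ifs with hq
    · exact (hcc (rr j) j hq.1).le.trans hq.2
    · exact Nat.zero_le _
  · filter_upwards [eventually_ge_atTop (j₀ r), eventually_ge_atTop r,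
      hh.eventually_ge_atTop (M r)] with j hj1 hj2 hj3
    intro k hk N hN1 hN2 w
    have hq : Q j r := ⟨hj1, hj3⟩
    have h1 : r ≤ rr j := Nat.le_findGreatest hj2 hq
    have h2 : Q j (rr j) := Nat.findGreatest_spec hj2 hq
    simp only [if_pos h2]
    refine (hcg (rr j) j h2.1 k (hk.trans h1) N hN1 hN2 w).trans ?_
    apply mul_le_mul_of_nonneg_left _ (Nat.cast_nonneg _)
    apply one_div_le_one_div_of_le (by positivity)
    have : (r : ℝ) ≤ rr j := by exact_mod_cast h1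
    linarith

/-- A slowly growing change of the constant term, constant on dyadic blocks, makes the sequence
normal. -/
theorem slow (P : ℤ[X]) (hd : 2 ≤ P.natDegree) (hP : ∀ n : ℕ, 0 ≤ P.eval (n : ℤ))
    (h : ℕ → ℕ) (hh : Tendsto h atTop atTop) : ∃ c : ℕ → ℕ, (∀ j, c j ≤ h j) ∧
      ∀ (k : ℕ) (w : Fin k → Fin 2), Tendsto (fun N : ℕ =>
        (#{n ∈ range N | ∀ i : Fin k, (Nat.digits 2 (P.eval ((n + i : ℕ) : ℤ) +
          c (Nat.log 2 (n + i))).toNat).sum % 2 = (w i : ℕ)} : ℝ) / N) atTop (𝓝 (1 / 2 ^ k)) := by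
  classical
  obtain ⟨c, hch, hc⟩ := good_choice P hd hP h hh
  refine ⟨c, hch, fun k w => ?_⟩
  set u : ℕ → ℝ := fun n => if ∀ i : Fin k, (Nat.digits 2 (P.eval ((n + i : ℕ) : ℤ) +
          c (Nat.log 2 (n + i))).toNat).sum % 2 = (w i : ℕ) then 1 else 0 with hu
  set v : ℕ → ℕ → ℝ := fun j n => if ∀ i : Fin k, (Nat.digits 2 (P.eval ((n + i : ℕ) : ℤ) + 0 +
          c j).toNat).sum % 2 = (w i : ℕ) then 1 else 0 with hv
  have hU : ∀ N : ℕ, (#{n ∈ range N | ∀ i : Fin k, (Nat.digits 2 (P.eval ((n + i : ℕ) : ℤ) +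
          c (Nat.log 2 (n + i))).toNat).sum % 2 = (w i : ℕ)} : ℝ) = ∑ n ∈ range N, u n := by
    intro N
    rw [card_filter]
    push_cast
    rfl
  have hV : ∀ j N : ℕ, (ct P 0 (c j) k w N : ℝ) = ∑ n ∈ range N, v j n := by
    intro j N
    unfold ct
    rw [card_filter]
    push_cast
    rfl
  simp only [hU]
  have hu01 : ∀ n, 0 ≤ u n ∧ u n ≤ 1 := by
    intro n
    rw [hu]
    simp only
    split_ifs <;> norm_num
  have huv : ∀ j n : ℕ, 2 ^ j ≤ n → n < 2 ^ (j + 1) →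
      |u n - v j n| ≤ if 2 ^ (j + 1) ≤ n + k then 1 else 0 := by
    intro j n hn1 hn2
    by_cases hk : 2 ^ (j + 1) ≤ n + k
    · rw [if_pos hk, hu, hv]
      simp only
      split_ifs <;> norm_num
    · rw [if_neg hk]
      have h1 : ∀ i : Fin k, Nat.log 2 (n + i) = j := by
        intro i
        have := i.2
        exact Nat.log_eq_of_pow_le_of_lt_pow (by omega) (by omega)
      have h2 : u n = v j n := by
        rw [hu, hv]
        simp only [h1, add_zero]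
      rw [h2, sub_self, abs_zero]
  have hblock : ∀ j N : ℕ, 2 ^ j ≤ N → N ≤ 2 ^ (j + 1) →
      |(∑ n ∈ range N, u n - ∑ n ∈ range (2 ^ j), u n) -
        ((ct P 0 (c j) k w N : ℝ) - ct P 0 (c j) k w (2 ^ j))| ≤ k := by
    intro j N hN1 hN2
    rw [hV, hV, ← sum_Ico_eq_sub _ hN1, ← sum_Ico_eq_sub _ hN1, ← sum_sub_distrib]
    calc |∑ n ∈ Ico (2 ^ j) N, (u n - v j n)| ≤ ∑ n ∈ Ico (2 ^ j) N, |u n - v j n| :=
          abs_sum_le_sum_abs _ _
      _ ≤ ∑ n ∈ Ico (2 ^ j) N, (if 2 ^ (j + 1) ≤ n + k then (1 : ℝ) else 0) := by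
          apply sum_le_sum
          intro n hn
          rw [mem_Ico] at hn
          exact huv j n hn.1 (by omega)
      _ = (((Ico (2 ^ j) N).filter fun n => 2 ^ (j + 1) ≤ n + k).card : ℝ) := by
          rw [card_filter]
          push_cast
          rfl
      _ ≤ k := by
          have h1 : ((Ico (2 ^ j) N).filter fun n => 2 ^ (j + 1) ≤ n + k) ⊆
              Ico (2 ^ (j + 1) - k) (2 ^ (j + 1)) := by
            intro n hn
            rw [mem_filter, mem_Ico] at hn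
            rw [mem_Ico]
            omega
          have h2 := card_le_card h1
          rw [Nat.card_Ico] at h2
          have h3 : ((Ico (2 ^ j) N).filter fun n => 2 ^ (j + 1) ≤ n + k).card ≤ k := by omega
          exact_mod_cast h3
  set F : ℕ → ℝ := fun N => ∑ n ∈ range N, u n - N / 2 ^ k with hF
  rw [Metric.tendsto_atTop]
  intro ε' hε'
  obtain ⟨r0, hr0⟩ := exists_nat_ge (8 / ε')
  set r := r0 + k with hr
  set ε : ℝ := 1 / (r + 1) with hε
  have hε0 : 0 < ε := by positivity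
  have hεε' : 7 * ε < ε' := by
    rw [hε, mul_one_div, div_lt_iff₀ (by positivity)]
    rw [div_le_iff₀ hε'] at hr0
    have h1 : (r0 : ℝ) ≤ r := by
      rw [hr]
      push_cast
      linarith [Nat.cast_nonneg (α := ℝ) k]
    have h2 : (r0 : ℝ) * ε' ≤ r * ε' := mul_le_mul_of_nonneg_right h1 hε'.le
    nlinarith
  obtain ⟨j1, hj1⟩ := eventually_atTop.1 (hc r)
  have hstep : ∀ j N : ℕ, j1 ≤ j → 2 ^ j ≤ N → N ≤ 2 ^ (j + 1) →
      |F N - F (2 ^ j)| ≤ k + 3 * ε * 2 ^ j := by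
    intro j N hj hN1 hN2
    have h1 := hblock j N hN1 hN2
    have h2 := hj1 j hj k (by omega) N hN1 hN2 w
    have h3 := hj1 j hj k (by omega) (2 ^ j) le_rfl (Nat.pow_le_pow_right (by norm_num) (by omega)) w
    have h4 : F N - F (2 ^ j) = ((∑ n ∈ range N, u n - ∑ n ∈ range (2 ^ j), u n) -
        ((ct P 0 (c j) k w N : ℝ) - ct P 0 (c j) k w (2 ^ j))) +
        (((ct P 0 (c j) k w N : ℝ) - N / 2 ^ k) -
          ((ct P 0 (c j) k w (2 ^ j) : ℝ) - (2 ^ j : ℕ) / 2 ^ k)) := by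
      rw [hF]
      ring
    rw [h4]
    refine (abs_add_le _ _).trans ?_
    have h5 := abs_sub ((ct P 0 (c j) k w N : ℝ) - N / 2 ^ k)
      ((ct P 0 (c j) k w (2 ^ j) : ℝ) - (2 ^ j : ℕ) / 2 ^ k)
    have h6 : (N : ℝ) ≤ 2 * 2 ^ j := by
      have : (N : ℝ) ≤ 2 ^ (j + 1) := by exact_mod_cast hN2
      rw [pow_succ] at this
      linarith
    have h7 : (N : ℝ) * ε ≤ 2 * 2 ^ j * ε := mul_le_mul_of_nonneg_right h6 hε0.le
    push_cast at h3 h5 ⊢
    linarith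
  have hF0 : ∀ N : ℕ, |F N| ≤ N := by
    intro N
    have h1 : 0 ≤ ∑ n ∈ range N, u n := sum_nonneg fun n _ => (hu01 n).1
    have h2 : ∑ n ∈ range N, u n ≤ N := by
      calc ∑ n ∈ range N, u n ≤ ∑ n ∈ range N, (1 : ℝ) := sum_le_sum fun n _ => (hu01 n).2
        _ = N := by simp
    have h3 : (0 : ℝ) ≤ (N : ℝ) / 2 ^ k := by positivity
    have h4 : (N : ℝ) / 2 ^ k ≤ N := div_le_self (Nat.cast_nonneg _) (one_le_pow₀ (by norm_num))
    rw [hF, abs_le]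
    constructor <;> linarith
  have hdy : ∀ j, j1 ≤ j → |F (2 ^ j)| ≤ 2 ^ j1 + k * j + 3 * ε * 2 ^ j := by
    intro j hj
    induction j, hj using Nat.le_induction with
    | base =>
      have h1 := hF0 (2 ^ j1)
      push_cast at h1
      have h2 : (0 : ℝ) ≤ k * j1 + 3 * ε * 2 ^ j1 := by positivity
      linarith
    | succ j hj ih =>
      have h1 := hstep j (2 ^ (j + 1)) hj (Nat.pow_le_pow_right (by norm_num) (by omega)) le_rfl
      have h2 := abs_add_le (F (2 ^ (j + 1)) - F (2 ^ j)) (F (2 ^ j))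
      rw [sub_add_cancel] at h2
      have h3 : (2 : ℝ) ^ (j + 1) = 2 ^ j * 2 := pow_succ _ _
      push_cast
      rw [h3]
      linarith
  have hlim : ∀ᶠ J : ℕ in atTop, (2 : ℝ) ^ j1 + k * (J + 1) ≤ ε * 2 ^ J := by
    have h1 : Tendsto (fun n : ℕ => (n : ℝ) ^ 1 / (2 : ℝ) ^ n) atTop (𝓝 0) :=
      tendsto_pow_const_div_const_pow_of_one_lt 1 (by norm_num)
    have h2 : Tendsto (fun n : ℕ => (n : ℝ) ^ 0 / (2 : ℝ) ^ n) atTop (𝓝 0) :=
      tendsto_pow_const_div_const_pow_of_one_lt 0 (by norm_num)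
    have h3 : Tendsto (fun n : ℕ => ((2 : ℝ) ^ j1 + k) * ((n : ℝ) ^ 0 / (2 : ℝ) ^ n) +
        k * ((n : ℝ) ^ 1 / (2 : ℝ) ^ n)) atTop (𝓝 (((2 : ℝ) ^ j1 + k) * 0 + k * 0)) :=
      (h2.const_mul _).add (h1.const_mul _)
    rw [mul_zero, mul_zero, add_zero] at h3
    filter_upwards [h3.eventually_le_const hε0] with J hJ
    have h4 : ((2 : ℝ) ^ j1 + k) * ((J : ℝ) ^ 0 / (2 : ℝ) ^ J) +
        k * ((J : ℝ) ^ 1 / (2 : ℝ) ^ J) = ((2 : ℝ) ^ j1 + k * (J + 1)) / 2 ^ J := by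
      rw [pow_zero, pow_one]
      ring
    rw [h4, div_le_iff₀ (by positivity)] at hJ
    exact hJ
  obtain ⟨J0, hJ0⟩ := eventually_atTop.1 hlim
  refine ⟨2 ^ (J0 + j1), fun N hN => ?_⟩
  have hN0 : N ≠ 0 := by
    have : 0 < 2 ^ (J0 + j1) := by positivity
    omega
  set J := Nat.log 2 N with hJ
  have hJge : J0 + j1 ≤ J := Nat.le_log_of_pow_le (by norm_num) hN
  have h2J : 2 ^ J ≤ N := Nat.pow_log_le_self 2 hN0
  have h2J1 : N ≤ 2 ^ (J + 1) := (Nat.lt_pow_succ_log_self (by norm_num) N).le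
  have h1 := hstep J N (by omega) h2J h2J1
  have h2 := hdy J (by omega)
  have h3 := hJ0 J (by omega)
  have h4 := abs_add_le (F N - F (2 ^ J)) (F (2 ^ J))
  rw [sub_add_cancel] at h4
  have h2Jr : (2 : ℝ) ^ J ≤ N := by exact_mod_cast h2J
  have hNpos : (0 : ℝ) < N := by
    have : 0 < N := Nat.pos_of_ne_zero hN0
    exact_mod_cast this
  have h5 : |F N| ≤ 7 * ε * N := by
    have h6 : ε * (2 : ℝ) ^ J ≤ ε * N := mul_le_mul_of_nonneg_left h2Jr hε0.le
    nlinarith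
  rw [Real.dist_eq]
  have h6 : (∑ n ∈ range N, u n) / (N : ℝ) - 1 / 2 ^ k = F N / N := by
    rw [hF]
    field_simp
  rw [h6, abs_div, abs_of_pos hNpos, div_lt_iff₀ hNpos]
  calc |F N| ≤ 7 * ε * N := h5
    _ < ε' * N := mul_lt_mul_of_pos_right hεε' hNpos

end Pool.Agent.Lib.MP_86b630_nt.Avg81
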