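import Mathlib

set_option autoImplicit false

/-! Cancellation over digit windows. -/

namespace Pool.Agent.Lib.MP_86b630_nt.Avg81

open Finset

/-- `(-1)` to the binary sum of digits. -/
def chi (n : ℕ) : ℤ := (-1) ^ (Nat.digits 2 n).sum

lemma chi_zero : chi 0 = 1 := by simp [chi]

lemma chi_two_mul_add (n r : ℕ) (hr : r < 2) : chi (2 * n + r) = (-1) ^ r * chi n := by
  rcases Nat.eq_zero_or_pos (2 * n + r) with h | h
  · have h1 : n = 0 := by omega
    have h2 : r = 0 := by omega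
    subst h1 h2
    simp [chi]
  · unfold chi
    rw [Nat.digits_def' (by norm_num) h]
    have h1 : (2 * n + r) % 2 = r := by omega
    have h2 : (2 * n + r) / 2 = n := by omega
    rw [h1, h2, List.sum_cons, pow_add]

lemma chi_add_mul_pow : ∀ (e a b : ℕ), a < 2 ^ e → chi (a + 2 ^ e * b) = chi a * chi b := by
  intro e
  induction e with
  | zero =>
    intro a b ha
    have : a = 0 := by simpa using ha
    subst this
    simp [chi_zero]
  | succ e ih =>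
    intro a b ha
    have h1 : a = 2 * (a / 2) + a % 2 := by omega
    have h2 : a + 2 ^ (e + 1) * b = 2 * (a / 2 + 2 ^ e * b) + a % 2 := by
      rw [pow_succ]
      have : 2 ^ e * 2 * b = 2 * (2 ^ e * b) := by ring
      omega
    have h3 : a / 2 < 2 ^ e := by
      rw [pow_succ] at ha
      omega
    have h4 : chi a = (-1) ^ (a % 2) * chi (a / 2) := by
      conv_lhs => rw [h1]
      exact chi_two_mul_add _ _ (Nat.mod_lt _ (by norm_num))
    rw [h2, chi_two_mul_add _ _ (Nat.mod_lt _ (by norm_num)), ih _ _ h3, h4]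
    ring

lemma chi_sq (n : ℕ) : chi n * chi n = 1 := by
  unfold chi
  rw [← mul_pow]
  simp

lemma chi_abs (n : ℕ) : |chi n| = 1 := by
  unfold chi
  rw [abs_pow]
  simp

lemma chi_pow_mul (e b : ℕ) : chi (2 ^ e * b) = chi b := by
  have := chi_add_mul_pow e 0 b (by positivity)
  simpa [chi_zero] using this

lemma chi_one : chi 1 = -1 := by
  have := chi_two_mul_add 0 1 (by norm_num)
  simpa [chi_zero] using this

lemma chi_pow (e : ℕ) : chi (2 ^ e) = -1 := by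
  have := chi_pow_mul e 1
  rw [mul_one, chi_one] at this
  exact this

/-- The value of `chi` when only an even window changes. -/
lemma chi_window (j b u τ lo hi : ℕ) (hu : (u / 2 ^ j) % 2 ^ b = 2 * τ) (hlo : lo < 2 ^ j) :
    ∃ C : ℤ, ∀ ζ : ℕ, 2 * τ + 2 * ζ + 1 < 2 ^ b →
      chi (u + (lo + 2 ^ j * (2 * ζ) + 2 ^ (j + b) * hi)) = C * chi (τ + ζ) := by
  have hpos : 0 < 2 ^ j := by positivity
  set l := (u % 2 ^ j + lo) % 2 ^ j with hl
  set κ := (u % 2 ^ j + lo) / 2 ^ j with hκ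
  have hlκ : u % 2 ^ j + lo = l + 2 ^ j * κ := (Nat.mod_add_div (u % 2 ^ j + lo) (2 ^ j)).symm
  have hl1 : l < 2 ^ j := Nat.mod_lt _ hpos
  have hκ1 : κ < 2 := by
    have h1 : u % 2 ^ j < 2 ^ j := Nat.mod_lt _ hpos
    apply Nat.div_lt_of_lt_mul
    omega
  refine ⟨chi l * (-1) ^ κ * chi (u / 2 ^ j / 2 ^ b + hi), fun ζ hζ => ?_⟩
  have h2 : u = u % 2 ^ j + 2 ^ j * (2 * τ + 2 ^ b * (u / 2 ^ j / 2 ^ b)) := by
    have h3 := Nat.mod_add_div u (2 ^ j)
    have h4 := Nat.mod_add_div (u / 2 ^ j) (2 ^ b)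
    rw [hu] at h4
    rw [h4]
    omega
  have h5 : u + (lo + 2 ^ j * (2 * ζ) + 2 ^ (j + b) * hi) =
      l + 2 ^ j * ((2 * (τ + ζ) + κ) + 2 ^ b * (u / 2 ^ j / 2 ^ b + hi)) := by
    have h6 : u + (lo + 2 ^ j * (2 * ζ) + 2 ^ (j + b) * hi) =
        (u % 2 ^ j + lo) + 2 ^ j * (2 * τ + 2 ^ b * (u / 2 ^ j / 2 ^ b)) +
          2 ^ j * (2 * ζ) + 2 ^ (j + b) * hi := by
      conv_lhs => rw [h2]
      ring
    rw [h6, hlκ, pow_add]
    ring
  rw [h5, chi_add_mul_pow j l _ hl1, chi_add_mul_pow b _ _ (by omega),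
    chi_two_mul_add _ _ hκ1]
  ring

/-- Swapping the window values `0` and `y` changes the sign. -/
def Sw (b y : ℕ) (g : ℕ → ℝ) (j : ℕ) : Prop :=
  ∀ lo hi, lo < 2 ^ j → g (lo + 2 ^ (j + b) * hi) = - g (lo + 2 ^ j * y + 2 ^ (j + b) * hi)

lemma Sw.shift {b y : ℕ} {g : ℕ → ℝ} {j : ℕ} (h : Sw b y g j) (c : ℕ) :
    Sw b y (fun z => g (z + 2 ^ (j + b) * c)) j := by
  intro lo hi hlo
  have := h lo (hi + c) hlo
  show g (lo + 2 ^ (j + b) * hi + 2 ^ (j + b) * c) =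
    - g (lo + 2 ^ j * y + 2 ^ (j + b) * hi + 2 ^ (j + b) * c)
  rw [show lo + 2 ^ (j + b) * hi + 2 ^ (j + b) * c = lo + 2 ^ (j + b) * (hi + c) by ring,
    show lo + 2 ^ j * y + 2 ^ (j + b) * hi + 2 ^ (j + b) * c =
      lo + 2 ^ j * y + 2 ^ (j + b) * (hi + c) by ring]
  exact this

lemma sum_range_mul_eq {α : Type*} [AddCommMonoid α] (A B : ℕ) (f : ℕ → α) :
    ∑ z ∈ range (A * B), f z = ∑ q ∈ range B, ∑ r ∈ range A, f (r + A * q) := by
  induction B with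
  | zero => simp
  | succ B ih =>
    rw [mul_add, mul_one, sum_range_succ, ← ih, sum_range_add]
    congr 1
    apply sum_congr rfl
    intro x _
    rw [add_comm]

/-- Windows where the sign can be swapped give cancellation. -/
lemma cancel (b y : ℕ) (hb : 1 ≤ b) (hy0 : 0 < y) (hy : y < 2 ^ b) :
    ∀ (l : List ℕ) (m : ℕ) (g : ℕ → ℝ), l.Pairwise (fun a c => c + b ≤ a) →
      (∀ a ∈ l, a + b ≤ m) → (∀ a ∈ l, Sw b y g a) → (∀ z, |g z| ≤ 1) →
      |∑ z ∈ range (2 ^ m), g z| ≤ 2 ^ m * (1 - 2 / 2 ^ b) ^ l.length := by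
  intro l
  induction l with
  | nil =>
    intro m g _ _ _ hg
    calc |∑ z ∈ range (2 ^ m), g z| ≤ ∑ z ∈ range (2 ^ m), |g z| := abs_sum_le_sum_abs _ _
      _ ≤ ∑ z ∈ range (2 ^ m), (1 : ℝ) := sum_le_sum fun z _ => hg z
      _ = 2 ^ m * (1 - 2 / 2 ^ b) ^ ([] : List ℕ).length := by simp
  | cons j l ih =>
    intro m g hp hm hS hg
    rw [List.pairwise_cons] at hp
    have hjm : j + b ≤ m := hm j (by simp)
    obtain ⟨e, he⟩ := Nat.exists_eq_add_of_le hjm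
    have h1 : (2 : ℕ) ^ m = 2 ^ j * (2 ^ b * 2 ^ e) := by
      rw [he, pow_add, pow_add, mul_assoc]
    have h2 : ∑ z ∈ range (2 ^ m), g z = ∑ hi ∈ range (2 ^ e), ∑ w ∈ range (2 ^ b),
        ∑ lo ∈ range (2 ^ j), g (lo + 2 ^ j * (w + 2 ^ b * hi)) := by
      rw [h1, sum_range_mul_eq (2 ^ j) (2 ^ b * 2 ^ e), sum_range_mul_eq (2 ^ b) (2 ^ e)]
    have hρ : (0 : ℝ) ≤ 1 - 2 / 2 ^ b := by
      have : (2 : ℝ) / 2 ^ b ≤ 1 := by
        rw [div_le_one (by positivity)]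
        calc (2 : ℝ) = 2 ^ 1 := by norm_num
          _ ≤ 2 ^ b := pow_le_pow_right₀ (by norm_num) hb
      linarith
    have h3 : ∀ hi ∈ range (2 ^ e), |∑ w ∈ range (2 ^ b),
        ∑ lo ∈ range (2 ^ j), g (lo + 2 ^ j * (w + 2 ^ b * hi))| ≤
          2 ^ b * (1 - 2 / 2 ^ b) * (2 ^ j * (1 - 2 / 2 ^ b) ^ l.length) := by
      intro hi _
      have h0m : 0 ∈ range (2 ^ b) := by simp
      have hym : y ∈ (range (2 ^ b)).erase 0 := by
        simp only [mem_erase, mem_range]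
        omega
      rw [← add_sum_erase _ _ h0m, ← add_sum_erase _ _ hym, ← add_assoc]
      have h4 : ∑ lo ∈ range (2 ^ j), g (lo + 2 ^ j * (0 + 2 ^ b * hi)) +
          ∑ lo ∈ range (2 ^ j), g (lo + 2 ^ j * (y + 2 ^ b * hi)) = 0 := by
        rw [← sum_add_distrib]
        apply sum_eq_zero
        intro lo hlo
        have := hS j (by simp) lo hi (mem_range.1 hlo)
        rw [show lo + 2 ^ j * (0 + 2 ^ b * hi) = lo + 2 ^ (j + b) * hi by rw [pow_add]; ring,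
          show lo + 2 ^ j * (y + 2 ^ b * hi) = lo + 2 ^ j * y + 2 ^ (j + b) * hi by
            rw [pow_add]; ring, this]
        ring
      rw [h4, zero_add]
      have h5 : ∀ w ∈ ((range (2 ^ b)).erase 0).erase y,
          |∑ lo ∈ range (2 ^ j), g (lo + 2 ^ j * (w + 2 ^ b * hi))| ≤
            2 ^ j * (1 - 2 / 2 ^ b) ^ l.length := by
        intro w _
        refine ih j (fun z => g (z + 2 ^ j * (w + 2 ^ b * hi))) hp.2 (fun a ha => hp.1 a ha) ?_
          (fun z => hg _)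
        intro a ha
        have h6 := hp.1 a ha
        obtain ⟨f, hf⟩ := Nat.exists_eq_add_of_le h6
        have h7 := (hS a (by simp [ha])).shift (2 ^ f * (w + 2 ^ b * hi))
        have h8 : (fun z => g (z + 2 ^ j * (w + 2 ^ b * hi))) =
            fun z => g (z + 2 ^ (a + b) * (2 ^ f * (w + 2 ^ b * hi))) := by
          funext z
          congr 2
          rw [hf, pow_add _ (a + b) f]
          ring
        rw [h8]
        exact h7
      calc |∑ w ∈ ((range (2 ^ b)).erase 0).erase y,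
            ∑ lo ∈ range (2 ^ j), g (lo + 2 ^ j * (w + 2 ^ b * hi))| ≤
            ∑ w ∈ ((range (2 ^ b)).erase 0).erase y,
              |∑ lo ∈ range (2 ^ j), g (lo + 2 ^ j * (w + 2 ^ b * hi))| :=
            abs_sum_le_sum_abs _ _
        _ ≤ ∑ w ∈ ((range (2 ^ b)).erase 0).erase y, 2 ^ j * (1 - 2 / 2 ^ b) ^ l.length :=
            sum_le_sum h5
        _ = 2 ^ b * (1 - 2 / 2 ^ b) * (2 ^ j * (1 - 2 / 2 ^ b) ^ l.length) := by
            rw [sum_const, card_erase_of_mem hym, card_erase_of_mem h0m, card_range,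
              nsmul_eq_mul]
            have h9 : (2 : ℕ) ≤ 2 ^ b := by
              calc (2 : ℕ) = 2 ^ 1 := by norm_num
                _ ≤ 2 ^ b := Nat.pow_le_pow_right (by norm_num) hb
            have h10 : ((2 ^ b - 1 - 1 : ℕ) : ℝ) = 2 ^ b - 2 := by
              have : 2 ^ b - 1 - 1 = 2 ^ b - 2 := by omega
              rw [this, Nat.cast_sub h9]
              push_cast
              ring
            rw [h10]
            have h11 : (2 : ℝ) ^ b ≠ 0 := by positivity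
            field_simp
    rw [h2]
    calc |∑ hi ∈ range (2 ^ e), ∑ w ∈ range (2 ^ b),
          ∑ lo ∈ range (2 ^ j), g (lo + 2 ^ j * (w + 2 ^ b * hi))| ≤
          ∑ hi ∈ range (2 ^ e), |∑ w ∈ range (2 ^ b),
            ∑ lo ∈ range (2 ^ j), g (lo + 2 ^ j * (w + 2 ^ b * hi))| :=
          abs_sum_le_sum_abs _ _
      _ ≤ ∑ hi ∈ range (2 ^ e),
          2 ^ b * (1 - 2 / 2 ^ b) * (2 ^ j * (1 - 2 / 2 ^ b) ^ l.length) := sum_le_sum h3
      _ = 2 ^ m * (1 - 2 / 2 ^ b) ^ (j :: l).length := by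
          rw [sum_const, card_range, nsmul_eq_mul, List.length_cons, he, pow_succ, pow_add,
            pow_add]
          push_cast
          ring

/-- The window pattern that flips the sign of the product over a set `S`. -/
lemma flip (S : Finset ℕ) (g s : ℕ) (hs : s ∈ S) (hmax : ∀ i ∈ S, i ≤ s) (hg : s < 2 ^ g) :
    ∏ i ∈ S, (chi (2 ^ g - s + i) * chi 0) =
      - ∏ i ∈ S, (chi (2 ^ g - s + i + 2 ^ g) * chi (0 + 2 ^ g)) := by
  rw [← mul_prod_erase _ _ hs, ← mul_prod_erase _ _ hs]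
  have h1 : ∏ i ∈ S.erase s, (chi (2 ^ g - s + i) * chi 0) =
      ∏ i ∈ S.erase s, (chi (2 ^ g - s + i + 2 ^ g) * chi (0 + 2 ^ g)) := by
    apply prod_congr rfl
    intro i hi
    have h2 : i < s := lt_of_le_of_ne (hmax i (mem_of_mem_erase hi)) (ne_of_mem_erase hi)
    have h3 : 2 ^ g - s + i < 2 ^ g := by omega
    have h4 := chi_add_mul_pow g (2 ^ g - s + i) 1 h3
    rw [mul_one] at h4
    rw [h4, zero_add, chi_pow, chi_one, chi_zero]
    ring
  have h5 : 2 ^ g - s + s = 2 ^ g := by omega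
  have h6 : (2 : ℕ) ^ g + 2 ^ g = 2 ^ (g + 1) := by rw [pow_succ]; ring
  rw [h1, h5, h6, chi_pow, chi_pow, zero_add, chi_pow, chi_zero]
  ring

/-- Good windows are swappable. -/
lemma sw_of_window (S : Finset ℕ) (g s j : ℕ) (hs : s ∈ S) (hmax : ∀ i ∈ S, i ≤ s)
    (hg : s < 2 ^ g) (u u' : ℕ → ℕ)
    (hu : ∀ i ∈ S, (u i / 2 ^ j) % 2 ^ (g + 3) = 2 * (2 ^ g - s + i))
    (hu' : ∀ i ∈ S, (u' i / 2 ^ j) % 2 ^ (g + 3) = 0) :
    Sw (g + 3) (2 ^ (g + 1))
      (fun z => ((∏ i ∈ S, (chi (u i + z) * chi (u' i + z)) : ℤ) : ℝ)) j := by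
  intro lo hi hlo
  have h1 : ∀ i ∈ S, ∃ C : ℤ, ∀ ζ : ℕ, 2 * (2 ^ g - s + i) + 2 * ζ + 1 < 2 ^ (g + 3) →
      chi (u i + (lo + 2 ^ j * (2 * ζ) + 2 ^ (j + (g + 3)) * hi)) =
        C * chi (2 ^ g - s + i + ζ) := fun i hi' => chi_window j (g + 3) (u i) _ lo hi (hu i hi') hlo
  have h2 : ∀ i ∈ S, ∃ C : ℤ, ∀ ζ : ℕ, 2 * 0 + 2 * ζ + 1 < 2 ^ (g + 3) →
      chi (u' i + (lo + 2 ^ j * (2 * ζ) + 2 ^ (j + (g + 3)) * hi)) =
        C * chi (0 + ζ) := fun i hi' =>
          chi_window j (g + 3) (u' i) 0 lo hi (by rw [hu' i hi']) hlo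
  choose! C hC using h1
  choose! C' hC' using h2
  have hpow : (2 : ℕ) ^ (g + 3) = 8 * 2 ^ g := by rw [pow_add]; ring
  have hg1 : 1 ≤ 2 ^ g := Nat.one_le_two_pow
  have key : ∀ ζ : ℕ, ζ ≤ 2 ^ g →
      ∏ i ∈ S, (chi (u i + (lo + 2 ^ j * (2 * ζ) + 2 ^ (j + (g + 3)) * hi)) *
        chi (u' i + (lo + 2 ^ j * (2 * ζ) + 2 ^ (j + (g + 3)) * hi))) =
      (∏ i ∈ S, (C i * C' i)) * ∏ i ∈ S, (chi (2 ^ g - s + i + ζ) * chi (0 + ζ)) := by
    intro ζ hζ
    rw [← prod_mul_distrib]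
    apply prod_congr rfl
    intro i hi'
    have h3 := hmax i hi'
    rw [hC i hi' ζ (by omega), hC' i hi' ζ (by omega)]
    ring
  have k0 := key 0 (Nat.zero_le _)
  have k1 := key (2 ^ g) le_rfl
  have h4 : 2 * 2 ^ g = 2 ^ (g + 1) := by rw [pow_succ]; ring
  rw [h4] at k1
  have h5 := flip S g s hs hmax hg
  simp only [mul_zero, add_zero] at k0
  show ((∏ i ∈ S, (chi (u i + (lo + 2 ^ (j + (g + 3)) * hi)) *
      chi (u' i + (lo + 2 ^ (j + (g + 3)) * hi))) : ℤ) : ℝ) =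
    - ((∏ i ∈ S, (chi (u i + (lo + 2 ^ j * 2 ^ (g + 1) + 2 ^ (j + (g + 3)) * hi)) *
      chi (u' i + (lo + 2 ^ j * 2 ^ (g + 1) + 2 ^ (j + (g + 3)) * hi))) : ℤ) : ℝ)
  rw [k0, k1, h5]
  push_cast
  ring

end Pool.Agent.Lib.MP_86b630_nt.Avg81
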