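import Pool.Agent.Lib.MP_86b630_nt.Avg81.Root

set_option autoImplicit false

/-! A trigonometric polynomial above `ρ` on a box and above `1` elsewhere. -/

namespace Pool.Agent.Lib.MP_86b630_nt.Avg81

open Finset

/-- The mean of `cos ^ (2 R)`. -/
noncomputable def mR (R : ℕ) : ℝ := (Nat.centralBinom R : ℝ) / 4 ^ R

lemma mR_pos (R : ℕ) : 0 < mR R := by
  unfold mR
  have := Nat.centralBinom_pos R
  positivity

lemma mR_succ (R : ℕ) : mR (R + 1) = mR R * (1 - 1 / (2 * R + 2)) := by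
  unfold mR
  have h := Nat.succ_mul_centralBinom_succ R
  have h1 : ((R : ℝ) + 1) * (Nat.centralBinom (R + 1) : ℝ) =
      2 * (2 * R + 1) * (Nat.centralBinom R : ℝ) := by exact_mod_cast h
  have h2 : (Nat.centralBinom (R + 1) : ℝ) = 2 * (2 * R + 1) * (Nat.centralBinom R : ℝ) / (R + 1) := by
    rw [eq_div_iff (by positivity)]
    linarith
  rw [h2, pow_succ]
  field_simp
  ring

lemma cos_pow (R : ℕ) (t : ℝ) : ((Real.cos (Real.pi * t) ^ (2 * R) : ℝ) : ℂ) =
    ∑ j ∈ range (2 * R + 1), (((Nat.choose (2 * R) j : ℝ) / 4 ^ R : ℝ) : ℂ) *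
      E (((j : ℤ) - (R : ℤ) : ℤ) * t) := by
  have h1 : ((Real.cos (Real.pi * t) ^ (2 * R) : ℝ) : ℂ) =
      (Complex.exp (Real.pi * t * Complex.I) + Complex.exp (-(Real.pi * t * Complex.I))) ^ (2 * R) /
        4 ^ R := by
    push_cast
    rw [Complex.cos, div_pow]
    congr 1
    · congr 3
      ring
    · rw [pow_mul]
      norm_num
  rw [h1, add_pow, sum_div]
  apply sum_congr rfl
  intro j hj
  have hj2 : j ≤ 2 * R := by
    have := mem_range.1 hj
    omega
  have h2 : Complex.exp (Real.pi * t * Complex.I) ^ j *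
      Complex.exp (-(Real.pi * t * Complex.I)) ^ (2 * R - j) =
        E (((j : ℤ) - (R : ℤ) : ℤ) * t) := by
    unfold E
    rw [← Complex.exp_nat_mul, ← Complex.exp_nat_mul, ← Complex.exp_add]
    congr 1
    rw [Nat.cast_sub hj2]
    push_cast
    ring
  rw [h2]
  push_cast
  ring

lemma E_sum {ι : Type*} (s : Finset ι) (f : ι → ℝ) : E (∑ i ∈ s, f i) = ∏ i ∈ s, E (f i) := by
  classical
  induction s using Finset.induction_on with
  | empty => simp [E_zero]
  | insert a s ha ih => rw [sum_insert ha, prod_insert ha, E_add, ih]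

/-- Fourier coefficients of `cos ^ (2 r)`. -/
noncomputable def kap (r : ℕ) (h : ℤ) : ℝ :=
  if |h| ≤ (r : ℤ) then (Nat.choose (2 * r) (h + r).toNat : ℝ) / 4 ^ r else 0

lemma kap_nonneg (r : ℕ) (h : ℤ) : 0 ≤ kap r h := by
  unfold kap
  split_ifs <;> positivity

lemma kap_zero (r : ℕ) : kap r 0 = mR r := by
  unfold kap mR
  simp [Nat.centralBinom]

lemma cos_pow' (r H : ℕ) (hr : r ≤ H) (t : ℝ) : ((Real.cos (Real.pi * t) ^ (2 * r) : ℝ) : ℂ) =
    ∑ h ∈ Icc (-(H : ℤ)) H, ((kap r h : ℝ) : ℂ) * E (h * t) := by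
  have h1 : ∑ h ∈ Icc (-(H : ℤ)) H, ((kap r h : ℝ) : ℂ) * E (h * t) =
      ∑ h ∈ Icc (-(r : ℤ)) r, ((kap r h : ℝ) : ℂ) * E (h * t) := by
    symm
    apply sum_subset
    · intro h hh
      rw [mem_Icc] at hh ⊢
      omega
    · intro h _ hh
      rw [mem_Icc] at hh
      unfold kap
      rw [if_neg]
      · simp
      · intro hc
        rw [abs_le] at hc
        exact hh hc
  rw [h1, cos_pow]
  refine sum_bij' (fun (j : ℕ) _ => (j : ℤ) - r) (fun (h : ℤ) _ => (h + r).toNat) ?_ ?_ ?_ ?_ ?_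
  · intro j hj
    rw [mem_range] at hj
    rw [mem_Icc]
    omega
  · intro h hh
    rw [mem_Icc] at hh
    rw [mem_range]
    omega
  · intro j hj
    simp
  · intro h hh
    rw [mem_Icc] at hh
    have : ((h + r).toNat : ℤ) = h + r := Int.toNat_of_nonneg (by omega)
    omega
  · intro j hj
    rw [mem_range] at hj
    unfold kap
    rw [if_pos (by rw [abs_le]; omega)]
    have : ((j : ℤ) - r + r).toNat = j := by simp
    rw [this]

lemma kap_sum (r H : ℕ) (hr : r ≤ H) : ∑ h ∈ Icc (-(H : ℤ)) H, kap r h = 1 := by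
  have h := cos_pow' r H hr 0
  simp only [mul_zero, Real.cos_zero, one_pow, E_zero, mul_one] at h
  have h1 : ((∑ h ∈ Icc (-(H : ℤ)) H, kap r h : ℝ) : ℂ) = ((1 : ℝ) : ℂ) := by
    rw [h]
    push_cast
    rfl
  exact_mod_cast h1

set_option linter.unusedSectionVars false

variable {ι : Type*} [Fintype ι] [DecidableEq ι]

/-- Frequencies bounded by `H`. -/
noncomputable def Fr (ι : Type*) [Fintype ι] [DecidableEq ι] (H : ℕ) : Finset (ι → ℤ) :=
  Fintype.piFinset fun _ => Icc (-(H : ℤ)) H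

lemma zero_mem_Fr (H : ℕ) : (0 : ι → ℤ) ∈ Fr ι H := by
  unfold Fr
  rw [Fintype.mem_piFinset]
  intro l
  simp

/-- Coefficients of the product of powers of cosines. -/
noncomputable def kc (r : ι → ℕ) (y : ι → ℝ) (h : ι → ℤ) : ℂ :=
  ((∏ l, kap (r l) (h l) : ℝ) : ℂ) * E (-∑ l, h l * y l)

lemma kc_rep (H : ℕ) (r : ι → ℕ) (hr : ∀ l, r l ≤ H) (x y : ι → ℝ) :
    ((∏ l, Real.cos (Real.pi * (x l - y l)) ^ (2 * r l) : ℝ) : ℂ) =
      ∑ h ∈ Fr ι H, kc r y h * E (∑ l, h l * x l) := by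
  rw [Complex.ofReal_prod, prod_congr rfl fun l _ => cos_pow' (r l) H (hr l) (x l - y l),
    prod_univ_sum]
  apply sum_congr rfl
  intro h _
  unfold kc
  rw [prod_mul_distrib, mul_assoc, ← E_add, Complex.ofReal_prod, ← sum_neg_distrib,
    ← sum_add_distrib, E_sum]
  congr 1
  apply prod_congr rfl
  intro l _
  congr 1
  ring

lemma kc_norm (H : ℕ) (r : ι → ℕ) (hr : ∀ l, r l ≤ H) (y : ι → ℝ) :
    ∑ h ∈ Fr ι H, ‖kc r y h‖ = 1 := by
  have h1 : ∀ h ∈ Fr ι H, ‖kc r y h‖ = ∏ l, kap (r l) (h l) := by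
    intro h _
    unfold kc
    rw [norm_mul, E_norm, mul_one, Complex.norm_real,
      Real.norm_of_nonneg (prod_nonneg fun l _ => kap_nonneg _ _)]
  rw [sum_congr rfl h1]
  unfold Fr
  rw [← prod_univ_sum]
  exact prod_eq_one fun l _ => kap_sum _ _ (hr l)

lemma kc_zero (r : ι → ℕ) (y : ι → ℝ) : kc r y 0 = ((∏ l, mR (r l) : ℝ) : ℂ) := by
  unfold kc
  simp [E_zero, kap_zero]

/-- The trigonometric polynomial. -/
lemma trig_min (c ρ : ℝ) (hc : 0 < c) (hρ0 : 0 ≤ ρ) (hρ1 : ρ < 1) :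
    ∃ (H : ℕ) (Λ θ : ℝ), 0 < Λ ∧ 0 < θ ∧ θ < 1 ∧ ∀ y : ι → ℝ,
      ∃ (a : (ι → ℤ) → ℂ) (ψ : (ι → ℝ) → ℝ) (a0 : ℝ), a 0 = a0 ∧ a0 ≤ θ ∧
        ∑ h ∈ Fr ι H, ‖a h‖ ≤ Λ ∧ (∀ x, ((ψ x : ℝ) : ℂ) = ∑ h ∈ Fr ι H, a h * E (∑ l, h l * x l)) ∧
        ∀ x, (if ∀ l, 1 - c ≤ Real.cos (Real.pi * (x l - y l)) ^ 2 then ρ else 1) ≤ ψ x := by
  classical
  set d := Fintype.card ι with hd
  obtain ⟨R, hR⟩ := exists_nat_ge ((d : ℝ) / c)
  set q : ℝ := mR R ^ d with hq
  have hq0 : 0 < q := by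
    have := mR_pos R
    positivity
  have hd0 : (0 : ℝ) ≤ d := Nat.cast_nonneg d
  have hr1 : 0 < 1 - ρ := by linarith
  refine ⟨R + 1, 2 + 2 * d / c, max (1 - (1 - ρ) * (q / 2)) (1 / 2), by positivity,
    lt_of_lt_of_le (by norm_num) (le_max_right _ _), ?_, fun y => ?_⟩
  · apply max_lt
    · have : 0 < (1 - ρ) * (q / 2) := by positivity
      linarith
    · norm_num
  set r0 : ι → ℕ := fun _ => R with hr0
  set r1 : ι → ι → ℕ := fun l0 => Function.update r0 l0 (R + 1) with hr1'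
  have hr0H : ∀ l, r0 l ≤ R + 1 := fun l => by simp [hr0]
  have hr1H : ∀ l0 l, r1 l0 l ≤ R + 1 := by
    intro l0 l
    rw [hr1']
    by_cases h : l = l0
    · subst h
      simp
    · simp [Function.update_of_ne h, hr0]
  have hp0 : ∏ l, mR (r0 l) = q := by
    rw [hr0, prod_const, card_univ]
  have hp1 : ∀ l0, ∏ l, mR (r1 l0 l) = q * (1 - 1 / (2 * R + 2)) := by
    intro l0
    rw [← mul_prod_erase univ _ (mem_univ l0)]
    have h1 : mR (r1 l0 l0) = mR R * (1 - 1 / (2 * R + 2)) := by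
      rw [hr1']
      simp only
      rw [Function.update_self, mR_succ]
    have h5 : ∏ l ∈ univ.erase l0, mR (r1 l0 l) = ∏ l ∈ univ.erase l0, mR R := by
      apply prod_congr rfl
      intro l hl
      rw [hr1']
      simp only
      rw [Function.update_of_ne (ne_of_mem_erase hl)]
    have h6 : q = mR R * ∏ l ∈ (univ : Finset ι).erase l0, mR R := by
      rw [mul_prod_erase univ (fun _ => mR R) (mem_univ l0), prod_const, card_univ]
    rw [h1, h5, h6]
    ring
  set b : (ι → ℤ) → ℂ := fun h => kc r0 y h - (1 / c : ℝ) * ∑ l0, (kc r0 y h - kc (r1 l0) y h)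
    with hb
  set A : (ι → ℝ) → ℝ := fun x => ∏ l, Real.cos (Real.pi * (x l - y l)) ^ (2 * R) with hA
  set co : (ι → ℝ) → ι → ℝ := fun x l => Real.cos (Real.pi * (x l - y l)) with hco
  set G : (ι → ℝ) → ℝ := fun x => A x - 1 / c * ∑ l0, (A x - A x * co x l0 ^ 2) with hG
  have hco1 : ∀ x l, co x l ^ 2 ≤ 1 := fun x l => Real.cos_sq_le_one _
  have hA0 : ∀ x, 0 ≤ A x := fun x => prod_nonneg fun l _ => by
    rw [pow_mul]
    positivity
  have hA1 : ∀ x, A x ≤ 1 := fun x => prod_le_one (fun l _ => by rw [pow_mul]; positivity)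
    (fun l _ => by rw [pow_mul]; exact pow_le_one₀ (sq_nonneg _) (hco1 x l))
  have hAr : ∀ x, ((A x : ℝ) : ℂ) = ∑ h ∈ Fr ι (R + 1), kc r0 y h * E (∑ l, h l * x l) :=
    fun x => kc_rep (R + 1) r0 hr0H x y
  have hA1r : ∀ x l0, ((A x * co x l0 ^ 2 : ℝ) : ℂ) =
      ∑ h ∈ Fr ι (R + 1), kc (r1 l0) y h * E (∑ l, h l * x l) := by
    intro x l0
    rw [← kc_rep (R + 1) (r1 l0) (hr1H l0) x y]
    congr 1
    rw [← mul_prod_erase univ (fun l => Real.cos (Real.pi * (x l - y l)) ^ (2 * r1 l0 l))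
      (mem_univ l0), hA]
    simp only
    rw [← mul_prod_erase univ (fun l => Real.cos (Real.pi * (x l - y l)) ^ (2 * R))
      (mem_univ l0)]
    have h3 : ∏ l ∈ univ.erase l0, Real.cos (Real.pi * (x l - y l)) ^ (2 * r1 l0 l) =
        ∏ l ∈ univ.erase l0, Real.cos (Real.pi * (x l - y l)) ^ (2 * R) := by
      apply prod_congr rfl
      intro l hl
      rw [hr1']
      simp only
      rw [Function.update_of_ne (ne_of_mem_erase hl)]
    have h4 : r1 l0 l0 = R + 1 := by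
      rw [hr1']
      simp
    rw [h3, h4, show 2 * (R + 1) = 2 * R + 2 by ring, pow_add]
    ring
  have hGr : ∀ x, ((G x : ℝ) : ℂ) = ∑ h ∈ Fr ι (R + 1), b h * E (∑ l, h l * x l) := by
    intro x
    have h1 : ((G x : ℝ) : ℂ) = ((A x : ℝ) : ℂ) - ((1 / c : ℝ) : ℂ) *
        ∑ l0, (((A x : ℝ) : ℂ) - ((A x * co x l0 ^ 2 : ℝ) : ℂ)) := by
      rw [hG]
      push_cast
      rfl
    rw [h1, hAr]
    simp_rw [hA1r]
    have h2 : ∀ l0 : ι, ∑ h ∈ Fr ι (R + 1), kc r0 y h * E (∑ l, h l * x l) -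
        ∑ h ∈ Fr ι (R + 1), kc (r1 l0) y h * E (∑ l, h l * x l) =
          ∑ h ∈ Fr ι (R + 1), (kc r0 y h - kc (r1 l0) y h) * E (∑ l, h l * x l) := by
      intro l0
      rw [← sum_sub_distrib]
      apply sum_congr rfl
      intro h _
      ring
    simp_rw [h2]
    rw [sum_comm, mul_sum, ← sum_sub_distrib]
    apply sum_congr rfl
    intro h _
    rw [hb]
    simp only
    rw [← sum_mul]
    ring
  refine ⟨fun h => (if h = 0 then 1 else 0) - (1 - ρ : ℝ) * b h, fun x => 1 - (1 - ρ) * G x,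
    1 - (1 - ρ) * (q * (1 - d / c / (2 * R + 2))), ?_, ?_, ?_, ?_, ?_⟩
  · simp only [if_true]
    rw [hb]
    simp only
    rw [kc_zero, hp0]
    simp_rw [kc_zero, hp1]
    rw [sum_const, card_univ, ← hd, nsmul_eq_mul]
    push_cast
    have h1 : ((c : ℝ) : ℂ) ≠ 0 := by
      exact_mod_cast hc.ne'
    have h2 : (2 * (R : ℂ) + 2) ≠ 0 := by
      have : (2 * (R : ℝ) + 2) ≠ 0 := by positivity
      exact_mod_cast this
    field_simp
    ring
  · apply le_trans _ (le_max_left _ _)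
    have h7 : (d : ℝ) / c / (2 * R + 2) ≤ 1 / 2 := by
      rw [div_le_iff₀ (by positivity)]
      linarith
    have h8 : q / 2 ≤ q * (1 - d / c / (2 * R + 2)) := by nlinarith
    nlinarith
  · have h1 : ∑ h ∈ Fr ι (R + 1), ‖b h‖ ≤ 1 + 2 * d / c := by
      calc ∑ h ∈ Fr ι (R + 1), ‖b h‖ ≤ ∑ h ∈ Fr ι (R + 1), (‖kc r0 y h‖ +
            1 / c * ∑ l0, (‖kc r0 y h‖ + ‖kc (r1 l0) y h‖)) := by
            apply sum_le_sum
            intro h _
            rw [hb]
            simp only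
            refine (norm_sub_le _ _).trans (add_le_add le_rfl ?_)
            rw [norm_mul, Complex.norm_real, Real.norm_of_nonneg (by positivity)]
            apply mul_le_mul_of_nonneg_left _ (by positivity)
            refine (norm_sum_le _ _).trans (sum_le_sum fun l0 _ => norm_sub_le _ _)
        _ = 1 + 2 * d / c := by
            rw [sum_add_distrib, kc_norm (R + 1) r0 hr0H y, ← mul_sum, sum_comm]
            simp_rw [sum_add_distrib]
            rw [kc_norm (R + 1) r0 hr0H y]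
            simp_rw [fun l0 => kc_norm (R + 1) (r1 l0) (hr1H l0) y]
            simp only [sum_const, card_univ, nsmul_eq_mul, mul_one, ← hd]
            ring
    have h2 : ∑ h ∈ Fr ι (R + 1), ‖(if h = 0 then (1 : ℂ) else 0)‖ = 1 := by
      rw [sum_eq_single (0 : ι → ℤ)]
      · simp
      · intro h _ hh
        simp [hh]
      · intro h
        exact absurd (zero_mem_Fr _) h
    calc ∑ h ∈ Fr ι (R + 1), ‖(if h = 0 then (1 : ℂ) else 0) - (1 - ρ : ℝ) * b h‖ ≤
          ∑ h ∈ Fr ι (R + 1), (‖(if h = 0 then (1 : ℂ) else 0)‖ + ‖b h‖) := by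
          apply sum_le_sum
          intro h _
          refine (norm_sub_le _ _).trans (add_le_add le_rfl ?_)
          rw [norm_mul, Complex.norm_real, Real.norm_of_nonneg hr1.le]
          nlinarith [norm_nonneg (b h)]
      _ ≤ 1 + (1 + 2 * d / c) := by
          rw [sum_add_distrib, h2]
          linarith
      _ = 2 + 2 * d / c := by ring
  · intro x
    have h1 : ∑ h ∈ Fr ι (R + 1), (if h = 0 then (1 : ℂ) else 0) * E (∑ l, h l * x l) = 1 := by
      rw [sum_eq_single (0 : ι → ℤ)]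
      · simp [E_zero]
      · intro h _ hh
        simp [hh]
      · intro h
        exact absurd (zero_mem_Fr _) h
    have h2 : ((1 - (1 - ρ) * G x : ℝ) : ℂ) = 1 - ((1 - ρ : ℝ) : ℂ) * ((G x : ℝ) : ℂ) := by
      push_cast
      ring
    have h3 : (1 : ℂ) - ((1 - ρ : ℝ) : ℂ) * ∑ h ∈ Fr ι (R + 1), b h * E (∑ l, h l * x l) =
        (∑ h ∈ Fr ι (R + 1), (if h = 0 then (1 : ℂ) else 0) * E (∑ l, h l * x l)) -
          ((1 - ρ : ℝ) : ℂ) * ∑ h ∈ Fr ι (R + 1), b h * E (∑ l, h l * x l) := by rw [h1]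
    rw [h2, hGr x, h3, mul_sum, ← sum_sub_distrib]
    apply sum_congr rfl
    intro h _
    ring
  · intro x
    have h0 : ∀ l, 0 ≤ A x - A x * co x l ^ 2 := fun l => by
      have := mul_le_mul_of_nonneg_left (hco1 x l) (hA0 x)
      linarith
    split_ifs with h
    · have h1 : 0 ≤ ∑ l, (A x - A x * co x l ^ 2) := sum_nonneg fun l _ => h0 l
      have h2 : 0 ≤ 1 / c * ∑ l, (A x - A x * co x l ^ 2) := by positivity
      have h3 : G x ≤ 1 := by
        rw [hG]
        simp only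
        linarith [hA1 x]
      nlinarith
    · push Not at h
      obtain ⟨l, hl⟩ := h
      have h1 : A x - A x * co x l ^ 2 ≤ ∑ l, (A x - A x * co x l ^ 2) :=
        single_le_sum (fun l _ => h0 l) (mem_univ l)
      have hl' : co x l ^ 2 < 1 - c := hl
      have h2 : c * A x ≤ A x - A x * co x l ^ 2 := by nlinarith [hA0 x]
      have h3 : A x ≤ 1 / c * ∑ l, (A x - A x * co x l ^ 2) := by
        rw [one_div, inv_mul_eq_div, le_div_iff₀ hc]
        linarith
      have h4 : G x ≤ 0 := by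
        rw [hG]
        simp only
        linarith
      nlinarith

end Pool.Agent.Lib.MP_86b630_nt.Avg81
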