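import Pool.Agent.Lib.MP_86b630_nt.Avg81.Pairs
import Pool.Agent.Lib.MP_86b630_nt.Avg81.Swap

set_option autoImplicit false

/-! The second moment. -/

namespace Pool.Agent.Lib.MP_86b630_nt.Avg81

open Finset Polynomial

/-- The values `P(n + i) + X` as natural numbers. -/
def uu (P : ℤ[X]) (X : ℤ) (n i : ℕ) : ℕ := (P.eval ((n + i : ℕ) : ℤ) + X).toNat

/-- The correlation along the constants for a pair. -/
lemma pair_corr (P : ℤ[X]) (k : ℕ) (S : Finset ℕ) (hS : S ⊆ range k) (s : ℕ) (hs : s ∈ S)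
    (hmax : ∀ i ∈ S, i ≤ s) (X : ℤ) (l : List ℕ) (m : ℕ)
    (hl : l.Pairwise (fun a c => c + (k + 3) ≤ a)) (hlm : ∀ a ∈ l, a + (k + 3) ≤ m)
    (M n n' : ℕ) (hn : ∀ i < k, 0 ≤ P.eval ((n + i : ℕ) : ℤ) + X)
    (hn' : ∀ i < k, 0 ≤ P.eval ((n' + i : ℕ) : ℤ) + X) :
    |∑ c ∈ range M, (((∏ i ∈ S, (chi (uu P X n i + c) * chi (uu P X n' i + c)) : ℤ)) : ℝ)| ≤
      M * (1 - 2 / 2 ^ (k + 3)) ^ cnt P X (k + 3) k (2 * (2 ^ k - s)) 2 l n n' + 2 ^ m := by
  classical
  set G : ℕ → ℝ := fun c =>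
    (((∏ i ∈ S, (chi (uu P X n i + c) * chi (uu P X n' i + c)) : ℤ)) : ℝ) with hG
  have hG1 : ∀ c, |G c| ≤ 1 := by
    intro c
    rw [hG]
    simp only
    rw [← Int.cast_abs, abs_prod]
    have : ∏ i ∈ S, |chi (uu P X n i + c) * chi (uu P X n' i + c)| = 1 := by
      apply prod_eq_one
      intro i _
      rw [abs_mul, chi_abs, chi_abs, one_mul]
    rw [this]
    simp
  set ρ : ℝ := 1 - 2 / 2 ^ (k + 3) with hρ
  have hρ0 : 0 ≤ ρ := by
    have : (2 : ℝ) / 2 ^ (k + 3) ≤ 1 := by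
      rw [div_le_one (by positivity)]
      calc (2 : ℝ) = 2 ^ 1 := by norm_num
        _ ≤ 2 ^ (k + 3) := pow_le_pow_right₀ (by norm_num) (by omega)
    linarith
  have hsk : s < 2 ^ k := by
    have h1 := mem_range.1 (hS hs)
    exact h1.trans Nat.lt_two_pow_self
  set gl := l.filter fun j => Wd P X (k + 3) k (2 * (2 ^ k - s)) 2 j n ∧
    Wd P X (k + 3) k 0 0 j n' with hgl
  have huu : ∀ (n i : ℕ), 0 ≤ P.eval ((n + i : ℕ) : ℤ) + X →
      ((uu P X n i : ℕ) : ℤ) = P.eval ((n : ℤ) + i) + X := by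
    intro n i h
    unfold uu
    rw [Int.toNat_of_nonneg h]
    push_cast
    rfl
  have hSw : ∀ j ∈ gl, Sw (k + 3) (2 ^ (k + 1)) G j := by
    intro j hj
    rw [hgl, List.mem_filter] at hj
    have hj2 := hj.2
    simp only [decide_eq_true_eq] at hj2
    apply sw_of_window S k s j hs hmax hsk
    · intro i hi
      have h1 := hj2.1 i (mem_range.1 (hS hi))
      rw [← huu n i (hn i (mem_range.1 (hS hi)))] at h1
      have h2 : (uu P X n i / 2 ^ j) % 2 ^ (k + 3) = 2 * (2 ^ k - s) + 2 * i := by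
        exact_mod_cast h1
      rw [h2]
      ring
    · intro i hi
      have h1 := hj2.2 i (mem_range.1 (hS hi))
      rw [← huu n' i (hn' i (mem_range.1 (hS hi)))] at h1
      have h2 : (uu P X n' i / 2 ^ j) % 2 ^ (k + 3) = 0 + 0 * i := by
        exact_mod_cast h1
      rw [h2]
      simp
  have hblock : ∀ q : ℕ, |∑ z ∈ range (2 ^ m), G (z + 2 ^ m * q)| ≤ 2 ^ m * ρ ^ gl.length := by
    intro q
    refine cancel (k + 3) (2 ^ (k + 1)) (by omega) (by positivity)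
      (Nat.pow_lt_pow_right (by norm_num) (by omega)) gl m (fun z => G (z + 2 ^ m * q))
      (hl.filter _) ?_ ?_ (fun z => hG1 _)
    · intro a ha
      exact hlm a (List.mem_of_mem_filter ha)
    · intro a ha
      have h1 := hlm a (List.mem_of_mem_filter ha)
      obtain ⟨f, hf⟩ := Nat.exists_eq_add_of_le h1
      have h2 := (hSw a ha).shift (2 ^ f * q)
      have h3 : (fun z => G (z + 2 ^ m * q)) =
          fun z => G (z + 2 ^ (a + (k + 3)) * (2 ^ f * q)) := by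
        funext z
        congr 2
        rw [hf, pow_add _ (a + (k + 3)) f]
        ring
      rw [h3]
      exact h2
  have hcnt : cnt P X (k + 3) k (2 * (2 ^ k - s)) 2 l n n' = gl.length := by
    unfold cnt
    rw [hgl]
  rw [hcnt]
  have hMdiv : M = 2 ^ m * (M / 2 ^ m) + M % 2 ^ m := (Nat.div_add_mod M (2 ^ m)).symm
  have h4 : ∑ c ∈ range M, G c = ∑ q ∈ range (M / 2 ^ m), ∑ z ∈ range (2 ^ m), G (z + 2 ^ m * q) +
      ∑ r ∈ range (M % 2 ^ m), G (2 ^ m * (M / 2 ^ m) + r) := by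
    conv_lhs => rw [hMdiv]
    rw [sum_range_add, sum_range_mul_eq]
  rw [h4]
  have h5 : |∑ q ∈ range (M / 2 ^ m), ∑ z ∈ range (2 ^ m), G (z + 2 ^ m * q)| ≤
      M * ρ ^ gl.length := by
    calc |∑ q ∈ range (M / 2 ^ m), ∑ z ∈ range (2 ^ m), G (z + 2 ^ m * q)| ≤
          ∑ q ∈ range (M / 2 ^ m), |∑ z ∈ range (2 ^ m), G (z + 2 ^ m * q)| :=
          abs_sum_le_sum_abs _ _
      _ ≤ ∑ q ∈ range (M / 2 ^ m), 2 ^ m * ρ ^ gl.length := sum_le_sum fun q _ => hblock q
      _ = ((M / 2 ^ m : ℕ) : ℝ) * 2 ^ m * ρ ^ gl.length := by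
          rw [sum_const, card_range, nsmul_eq_mul]
          ring
      _ ≤ M * ρ ^ gl.length := by
          apply mul_le_mul_of_nonneg_right _ (by positivity)
          have : M / 2 ^ m * 2 ^ m ≤ M := Nat.div_mul_le_self _ _
          exact_mod_cast this
  have h6 : |∑ r ∈ range (M % 2 ^ m), G (2 ^ m * (M / 2 ^ m) + r)| ≤ 2 ^ m := by
    calc |∑ r ∈ range (M % 2 ^ m), G (2 ^ m * (M / 2 ^ m) + r)| ≤
          ∑ r ∈ range (M % 2 ^ m), |G (2 ^ m * (M / 2 ^ m) + r)| := abs_sum_le_sum_abs _ _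
      _ ≤ ∑ r ∈ range (M % 2 ^ m), (1 : ℝ) := sum_le_sum fun r _ => hG1 _
      _ = ((M % 2 ^ m : ℕ) : ℝ) := by simp
      _ ≤ 2 ^ m := by
          have : M % 2 ^ m ≤ 2 ^ m := (Nat.mod_lt _ (by positivity)).le
          exact_mod_cast this
  exact (abs_add_le _ _).trans (add_le_add h5 h6)

/-- The second moment over the constants. -/
lemma second_moment (d k A : ℕ) (hd : 2 ≤ d) : ∃ η C₁ : ℝ, 0 < η ∧ η ≤ 1 ∧ 0 < C₁ ∧
    ∀ P : ℤ[X],
    P.natDegree = d → |P.leadingCoeff| ≤ A → ∀ S ⊆ range k, S.Nonempty → ∀ M N : ℕ, 1 ≤ M → 1 ≤ N →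
      ∀ X : ℤ, (∀ n : ℕ, n < N + k → 0 ≤ P.eval (n : ℤ) + X) →
      ∑ c ∈ range M, (∑ n ∈ range N, ((∏ i ∈ S, chi (uu P X n i + c) : ℤ) : ℝ)) ^ 2 ≤
        C₁ * M * N ^ 2 * ((min M N : ℕ) : ℝ) ^ (-η) := by
  classical
  set ρ : ℝ := 1 - 2 / 2 ^ (k + 3) with hρ
  have hρ0 : 0 ≤ ρ := by
    have : (2 : ℝ) / 2 ^ (k + 3) ≤ 1 := by
      rw [div_le_one (by positivity)]
      calc (2 : ℝ) = 2 ^ 1 := by norm_num
        _ ≤ 2 ^ (k + 3) := pow_le_pow_right₀ (by norm_num) (by omega)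
    linarith
  have hρ1 : ρ < 1 := by
    have : (0 : ℝ) < 2 / 2 ^ (k + 3) := by positivity
    linarith
  obtain ⟨g, hg1, hbg, C, θ, hC0, hθ0, hθ1, hpos⟩ := positions d k A (k + 3) hd ρ hρ0 hρ1
  have hk2 : k < 2 ^ k := Nat.lt_two_pow_self
  set η₁ : ℝ := - Real.logb 2 θ / (2 * g) with hη₁
  have hg0 : (0 : ℝ) < g := by exact_mod_cast hg1
  have hlog : Real.logb 2 θ < 0 := Real.logb_neg (by norm_num) hθ0 hθ1
  have hη₁0 : 0 < η₁ := by
    rw [hη₁]
    apply div_pos <;> linarith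
  have hθη : θ = ((2 : ℝ) ^ (2 * g)) ^ (-η₁) := by
    rw [← Real.rpow_natCast, ← Real.rpow_mul (by norm_num)]
    push_cast
    rw [hη₁, show (2 * (g : ℝ)) * -(-Real.logb 2 θ / (2 * g)) = Real.logb 2 θ by field_simp]
    exact (Real.rpow_logb (by norm_num) (by norm_num) hθ0).symm
  refine ⟨min η₁ (1 / 2), 4 * C / θ + 1, lt_min hη₁0 (by norm_num),
    (min_le_right _ _).trans (by norm_num), by positivity, ?_⟩
  intro P hdd hA S hS hne M N hM hN X hX
  set s := S.max' hne with hs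
  have hsS : s ∈ S := max'_mem _ _
  have hmax : ∀ i ∈ S, i ≤ s := fun i hi => le_max' _ _ hi
  have hsk : s < k := mem_range.1 (hS hsS)
  have hαβ : ∀ i, i < k → 2 * (2 ^ k - s) + 2 * i < 2 ^ (k + 3) := by
    intro i hi
    have : (2 : ℕ) ^ (k + 3) = 8 * 2 ^ k := by rw [pow_add]; ring
    omega
  set L := min M N with hL
  have hL1 : 1 ≤ L := le_min hM hN
  have hLM : L ≤ M := min_le_left _ _
  have hLN : L ≤ N := min_le_right _ _
  set T := Nat.log 2 L / (2 * g) with hT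
  set m := g * T with hm
  have h2m : 2 ^ m * 2 ^ m ≤ L := by
    rw [← pow_add]
    calc 2 ^ (m + m) ≤ 2 ^ Nat.log 2 L := by
          apply Nat.pow_le_pow_right (by norm_num)
          have := Nat.mul_div_le (Nat.log 2 L) (2 * g)
          rw [hm, hT, show g * (Nat.log 2 L / (2 * g)) + g * (Nat.log 2 L / (2 * g)) =
            2 * g * (Nat.log 2 L / (2 * g)) by ring]
          exact this
      _ ≤ L := Nat.pow_log_le_self 2 (by omega)
  have hm1 : 1 ≤ 2 ^ m := Nat.one_le_two_pow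
  have hN1 : 2 ^ m ≤ N := by
    calc 2 ^ m = 2 ^ m * 1 := (mul_one _).symm
      _ ≤ 2 ^ m * 2 ^ m := Nat.mul_le_mul_left _ hm1
      _ ≤ N := h2m.trans hLN
  have hL0 : (0 : ℝ) < L := by exact_mod_cast hL1
  have hL1r : (1 : ℝ) ≤ L := by exact_mod_cast hL1
  have hθT : θ ^ T ≤ θ⁻¹ * (L : ℝ) ^ (-η₁) := by
    have h1 : L ≤ (2 ^ (2 * g)) ^ (T + 1) := by
      have h2 : L < 2 ^ (Nat.log 2 L + 1) := Nat.lt_pow_succ_log_self (by norm_num) _
      refine h2.le.trans ?_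
      rw [← pow_mul]
      apply Nat.pow_le_pow_right (by norm_num)
      have h3 : Nat.log 2 L < 2 * g * (Nat.log 2 L / (2 * g) + 1) := by
        have := Nat.lt_mul_div_succ (Nat.log 2 L) (show 0 < 2 * g by omega)
        exact this
      exact h3
    have h2 : θ ^ (T + 1) ≤ (L : ℝ) ^ (-η₁) := by
      have h3 : θ ^ (T + 1) = ((((2 ^ (2 * g)) ^ (T + 1) : ℕ)) : ℝ) ^ (-η₁) := by
        conv_lhs => rw [hθη]
        push_cast
        rw [← Real.rpow_natCast, ← Real.rpow_mul (by positivity), mul_comm (-η₁),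
          Real.rpow_mul (by positivity), Real.rpow_natCast]
      rw [h3]
      apply Real.rpow_le_rpow_of_nonpos hL0 _ (by linarith)
      exact_mod_cast h1
    calc θ ^ T = θ⁻¹ * θ ^ (T + 1) := by
          rw [pow_succ]
          field_simp
      _ ≤ θ⁻¹ * (L : ℝ) ^ (-η₁) := mul_le_mul_of_nonneg_left h2 (by positivity)
  have h2mr : (2 : ℝ) ^ m ≤ L * (L : ℝ) ^ (-(1 / 2) : ℝ) := by
    have h1 : ((2 : ℝ) ^ m) ^ 2 ≤ L := by
      have : ((2 ^ m * 2 ^ m : ℕ) : ℝ) ≤ L := by exact_mod_cast h2m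
      push_cast at this
      nlinarith
    have h3 : (L : ℝ) * (L : ℝ) ^ (-(1 / 2) : ℝ) = Real.sqrt L := by
      rw [Real.sqrt_eq_rpow]
      conv_lhs => rw [← Real.rpow_one (L : ℝ)]
      rw [← Real.rpow_mul hL0.le, ← Real.rpow_add hL0]
      norm_num
    rw [h3]
    exact Real.le_sqrt_of_sq_le h1
  set cn : ℕ → ℕ → ℕ := fun n n' => cnt P X (k + 3) k (2 * (2 ^ k - s)) 2 (lst g (k + 3) T) n n' with hcn
  have hρn : ∀ e : ℕ, (0 : ℝ) ≤ ρ ^ e := fun e => pow_nonneg hρ0 e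
  have h1 : ∑ c ∈ range M, (∑ n ∈ range N, ((∏ i ∈ S, chi (uu P X n i + c) : ℤ) : ℝ)) ^ 2 =
      ∑ n ∈ range N, ∑ n' ∈ range N, ∑ c ∈ range M,
        (((∏ i ∈ S, (chi (uu P X n i + c) * chi (uu P X n' i + c)) : ℤ)) : ℝ) := by
    calc ∑ c ∈ range M, (∑ n ∈ range N, ((∏ i ∈ S, chi (uu P X n i + c) : ℤ) : ℝ)) ^ 2 =
          ∑ c ∈ range M, ∑ n ∈ range N, ∑ n' ∈ range N,
            (((∏ i ∈ S, (chi (uu P X n i + c) * chi (uu P X n' i + c)) : ℤ)) : ℝ) := by
          apply sum_congr rfl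
          intro c _
          rw [sq, sum_mul_sum]
          apply sum_congr rfl
          intro n _
          apply sum_congr rfl
          intro n' _
          rw [prod_mul_distrib]
          push_cast
          ring
      _ = _ := by
          rw [sum_comm]
          apply sum_congr rfl
          intro n _
          rw [sum_comm]
  rw [h1]
  have h2 : ∑ n ∈ range N, ∑ n' ∈ range N, ∑ c ∈ range M,
        (((∏ i ∈ S, (chi (uu P X n i + c) * chi (uu P X n' i + c)) : ℤ)) : ℝ) ≤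
      ∑ n ∈ range N, ∑ n' ∈ range N, (M * ρ ^ cn n n' + 2 ^ m) := by
    apply sum_le_sum
    intro n hnN
    apply sum_le_sum
    intro n' hnN'
    rw [mem_range] at hnN hnN'
    exact (le_abs_self _).trans (pair_corr P k S hS s hsS hmax X (lst g (k + 3) T) m
      (lst_pairwise g (k + 3) hbg T) (fun a ha => lst_le g (k + 3) hbg T a ha) M n n'
      (fun i hi => hX (n + i) (by omega)) (fun i hi => hX (n' + i) (by omega)))
  refine h2.trans ?_
  have h3 : ∑ n ∈ range N, ∑ n' ∈ range N, ((M : ℝ) * ρ ^ cn n n' + 2 ^ m) =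
      M * ∑ n ∈ range N, ∑ n' ∈ range N, ρ ^ cn n n' + N ^ 2 * 2 ^ m := by
    simp_rw [sum_add_distrib, ← mul_sum]
    simp
    ring
  rw [h3]
  -- complete the range of `n`
  set Q := N / 2 ^ m + 1 with hQ
  have hNQ : N ≤ 2 ^ m * Q := by
    have := Nat.div_add_mod N (2 ^ m)
    have h5 : N % 2 ^ m < 2 ^ m := Nat.mod_lt _ (by positivity)
    rw [hQ, mul_add, mul_one]
    omega
  have hQN : 2 ^ m * Q ≤ 2 * N := by
    have := Nat.div_mul_le_self N (2 ^ m)
    rw [hQ, mul_add, mul_one, mul_comm]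
    omega
  have h4 : ∑ n ∈ range N, ∑ n' ∈ range N, ρ ^ cn n n' ≤ θ ^ T * (2 * N) ^ 2 * C := by
    calc ∑ n ∈ range N, ∑ n' ∈ range N, ρ ^ cn n n' ≤
          ∑ n ∈ range (2 ^ m * Q), ∑ n' ∈ range (2 ^ m * Q), ρ ^ cn n n' := by
          calc ∑ n ∈ range N, ∑ n' ∈ range N, ρ ^ cn n n' ≤
                ∑ n ∈ range N, ∑ n' ∈ range (2 ^ m * Q), ρ ^ cn n n' := by
                apply sum_le_sum
                intro n _
                apply sum_le_sum_of_subset_of_nonneg (range_subset_range.2 hNQ)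
                intro _ _ _
                positivity
            _ ≤ _ := by
                apply sum_le_sum_of_subset_of_nonneg (range_subset_range.2 hNQ)
                intro _ _ _
                positivity
      _ = Q ^ 2 * ∑ u ∈ range (2 ^ m), ∑ u' ∈ range (2 ^ m), ρ ^ cn u u' := by
          rw [sum_range_mul_eq]
          have h5 : ∀ q ∈ range Q, ∑ u ∈ range (2 ^ m), ∑ n' ∈ range (2 ^ m * Q),
              ρ ^ cn (u + 2 ^ m * q) n' =
                Q * ∑ u ∈ range (2 ^ m), ∑ u' ∈ range (2 ^ m), ρ ^ cn u u' := by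
            intro q _
            rw [mul_sum]
            apply sum_congr rfl
            intro u _
            rw [sum_range_mul_eq]
            have h6 : ∀ q' ∈ range Q, ∑ u' ∈ range (2 ^ m),
                ρ ^ cn (u + 2 ^ m * q) (u' + 2 ^ m * q') =
                  ∑ u' ∈ range (2 ^ m), ρ ^ cn u u' := by
              intro q' _
              apply sum_congr rfl
              intro u' _
              congr 1
              rw [hcn]
              simp only
              push_cast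
              exact cnt_periodic P X (k + 3) k _ 2 _ m (fun a ha => lst_le g (k + 3) hbg T a ha) _ _ _ _
            rw [sum_congr rfl h6, sum_const, card_range, nsmul_eq_mul]
          rw [sum_congr rfl h5, sum_const, card_range, nsmul_eq_mul]
          ring
      _ ≤ Q ^ 2 * (θ ^ T * (2 ^ m) ^ 2 * C) := by
          apply mul_le_mul_of_nonneg_left _ (by positivity)
          exact hpos P hdd hA X (2 * (2 ^ k - s)) 2 hαβ T m le_rfl
      _ = θ ^ T * ((2 ^ m * Q : ℕ) : ℝ) ^ 2 * C := by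
          push_cast
          ring
      _ ≤ θ ^ T * (2 * N) ^ 2 * C := by
          apply mul_le_mul_of_nonneg_right _ hC0
          apply mul_le_mul_of_nonneg_left _ (by positivity)
          apply pow_le_pow_left₀ (by positivity)
          exact_mod_cast hQN
  set η := min η₁ (1 / 2) with hη
  have hrp1 : (L : ℝ) ^ (-η₁) ≤ (L : ℝ) ^ (-η) :=
    Real.rpow_le_rpow_of_exponent_le hL1r (neg_le_neg (min_le_left _ _))
  have hrp2 : (L : ℝ) ^ (-(1 / 2) : ℝ) ≤ (L : ℝ) ^ (-η) :=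
    Real.rpow_le_rpow_of_exponent_le hL1r (neg_le_neg (min_le_right _ _))
  have hrp0 : (0 : ℝ) ≤ (L : ℝ) ^ (-η) := by positivity
  have h5 : (M : ℝ) * ∑ n ∈ range N, ∑ n' ∈ range N, ρ ^ cn n n' ≤
      M * (θ⁻¹ * (L : ℝ) ^ (-η) * (2 * N) ^ 2 * C) := by
    apply mul_le_mul_of_nonneg_left _ (Nat.cast_nonneg _)
    refine h4.trans ?_
    apply mul_le_mul_of_nonneg_right _ hC0
    apply mul_le_mul_of_nonneg_right _ (by positivity)
    refine hθT.trans ?_
    exact mul_le_mul_of_nonneg_left hrp1 (by positivity)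
  have h6 : (N : ℝ) ^ 2 * 2 ^ m ≤ N ^ 2 * (M * (L : ℝ) ^ (-η)) := by
    apply mul_le_mul_of_nonneg_left _ (by positivity)
    refine h2mr.trans ?_
    have hLMr : (L : ℝ) ≤ M := by exact_mod_cast hLM
    exact mul_le_mul hLMr hrp2 (by positivity) (by positivity)
  calc (M : ℝ) * ∑ n ∈ range N, ∑ n' ∈ range N, ρ ^ cn n n' + N ^ 2 * 2 ^ m ≤
        M * (θ⁻¹ * (L : ℝ) ^ (-η) * (2 * N) ^ 2 * C) + N ^ 2 * (M * (L : ℝ) ^ (-η)) :=
        add_le_add h5 h6
    _ = (4 * C / θ + 1) * M * N ^ 2 * (L : ℝ) ^ (-η) := by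
        field_simp
        ring

end Pool.Agent.Lib.MP_86b630_nt.Avg81
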